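import Pool.Agent.Lib.MP_f23696_ag.T.Val

/-!
Project COX-F, module Appr: weak approximation for discrete valuations.

Proof of `appr_one`.  (A) If `w₀.ord a ≠ w.ord a` for some `a ≠ 0`, there is `a ≠ 0` with
`w₀.ord a ≥ 0 > w.ord a`: otherwise `w₀.ord a ≥ 0` implies `w.ord a ≥ 0`, so (apply it to `a`,
`a⁻¹`) `w₀.ord a = 0` implies `w.ord a = 0`; with `w₀.ord π = 1`, `c = w.ord π ≥ 0`, every `a ≠ 0`
is
`π^(w₀.ord a) * u` with `w₀.ord u = 0`, so `w.ord a = c * w₀.ord a`; as `w` takes the value `1`,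
`c = 1` and the two valuations agree, a contradiction.  By symmetry there is `b ≠ 0` with
`w.ord b ≥ 0 > w₀.ord b`.  So `t = b / a` has `w₀.ord t < 0 < w.ord t`.
(B) Induction on the set `W`: there is `a ≠ 0` with `w₀.ord a < 0 < w.ord a` for all `w ∈ W`.  Let
`a` be such an element for `W`, let `w'` be another valuation, `b ≠ 0` with
`w₀.ord b < 0 < w'.ord b`.  If `w'.ord a > 0`, take `a`.  If `w'.ord a = 0`, take `a^M b`, `M`
large.
If `w'.ord a < 0`, take `a^M / (1 + a^M) * b`, `M` large: `w₀.ord (a^M / (1 + a^M)) = 0`,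
`w'.ord (a^M / (1 + a^M)) = 0` (`w.ord (1 + c) = w.ord c` if `w.ord c < 0`, and
`w.ord (1 + c) = 0` if `w.ord c > 0`), `w.ord (a^M / (1 + a^M)) = M w.ord a` for `w ∈ W`.
(C) `z = a^M / (1 + a^M)`: `z - 1 = -1 / (1 + a^M)` has `w₀.ord = M * (-w₀.ord a)`, and
`w.ord z = M w.ord a`, `w ∈ W`.  (`1 + a^M ≠ 0` since `w₀.ord (a^M) ≠ 0`.)

`appr`: take `z` for the bound `n + |w₀.ord b| + ∑ |w.ord b|` and `c = b z`: `c - b = b (z - 1)`.
(`b ≠ 0`.)  Statements `n < w.ord z` are for nonzero elements; here `z ≠ 0`, and `z - 1 ≠ 0`.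
-/

set_option autoImplicit false

namespace Pool.Agent.MLD.Cox

universe u v w

open Pool.Agent.MLD.Jac Pool.Agent.MLD.Ten

private theorem Appr_neg {k : Type u} {L : Type v} [Field k] [Field L] [Algebra k L]
    (w : DVal k L) {c : L} (hc : c ≠ 0) (h : w.ord c < 0) :
    1 + c ≠ 0 ∧ w.ord (1 + c) = w.ord c := by
  have h1 : LB w (w.ord c + 1) (1 : L) := fun _ => by
    rw [ord_one]
    omega
  have h2 := ord_add_eq w hc h1
  rwa [add_comm c 1] at h2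

private theorem Appr_pos {k : Type u} {L : Type v} [Field k] [Field L] [Algebra k L]
    (w : DVal k L) {c : L} (h : 0 < w.ord c) :
    1 + c ≠ 0 ∧ w.ord (1 + c) = 0 := by
  have h1 : LB w (w.ord (1 : L) + 1) c := fun _ => by
    rw [ord_one]
    omega
  have h2 := ord_add_eq w (one_ne_zero (α := L)) h1
  rw [ord_one] at h2
  exact h2

private theorem Appr_half {k : Type u} {L : Type v} [Field k] [Field L] [Algebra k L]
    (x y : DVal k L) (h : ∃ a : L, a ≠ 0 ∧ x.ord a ≠ y.ord a) :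
    ∃ a : L, a ≠ 0 ∧ 0 ≤ x.ord a ∧ y.ord a < 0 := by
  by_contra hcon
  push Not at hcon
  have h0 : ∀ a : L, a ≠ 0 → x.ord a = 0 → y.ord a = 0 := by
    intro a ha hxa
    have h1 := hcon a ha hxa.ge
    have h2 := hcon a⁻¹ (inv_ne_zero ha) (by rw [ord_inv x a ha]; omega)
    rw [ord_inv y a ha] at h2
    omega
  obtain ⟨p, hp, hp1⟩ := x.exists_ord_eq_one
  have hc := hcon p hp (by omega)
  have hall : ∀ a : L, a ≠ 0 → y.ord a = x.ord a * y.ord p := by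
    intro a ha
    have hz : p ^ (-x.ord a) ≠ 0 := zpow_ne_zero _ hp
    have h1 := h0 (a * p ^ (-x.ord a)) (mul_ne_zero ha hz) (by
      rw [x.ord_mul _ _ ha hz, ord_zpow x p hp, hp1]
      ring)
    rw [y.ord_mul _ _ ha hz, ord_zpow y p hp] at h1
    linear_combination h1
  obtain ⟨r, hr, hr1⟩ := y.exists_ord_eq_one
  have h2 := hall r hr
  rw [hr1] at h2
  have h3 : y.ord p = 1 := by
    have h4 : y.ord p ∣ 1 := ⟨x.ord r, by rw [h2]; ring⟩
    exact Int.eq_one_of_dvd_one hc h4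
  obtain ⟨a, ha, hne⟩ := h
  apply hne
  rw [hall a ha, h3, mul_one]

private theorem Appr_sep {k : Type u} {L : Type v} [Field k] [Field L] [Algebra k L]
    (x y : DVal k L) (h : ∃ a : L, a ≠ 0 ∧ x.ord a ≠ y.ord a) :
    ∃ b : L, b ≠ 0 ∧ x.ord b < 0 ∧ 0 < y.ord b := by
  obtain ⟨a, ha, ha1, ha2⟩ := Appr_half x y h
  obtain ⟨b, hb, hb1, hb2⟩ := Appr_half y x (by
    obtain ⟨a, ha, hne⟩ := h
    exact ⟨a, ha, Ne.symm hne⟩)
  refine ⟨b / a, div_ne_zero hb ha, ?_, ?_⟩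
  · rw [ord_div x b a hb ha]
    omega
  · rw [ord_div y b a hb ha]
    omega

/-- the element `a^M / (1 + a^M)` -/
private theorem Appr_z {k : Type u} {L : Type v} [Field k] [Field L] [Algebra k L]
    (x : DVal k L) {a : L} (ha : a ≠ 0) {M : ℕ} (hM : 1 ≤ M) :
    (x.ord a < 0 → 1 + a ^ M ≠ 0 ∧ x.ord (a ^ M / (1 + a ^ M)) = 0 ∧
      x.ord (1 + a ^ M) = M * x.ord a) ∧
    (0 < x.ord a → 1 + a ^ M ≠ 0 ∧ x.ord (a ^ M / (1 + a ^ M)) = M * x.ord a) := by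
  have hM' : (1 : ℤ) ≤ M := by exact_mod_cast hM
  have haM : a ^ M ≠ 0 := pow_ne_zero _ ha
  constructor
  · intro h
    have h1 : x.ord (a ^ M) < 0 := by
      rw [ord_pow x a ha]
      nlinarith
    obtain ⟨h2, h3⟩ := Appr_neg x haM h1
    refine ⟨h2, ?_, ?_⟩
    · rw [ord_div x _ _ haM h2, h3]
      ring
    · rw [h3, ord_pow x a ha]
  · intro h
    have h1 : 0 < x.ord (a ^ M) := by
      rw [ord_pow x a ha]
      nlinarith
    obtain ⟨h2, h3⟩ := Appr_pos x h1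
    refine ⟨h2, ?_⟩
    rw [ord_div x _ _ haM h2, h3, ord_pow x a ha]
    ring

private theorem Appr_large {m : ℤ} {ι : Type w} (s : Finset ι) (f g : ι → ℤ)
    (hf : ∀ i ∈ s, 0 < f i) (hm : m = 1 + ∑ i ∈ s, |g i|) :
    ∀ i ∈ s, 0 < m * f i + g i := by
  intro i hi
  have h1 : |g i| ≤ ∑ i ∈ s, |g i| :=
    Finset.single_le_sum (f := fun i => |g i|) (fun i _ => abs_nonneg (g i)) hi
  have h2 := neg_abs_le (g i)
  have h3 := hf i hi
  have h4 := abs_nonneg (g i)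
  have h5 : m ≤ m * f i := by nlinarith
  omega

private theorem Appr_B {k : Type u} {L : Type v} [Field k] [Field L] [Algebra k L]
    (w₀ : DVal k L) {ι : Type w} (W : ι → DVal k L)
    (hW : ∀ i, ∃ a : L, a ≠ 0 ∧ w₀.ord a ≠ (W i).ord a) (s : Finset ι) :
    ∃ a : L, a ≠ 0 ∧ w₀.ord a < 0 ∧ ∀ i ∈ s, 0 < (W i).ord a := by
  classical
  induction s using Finset.induction_on with
  | empty =>
    obtain ⟨p, hp, hp1⟩ := w₀.exists_ord_eq_one
    refine ⟨p⁻¹, inv_ne_zero hp, ?_, ?_⟩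
    · rw [ord_inv w₀ p hp]
      omega
    · intro i hi
      exact absurd hi (Finset.notMem_empty i)
  | insert j s _ ih =>
    obtain ⟨a, ha, ha0, has⟩ := ih
    obtain ⟨b, hb, hb0, hbj⟩ := Appr_sep w₀ (W j) (hW j)
    obtain ⟨M, hM⟩ : ∃ M : ℕ, (M : ℤ) = 1 + ∑ i ∈ s, |(W i).ord b| := by
      refine ⟨(1 + ∑ i ∈ s, |(W i).ord b|).toNat, Int.toNat_of_nonneg ?_⟩
      have : 0 ≤ ∑ i ∈ s, |(W i).ord b| := Finset.sum_nonneg fun i _ => abs_nonneg _
      omega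
    have hM1 : 1 ≤ M := by
      have : 0 ≤ ∑ i ∈ s, |(W i).ord b| := Finset.sum_nonneg fun i _ => abs_nonneg _
      omega
    have hlarge := Appr_large s (fun i => (W i).ord a) (fun i => (W i).ord b) has hM
    have haM : a ^ M ≠ 0 := pow_ne_zero _ ha
    have hM0 : (0 : ℤ) ≤ M := Int.natCast_nonneg M
    rcases lt_trichotomy ((W j).ord a) 0 with hj | hj | hj
    · obtain ⟨z1, z2, -⟩ := (Appr_z w₀ ha hM1).1 ha0
      have hz : a ^ M / (1 + a ^ M) ≠ 0 := div_ne_zero haM z1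
      refine ⟨a ^ M / (1 + a ^ M) * b, mul_ne_zero hz hb, ?_, ?_⟩
      · rw [w₀.ord_mul _ _ hz hb, z2]
        omega
      · intro i hi
        rcases Finset.mem_insert.1 hi with rfl | hi
        · rw [(W i).ord_mul _ _ hz hb, ((Appr_z (W i) ha hM1).1 hj).2.1]
          omega
        · rw [(W i).ord_mul _ _ hz hb, ((Appr_z (W i) ha hM1).2 (has i hi)).2]
          exact hlarge i hi
    · refine ⟨a ^ M * b, mul_ne_zero haM hb, ?_, ?_⟩
      · rw [w₀.ord_mul _ _ haM hb, ord_pow w₀ a ha]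
        nlinarith
      · intro i hi
        rcases Finset.mem_insert.1 hi with rfl | hi
        · rw [(W i).ord_mul _ _ haM hb, ord_pow (W i) a ha, hj]
          omega
        · rw [(W i).ord_mul _ _ haM hb, ord_pow (W i) a ha]
          exact hlarge i hi
    · refine ⟨a, ha, ha0, ?_⟩
      intro i hi
      rcases Finset.mem_insert.1 hi with rfl | hi
      · exact hj
      · exact has i hi

theorem appr_one {k : Type u} {L : Type v} [Field k] [Field L] [Algebra k L] (w₀ : DVal k L)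
    {ι : Type w} [Finite ι] (W : ι → DVal k L)
    (hW : ∀ i, ∃ a : L, a ≠ 0 ∧ w₀.ord a ≠ (W i).ord a) (n : ℤ) :
    ∃ z : L, z ≠ 0 ∧ z ≠ 1 ∧ n < w₀.ord (z - 1) ∧ ∀ i, n < (W i).ord z := by
  obtain ⟨hfin⟩ := nonempty_fintype ι
  obtain ⟨a, ha, ha0, haW⟩ := Appr_B w₀ W hW Finset.univ
  obtain ⟨M, hM⟩ : ∃ M : ℕ, (M : ℤ) = 1 + |n| :=
    ⟨(1 + |n|).toNat, Int.toNat_of_nonneg (by have := abs_nonneg n; omega)⟩
  have hn := le_abs_self n
  have hn0 := abs_nonneg n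
  have hM1 : 1 ≤ M := by omega
  obtain ⟨z1, z2, z3⟩ := (Appr_z w₀ ha hM1).1 ha0
  have haM : a ^ M ≠ 0 := pow_ne_zero _ ha
  have hz : a ^ M / (1 + a ^ M) ≠ 0 := div_ne_zero haM z1
  have hz1 : a ^ M / (1 + a ^ M) - 1 = -(1 + a ^ M)⁻¹ := by
    field_simp
    ring
  have hz2 : a ^ M / (1 + a ^ M) - 1 ≠ 0 := by
    rw [hz1]
    exact neg_ne_zero.2 (inv_ne_zero z1)
  refine ⟨a ^ M / (1 + a ^ M), hz, sub_ne_zero.1 hz2, ?_, ?_⟩
  · rw [hz1, ord_neg w₀ _ (inv_ne_zero z1), ord_inv w₀ _ z1, z3]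
    nlinarith
  · intro i
    have h1 := haW i (Finset.mem_univ i)
    rw [((Appr_z (W i) ha hM1).2 h1).2]
    nlinarith

theorem appr {k : Type u} {L : Type v} [Field k] [Field L] [Algebra k L] (w₀ : DVal k L)
    {ι : Type w} [Finite ι] (W : ι → DVal k L)
    (hW : ∀ i, ∃ a : L, a ≠ 0 ∧ w₀.ord a ≠ (W i).ord a) (b : L) (hb : b ≠ 0) (n : ℤ) :
    ∃ c : L, c ≠ 0 ∧ c ≠ b ∧ n < w₀.ord (c - b) ∧ ∀ i, n < (W i).ord c := by
  obtain ⟨hfin⟩ := nonempty_fintype ι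
  obtain ⟨z, hz, hz1, h0, hi⟩ := appr_one w₀ W hW (n + |w₀.ord b| + ∑ i, |(W i).ord b|)
  have hs : 0 ≤ ∑ i, |(W i).ord b| := Finset.sum_nonneg fun i _ => abs_nonneg _
  have hz2 : z - 1 ≠ 0 := sub_ne_zero.2 hz1
  have he : b * z - b = b * (z - 1) := by ring
  refine ⟨b * z, mul_ne_zero hb hz, ?_, ?_, ?_⟩
  · rw [← sub_ne_zero, he]
    exact mul_ne_zero hb hz2
  · rw [he, w₀.ord_mul _ _ hb hz2]
    have h1 := neg_abs_le (w₀.ord b)
    omega
  · intro i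
    rw [(W i).ord_mul _ _ hb hz]
    have h1 : |(W i).ord b| ≤ ∑ i, |(W i).ord b| :=
      Finset.single_le_sum (f := fun i => |(W i).ord b|) (fun i _ => abs_nonneg _)
        (Finset.mem_univ i)
    have h2 := neg_abs_le ((W i).ord b)
    have h3 := abs_nonneg (w₀.ord b)
    have h4 := hi i
    omega

end Pool.Agent.MLD.Cox
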