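import Pool.Agent.Lib.MP_f23696_ag.Y.CoxD

/-!
Lower semicontinuity of minimal log discrepancies: the integral closure in a finite extension, and
the varieties with a ring of sections which is locally a complete intersection.
-/

set_option autoImplicit false

namespace Pool.Agent.MLD.Cox

open MvPolynomial

universe u v

/-- the integral closure of `A` in `L`, as a `k`-subalgebra: the coordinate ring of the
normalization of `Spec A` in `L` -/
def intCl {k : Type u} {K : Type v} [Field k] [Field K] [Algebra k K] (A : Subalgebra k K)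
    (L : Type v) [Field L] [Algebra k L] [Algebra K L] [IsScalarTower k K L] : Subalgebra k L where
  carrier := {z | ((algebraMap K L).comp (algebraMap A K)).IsIntegralElem z}
  mul_mem' := fun h h' => RingHom.IsIntegralElem.mul _ h h'
  add_mem' := fun h h' => RingHom.IsIntegralElem.add _ h h'
  algebraMap_mem' := by
    intro c
    have h : algebraMap k L c = ((algebraMap K L).comp (algebraMap A K)) (algebraMap k A c) := by
      rw [IsScalarTower.algebraMap_apply k K L]
      rfl
    rw [h]
    exact RingHom.isIntegralElem_map _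

/-- the ideal of the relations between the generators `ξ_i s^(χ_i)` of the ring of sections: it is
generated by the homogeneous polynomials `P` with `P(ξ) = 0` -/
noncomputable def relI (k : Type u) {K : Type v} [Field k] [Field K] [Algebra k K] {h N : ℕ}
    (ξ : Fin N → K) (χ : Fin N → Fin h → ℤ) : Ideal (MvPolynomial (Fin N) k) :=
  Ideal.span {P | ∃ β : Fin h → ℤ, IsWeightedHomogeneous χ P β ∧ aeval ξ P = 0}

/-- Every closed point `x` of `Spec A` has the following property: there are Weil divisors
`E_1, …, E_h` such that the ring of sections `R = ⊕_(β ∈ ℤ^h) H^0(Spec A, O(∑ β_l E_l)) s^β` is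
finitely generated, by homogeneous elements `ξ_i s^(χ_i)`, `i < N`, `ξ_i ≠ 0` (the sections of
`∑ β_l E_l` are the values at `ξ` of the homogeneous polynomials of degree `β`), and `R`, of
dimension `n + h = N - c`, is locally a complete intersection over `x`: at every prime ideal `Q` of
`k[X_1, …, X_N]` which contains the ideal `relI` of the relations and lies over `x`, the
localization of `relI` is generated by `c` elements. -/
def HasLCIRing {k : Type u} {K : Type v} [Field k] [Field K] [Algebra k K] (A : Subalgebra k K)
    (n : ℕ) : Prop :=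
  ∀ x : MaximalSpectrum A, ∃ (h N c : ℕ) (E : Fin h → Ideal A →₀ ℤ) (ξ : Fin N → K)
    (χ : Fin N → Fin h → ℤ), N = n + h + c ∧ (∀ i, ξ i ≠ 0) ∧
    (∀ (β : Fin h → ℤ) (b : K), IsSec A E β b ↔
      ∃ P : MvPolynomial (Fin N) k, IsWeightedHomogeneous χ P β ∧ b = aeval ξ P) ∧
    ∀ Q : Ideal (MvPolynomial (Fin N) k), Q.IsPrime → relI k ξ χ ≤ Q →
      (∀ P : MvPolynomial (Fin N) k, IsWeightedHomogeneous χ P 0 →
        (∃ a ∈ x.asIdeal, aeval ξ P = (a : K)) → P ∈ Q) →
      ∃ g ∉ Q, ∃ f : Fin c → MvPolynomial (Fin N) k, (∀ j, f j ∈ relI k ξ χ) ∧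
        ∀ P ∈ relI k ξ χ, g * P ∈ Ideal.span (Set.range f)

end Pool.Agent.MLD.Cox
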