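import Pool.Agent.Lib.MP_f23696_ag.Z.Loc

/-!
Project COX-F, module Cov: descent of the inequality along a cover.

Write `A' = intCl A L` (good by `intCl_good`), `φ = algebraMap K L`.

`cover`: (1) the centre `q₁` of `v₁` on `A'` (`exists_center`; `v₁ ∘ φ = v` is integral on `A`);
`ctr A q₁ = q` (`v.HasCenter A q`).  `goUp`: `x₁` maximal, `q₁ ≤ x₁`, `ctr A x₁ = x`.
`ringKrullDim (A' ⧸ q₁) ≤ ringKrullDim (A ⧸ q) ≤ d` (`dim_le`).  (2) `locEq` gives `δ₁`, `γ₁`.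
(3) `v₁` is divisorial (`ram_div`), `v₁.FormOrd D' j₀` (`ram`, `e = 1`), so with `γ₁`, also a local
equation at `q₁ ≤ x₁`: `l = 1 + j₀ - v.val γ ∈ logDiscsP A' D' δ₁ q₁`.  So
`mldP A' D' δ₁ q₁ ≤ l` (and `= ⊥` if `l < 0`), and by `hX` `mld A' D' δ₁ x₁ ≤ l + d` (and `= ⊥` if
`l < 0`).  (4) `mld A D δ x ≤ mld A' D' δ₁ x₁`: let `l₁ = 1 + j₁ - v₁'.val γ' ∈ logDiscs A' D' δ₁
x₁`
(`γ'` another local equation, `v₁'.val γ' = v₁'.val γ₁` by `indep_gen`, T/Ind.lean); restrict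
`v₁'` to
`K` (`restrict`; a nonzero element of `x` has positive order — `x ≠ ⊥`, because `x₁ ≠ ⊥`: the
valuation `v₁'` is not trivial on `A'`, whose fraction field is `L`): `v₁' ∘ φ = e v'`; `v'` has
centre
`x` (`ctr A x₁ = x`), is divisorial, and `v'.FormOrd D j'` with `1 + j₁ = e (1 + j')` (`ram`), so
`l₁ = e l'`, `l' = 1 + j' - v'.val γ ∈ logDiscs A D δ x`.  If `l₁ < 0` then `l' < 0`; otherwise
`l' ≤ l₁`.  So `mld A D δ x ≤ mld A' D' δ₁ x₁` in all cases.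
-/

set_option autoImplicit false

namespace Pool.Agent.MLD.Cox

open Pool.Agent.MLD.Ten

universe u v

private theorem Cov_triv {k : Type u} {K L : Type v} [Field k] [Field K] [Field L] [Algebra k K]
    [Algebra k L] [Algebra K L] [IsScalarTower k K L] [Algebra.IsAlgebraic K L] (w : DVal k L) :
    ∃ a : K, a ≠ 0 ∧ w.ord (algebraMap K L a) ≠ 0 := by
  by_contra hcon
  push Not at hcon
  have h1 : ∀ a : (⊤ : Subalgebra k K), w.Integral (algebraMap K L a) := by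
    intro a h0
    have ha : (a : K) ≠ 0 := by
      intro h'
      exact h0 (by rw [h', map_zero])
    rw [hcon _ ha]
  have hmem : ∀ z : L, z ∈ intCl (⊤ : Subalgebra k K) L := by
    intro z
    obtain ⟨p, hp, hpz⟩ := (Algebra.IsIntegral.isIntegral (R := K) z : IsIntegral K z)
    refine ⟨p.map (Subalgebra.topEquiv (R := k) (A := K)).symm.toRingEquiv.toRingHom,
      hp.map _, ?_⟩
    rw [Polynomial.eval₂_map]
    exact hpz
  have h2 : ∀ z : L, w.Integral z := fun z => val_intCl (⊤ : Subalgebra k K) w h1 ⟨z, hmem z⟩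
  obtain ⟨b, hb, hb1⟩ := w.exists_ord_eq_one
  have h3 := h2 b⁻¹ (inv_ne_zero hb)
  have h4 : w.ord (b * b⁻¹) = w.ord b + w.ord b⁻¹ := w.ord_mul _ _ hb (inv_ne_zero hb)
  have h5 := w.ord_mul 1 1 one_ne_zero one_ne_zero
  rw [one_mul] at h5
  rw [mul_inv_cancel₀ hb] at h4
  omega

private theorem Cov_down {m : ℕ} {k : Type u} {K L : Type v} [Field k] [CharZero k] [Field K]
    [Field L] [Algebra k K]
    [Algebra k L] [Algebra K L] [IsScalarTower k K L] [FiniteDimensional K L]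
    (A : Subalgebra k K) (hA : Ten.IsGood A) (y : Fin (m + 1) → K)
    (hy : IsTranscendenceBasis k y)
    (D : Fin (m + 1) → Derivation k K K) (hD : ∀ i j, D i (y j) = if i = j then 1 else 0)
    (D' : Fin (m + 1) → Derivation k L L)
    (hD' : ∀ i j, D' i (algebraMap K L (y j)) = if i = j then 1 else 0)
    (δ : Ideal A →₀ ℝ) (x : MaximalSpectrum A) (γ : Kˣ →₀ ℝ) (hγ : IsLocalEq A D δ x.asIdeal γ)
    (δ₁ : Ideal (intCl A L) →₀ ℝ) (γ₁ : Lˣ →₀ ℝ)
    (hval : ∀ (w : DVal k L) (e : ℕ) (v : DVal k K),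
        (∀ a : K, a ≠ 0 → w.ord (algebraMap K L a) = e * v.ord a) → w.val γ₁ = e * v.val γ)
    (x₁ : MaximalSpectrum (intCl A L)) (hx : ctr A x₁.asIdeal = x.asIdeal)
    (hloc : IsLocalEq (intCl A L) D' δ₁ x₁.asIdeal γ₁)
    (l₁ : ℝ) (hl : l₁ ∈ logDiscs (intCl A L) D' δ₁ x₁) :
    ∃ l' ∈ logDiscs A D δ x, ∃ e : ℕ, 1 ≤ e ∧ l₁ = e * l' := by
  obtain ⟨w, hwd, hwc, j₁, hj₁, γ', hγ', rfl⟩ := hl
  have hgood : Ten.IsGood (intCl A L) := intCl_good A hA
  have hjac : ∃ c, jac D' c ≠ 0 := by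
    refine ⟨fun i => algebraMap K L (y i), ?_⟩
    rw [Ten.jac_dual D' _ hD']
    exact one_ne_zero
  have h1 := Ten.indep_gen (intCl A L) hgood D' hjac δ₁ x₁.asIdeal x₁.isMaximal.isPrime γ' γ₁
    hγ' hloc w hwc
  obtain ⟨e, v', he, hv'⟩ := Ten.restrict (IsScalarTower.toAlgHom k K L) w (Cov_triv w)
  have hv : ∀ a : K, a ≠ 0 → w.ord (algebraMap K L a) = e * v'.ord a := hv'
  have he0 : (0 : ℤ) < e := by exact_mod_cast he
  have hvd : v'.IsDivisorial m := (ram_div v' w e he hv m).2 hwd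
  have hvc : v'.HasCenter A x.asIdeal := by
    constructor
    · intro a ha
      have h2 := hwc.1 (toCl A L a)
      rw [toCl_coe] at h2
      have h3 := h2 ((map_ne_zero (algebraMap K L)).2 ha)
      rw [hv _ ha] at h3
      exact nonneg_of_mul_nonneg_right h3 he0
    · intro a
      rw [← hx, mem_ctr, hwc.2, toCl_coe]
      constructor
      · intro h2 ha
        have h3 := h2 ((map_ne_zero (algebraMap K L)).2 ha)
        rw [hv _ ha] at h3
        exact (mul_pos_iff_of_pos_left he0).1 h3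
      · intro h2 ha
        have ha' : (a : K) ≠ 0 := (map_ne_zero (algebraMap K L)).1 ha
        rw [hv _ ha']
        exact mul_pos he0 (h2 ha')
  obtain ⟨j', hj', hjj⟩ := (ram y hy D hD D' hD' v' w e he hv hvd).2 j₁ hj₁
  refine ⟨1 + (j' : ℝ) - v'.val γ, ⟨v', hvd, hvc, j', hj', γ, hγ, rfl⟩, e, he, ?_⟩
  rw [h1, hval w e v' hv]
  have h2 : (1 : ℝ) + j₁ = e * (1 + j') := by exact_mod_cast hjj
  rw [h2]
  ring

variable {k : Type u} {K L : Type v} [Field k] [CharZero k] [Field K] [Field L] [Algebra k K]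
  [Algebra k L] [Algebra K L] [IsScalarTower k K L] [FiniteDimensional K L]
  (A : Subalgebra k K) (hA : Ten.IsGood A)
  (hur : ∀ P₁ : Ideal (intCl A L), IsHeightOne P₁ → ∀ w₁ : DVal k L,
    w₁.HasCenter (intCl A L) P₁ → ∃ b : K, b ≠ 0 ∧ w₁.ord (algebraMap K L b) = 1)

include hA hur

theorem cover {m : ℕ} (y : Fin (m + 1) → K) (hy : IsTranscendenceBasis k y)
    (D : Fin (m + 1) → Derivation k K K) (hD : ∀ i j, D i (y j) = if i = j then 1 else 0)
    (D' : Fin (m + 1) → Derivation k L L)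
    (hD' : ∀ i j, D' i (algebraMap K L (y j)) = if i = j then 1 else 0)
    (hX : MldIneq (intCl A L) D') (δ : Ideal A →₀ ℝ) (hδ : ∀ p, 0 ≤ δ p)
    (x : MaximalSpectrum A) (γ : Kˣ →₀ ℝ) (hγ : IsLocalEq A D δ x.asIdeal γ) (q : Ideal A)
    (hq : q.IsPrime) (hqx : q ≤ x.asIdeal) (d : ℕ) (hd : ringKrullDim (A ⧸ q) ≤ d)
    (v : DVal k K) (hvd : v.IsDivisorial m) (hvq : v.HasCenter A q) (j₀ : ℤ)
    (hj : v.FormOrd D j₀) (v₁ : DVal k L)
    (hv₁ : ∀ a : K, a ≠ 0 → v₁.ord (algebraMap K L a) = v.ord a) :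
    mld A D δ x ≤ ((1 + (j₀ : ℝ) - v.val γ + d : ℝ) : EReal) ∧
      (1 + (j₀ : ℝ) - v.val γ < 0 → mld A D δ x = ⊥) := by
  have hv₁' : ∀ a : K, a ≠ 0 → v₁.ord (algebraMap K L a) = ((1 : ℕ) : ℤ) * v.ord a := by
    intro a ha
    rw [hv₁ a ha, Nat.cast_one, one_mul]
  obtain ⟨q₁, hq₁, hc₁, hctr₁⟩ := exists_center A v₁ (by
    intro a h0
    have ha : (a : K) ≠ 0 := (map_ne_zero (algebraMap K L)).1 h0
    rw [hv₁ _ ha]
    exact hvq.1 a ha)
  have hcq : ctr A q₁ = q := by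
    ext a
    rw [hctr₁, hvq.2]
    constructor
    · intro h2 ha
      have h3 := h2 ((map_ne_zero (algebraMap K L)).2 ha)
      rwa [hv₁ _ ha] at h3
    · intro h2 ha
      have ha' : (a : K) ≠ 0 := (map_ne_zero (algebraMap K L)).1 ha
      rw [hv₁ _ ha']
      exact h2 ha'
  obtain ⟨x₁, hx₁, hqx₁, hcx₁⟩ := goUp A q₁ hq₁ x.asIdeal x.isMaximal (by rw [hcq]; exact hqx)
  obtain ⟨X₁, hX₁⟩ : ∃ X₁ : MaximalSpectrum (intCl A L), X₁.asIdeal = x₁ := ⟨⟨x₁, hx₁⟩, rfl⟩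
  have hd₁ : ringKrullDim (intCl A L ⧸ q₁) ≤ d := by
    refine (dim_le A q₁ hq₁).trans ?_
    rw [hcq]
    exact hd
  obtain ⟨δ₁, γ₁, hδ₁, hval, hloc⟩ := locEq A hA hur y hy D hD D' hD' δ hδ γ
  have hloc₁ : IsLocalEq (intCl A L) D' δ₁ X₁.asIdeal γ₁ := by
    rw [hX₁]
    refine hloc x₁ ?_
    rw [hcx₁]
    exact hγ
  obtain ⟨l, hl⟩ : ∃ l : ℝ, l = 1 + (j₀ : ℝ) - v.val γ := ⟨_, rfl⟩
  have hmem : l ∈ logDiscsP (intCl A L) D' δ₁ q₁ := by
    have h1 := (ram y hy D hD D' hD' v v₁ 1 le_rfl hv₁' hvd).1 j₀ hj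
    have h2 : ((1 : ℕ) : ℤ) * (1 + j₀) - 1 = j₀ := by
      rw [Nat.cast_one]
      ring
    rw [h2] at h1
    refine ⟨v₁, (ram_div v v₁ 1 le_rfl hv₁' m).1 hvd, hc₁, j₀, h1, γ₁, ?_, ?_⟩
    · intro p hp
      exact hloc₁ p (hp.trans (by rw [hX₁]; exact hqx₁))
    · rw [hval v₁ 1 v hv₁', hl, Nat.cast_one, one_mul]
  have hle : mld (intCl A L) D' δ₁ X₁ ≤ mldP (intCl A L) D' δ₁ q₁ + (d : EReal) :=
    hX δ₁ hδ₁ X₁ ⟨γ₁, hloc₁⟩ q₁ hq₁ (by rw [hX₁]; exact hqx₁) d hd₁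
  have hdown : mld A D δ x ≤ mld (intCl A L) D' δ₁ X₁ := by
    have main := Cov_down A hA y hy D hD D' hD' δ x γ hγ δ₁ γ₁ hval X₁
      (by rw [hX₁]; exact hcx₁) hloc₁
    by_cases hneg : ∃ l ∈ logDiscs A D δ x, l < 0
    · have h3 : mld A D δ x = ⊥ := by
        unfold mld
        rw [if_pos hneg]
      rw [h3]
      exact bot_le
    · have hneg₁ : ¬ ∃ l ∈ logDiscs (intCl A L) D' δ₁ X₁, l < 0 := by
        rintro ⟨l₁, hl₁, hl0⟩
        obtain ⟨l', hl', e, he, hee⟩ := main l₁ hl₁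
        refine hneg ⟨l', hl', ?_⟩
        by_contra hcon
        have h2 : 0 ≤ (e : ℝ) * l' := mul_nonneg (Nat.cast_nonneg e) (not_lt.1 hcon)
        linarith
      have h3 : mld A D δ x = ⨅ l ∈ logDiscs A D δ x, (l : EReal) := by
        unfold mld
        rw [if_neg hneg]
      have h4 : mld (intCl A L) D' δ₁ X₁ =
          ⨅ l ∈ logDiscs (intCl A L) D' δ₁ X₁, (l : EReal) := by
        unfold mld
        rw [if_neg hneg₁]
      rw [h3, h4]
      refine le_iInf₂ fun l₁ hl₁ => ?_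
      obtain ⟨l', hl', e, he, hee⟩ := main l₁ hl₁
      refine (iInf₂_le l' hl').trans ?_
      rw [EReal.coe_le_coe_iff, hee]
      have h6 : 0 ≤ l' := by
        by_contra hcon
        exact hneg ⟨l', hl', not_le.1 hcon⟩
      exact le_mul_of_one_le_left h6 (by exact_mod_cast he)
  constructor
  · rw [← hl]
    refine hdown.trans (hle.trans ?_)
    rw [EReal.coe_add, EReal.coe_natCast]
    refine add_le_add ?_ le_rfl
    unfold mldP
    split_ifs with h1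
    · exact bot_le
    · exact iInf₂_le l hmem
  · intro h0
    rw [← hl] at h0
    have h1 : mldP (intCl A L) D' δ₁ q₁ = ⊥ := by
      unfold mldP
      rw [if_pos ⟨l, hmem, h0⟩]
    rw [h1, EReal.bot_add] at hle
    exact le_bot_iff.1 (hdown.trans hle)

end Pool.Agent.MLD.Cox
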