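import Pool.Agent.Lib.MP_f23696_ag.T.Val

/-!
Project COX-F, module ExtV: extension of a discrete valuation to a finite extension.

Proof.  Let `O = ring v` (T/Val.lean), a discrete valuation ring with fraction field `K` (local,
with principal maximal ideal generated by an element of order `1`, every nonzero element is a unit
times a power of it).  There is a valuation ring of `L` which dominates `O` (Chevalley;
`LocalSubring.exists_le_valuationSubring` or `ValuationSubring` existence results in Mathlib), with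
valuation `ν : L → Γ₀`; its restriction to `K` has valuation ring `O` (a valuation ring of `K`
dominating the valuation ring `O` is `O`), so `ν a` for `a ∈ K` depends only on `v.ord a`,
monotonically.  For `b ∈ L`, `b ≠ 0`, algebraic over `K` of degree `≤ N = [L : K]`: in the equation
`∑ c_i b^i = 0` two nonzero terms have the same value, so `b^s` and an element of `K` have the same
value for some `1 ≤ s ≤ N`; so `ν (b^(N!)) = ν (a)` for some `a ∈ K`; put `f(b) = v.ord a` (well
defined, additive; `f(b) ≤ f(b')` iff `ν b' ≤ ν b`).  `f : Lˣ → ℤ` is a nonzero homomorphism with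
`f(b + b') ≥ min (f b) (f b')`; its image is `q ℤ`; `w.ord b = f(b) / q`.  For `a ∈ K`:
`f(a) = N! v.ord a`, so `w.ord a = (N!/q) v.ord a` (`q ∣ N!` as `f` of an element of order `1` is
`N!`), `e = N!/q ≥ 1`.  `ord_algebraMap`: elements of `k` have `v.ord = 0`.

Alternative: the integral closure `C` of `O` in `L` is a Dedekind domain with fraction field `L`
(`integralClosure.isDedekindDomain`, separable as the characteristic is zero); a maximal ideal `P`
of `C` over the maximal ideal of `O` gives the `P`-adic valuation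
(`IsDedekindDomain.HeightOneSpectrum.valuation`), a discrete valuation, and its restriction to `K`
is
a multiple of `v` since elements of order `0` of `v` are units of `O`.
-/

set_option autoImplicit false

namespace Pool.Agent.MLD.Cox

universe u v

private theorem ExtV_dvr {k : Type u} {K : Type v} [Field k] [Field K] [Algebra k K]
    (v : DVal k K) : IsDiscreteValuationRing (Ten.ring v) := by
  obtain ⟨π, hπ0, hπ⟩ := v.exists_ord_eq_one
  have hπm : π ∈ Ten.ring v := fun _ => by
    rw [hπ]
    exact zero_le_one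
  have hunit : ∀ x : Ten.ring v, (x : K) ≠ 0 → v.ord (x : K) = 0 → IsUnit x := by
    intro x hx0 hx
    have hinv : (x : K)⁻¹ ∈ Ten.ring v := fun _ => by rw [Jac.ord_inv v _ hx0, hx, neg_zero]
    have h1 : x * (⟨(x : K)⁻¹, hinv⟩ : Ten.ring v) = 1 := Subtype.ext (mul_inv_cancel₀ hx0)
    exact IsUnit.of_mul_eq_one _ h1
  have hunit' : ∀ x : Ten.ring v, IsUnit x → v.ord (x : K) = 0 := by
    intro x hx
    obtain ⟨y, hy⟩ := hx.exists_right_inv
    have h1 : (x : K) * (y : K) = 1 := congrArg Subtype.val hy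
    have hx0 : (x : K) ≠ 0 := left_ne_zero_of_mul_eq_one h1
    have hy0 : (y : K) ≠ 0 := right_ne_zero_of_mul_eq_one h1
    have h2 := v.ord_mul _ _ hx0 hy0
    rw [h1, Jac.ord_one] at h2
    have h3 := x.2 hx0
    have h4 := y.2 hy0
    omega
  refine IsDiscreteValuationRing.ofHasUnitMulPowIrreducibleFactorization ⟨⟨π, hπm⟩, ?_, ?_⟩
  · refine ⟨fun h => ?_, fun a b hab => ?_⟩
    · have h1 := hunit' _ h
      rw [hπ] at h1
      exact one_ne_zero h1
    · have h1 : π = (a : K) * (b : K) := congrArg Subtype.val hab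
      have ha0 : (a : K) ≠ 0 := fun h => hπ0 (by rw [h1, h, zero_mul])
      have hb0 : (b : K) ≠ 0 := fun h => hπ0 (by rw [h1, h, mul_zero])
      have h2 := v.ord_mul _ _ ha0 hb0
      rw [← h1, hπ] at h2
      have h3 := a.2 ha0
      have h4 := b.2 hb0
      rcases (show v.ord (a : K) = 0 ∨ v.ord (b : K) = 0 by omega) with h5 | h5
      · exact Or.inl (hunit a ha0 h5)
      · exact Or.inr (hunit b hb0 h5)
  · intro x hx
    have hx0 : (x : K) ≠ 0 := fun h => hx (Subtype.ext h)
    have h1 := x.2 hx0
    obtain ⟨n, hn⟩ : ∃ n : ℕ, (n : ℤ) = v.ord (x : K) := ⟨(v.ord (x : K)).toNat,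
      Int.toNat_of_nonneg h1⟩
    have hπn : π ^ n ≠ 0 := pow_ne_zero n hπ0
    have hu : v.ord ((x : K) / π ^ n) = 0 := by
      rw [Ten.ord_div v _ _ hx0 hπn, Jac.ord_pow v π hπ0, hπ, ← hn]
      ring
    have hum : (x : K) / π ^ n ∈ Ten.ring v := fun _ => by rw [hu]
    obtain ⟨u, hu'⟩ := hunit ⟨_, hum⟩ (div_ne_zero hx0 hπn) hu
    refine ⟨n, u, ?_⟩
    rw [hu']
    refine Subtype.ext ?_
    show π ^ n * ((x : K) / π ^ n) = (x : K)
    rw [mul_div_cancel₀ _ hπn]

private theorem ExtV_frac {k : Type u} {K : Type v} [Field k] [Field K] [Algebra k K]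
    (v : DVal k K) : IsFractionRing (Ten.ring v) K := by
  refine IsFractionRing.of_field _ K fun z => ?_
  by_cases hz : z = 0
  · exact ⟨0, 1, by rw [hz, map_zero, zero_div]⟩
  · rcases le_total 0 (v.ord z) with h | h
    · exact ⟨⟨z, fun _ => h⟩, 1, by rw [map_one, div_one]; rfl⟩
    · refine ⟨1, ⟨z⁻¹, fun _ => by rw [Jac.ord_inv v z hz]; omega⟩, ?_⟩
      rw [map_one, one_div]
      exact (inv_inv z).symm

theorem extV {k : Type u} {K L : Type v} [Field k] [CharZero k] [Field K] [Field L]
    [Algebra k K] [Algebra k L] [Algebra K L] [IsScalarTower k K L] [FiniteDimensional K L]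
    (v : DVal k K) : ∃ (w : DVal k L) (e : ℕ), 1 ≤ e ∧
      ∀ a : K, a ≠ 0 → w.ord (algebraMap K L a) = e * v.ord a := by
  classical
  have hcz : CharZero K := charZero_of_injective_algebraMap (algebraMap k K).injective
  have hdvr := ExtV_dvr v
  have hded : IsDedekindDomain (Ten.ring v) := IsPrincipalIdealRing.isDedekindDomain _
  have hfr : IsFractionRing (Ten.ring v) K := ExtV_frac v
  have hst : IsScalarTower (Ten.ring v) K L := IsScalarTower.of_algebraMap_eq fun _ => rfl
  have hsep : Algebra.IsSeparable K L := inferInstance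
  obtain ⟨C, hC⟩ : ∃ C, C = integralClosure (Ten.ring v) L := ⟨_, rfl⟩
  have hCd : IsDedekindDomain C := by
    rw [hC]
    exact integralClosure.isDedekindDomain (Ten.ring v) K L
  have hCf : IsFractionRing C L := by
    rw [hC]
    exact integralClosure.isFractionRing_of_finite_extension K L
  have hCi : Algebra.IsIntegral (Ten.ring v) C := by
    rw [hC]
    infer_instance
  have hmapC : ∀ (a : K) (ha : a ∈ Ten.ring v),
      algebraMap K L a = algebraMap C L (algebraMap (Ten.ring v) C ⟨a, ha⟩) := fun a ha => rfl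
  obtain ⟨π, hπ0, hπ⟩ := v.exists_ord_eq_one
  have hπm : π ∈ Ten.ring v := fun _ => by
    rw [hπ]
    exact zero_le_one
  have hinj : Function.Injective (algebraMap (Ten.ring v) C) := by
    intro a b hab
    have h1 : algebraMap K L (a : K) = algebraMap K L (b : K) := congrArg Subtype.val hab
    exact Subtype.ext ((algebraMap K L).injective h1)
  obtain ⟨Q, hQm, hQ⟩ := Ideal.exists_ideal_over_maximal_of_isIntegral (S := C) (Ten.maxI v) (by
    rw [(RingHom.injective_iff_ker_eq_bot _).1 hinj]
    exact bot_le)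
  have hπQ : algebraMap (Ten.ring v) C ⟨π, hπm⟩ ∈ Q := by
    rw [← Ideal.mem_comap, hQ]
    intro _
    show 0 < v.ord π
    rw [hπ]
    exact zero_lt_one
  have hQ0 : Q ≠ ⊥ := by
    intro h
    rw [h, Ideal.mem_bot, ← map_zero (algebraMap (Ten.ring v) C)] at hπQ
    exact hπ0 (congrArg Subtype.val (hinj hπQ))
  obtain ⟨P, hP⟩ : ∃ P : IsDedekindDomain.HeightOneSpectrum C, P.asIdeal = Q :=
    ⟨⟨Q, hQm.isPrime, hQ0⟩, rfl⟩
  obtain ⟨w, hwdef⟩ : ∃ w : Valuation L (WithZero (Multiplicative ℤ)), w = P.valuation L :=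
    ⟨_, rfl⟩
  have hw : ∀ f : L, f ≠ 0 → w f ≠ 0 := fun f hf => (Valuation.ne_zero_iff w).2 hf
  have hw1 : ∀ a : K, a ∈ Ten.ring v → w (algebraMap K L a) ≤ 1 := by
    intro a ha
    rw [hmapC a ha, hwdef]
    exact P.valuation_le_one (K := L) (algebraMap (Ten.ring v) C ⟨a, ha⟩)
  have hw0 : ∀ a : K, a ≠ 0 → v.ord a = 0 → w (algebraMap K L a) = 1 := by
    intro a ha h0
    have h1 := hw1 a fun _ => by rw [h0]
    have h2 := hw1 a⁻¹ fun _ => by rw [Jac.ord_inv v a ha, h0, neg_zero]
    have h3 : w (algebraMap K L a) * w (algebraMap K L a⁻¹) = 1 := by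
      rw [← map_mul, ← map_mul, mul_inv_cancel₀ ha, map_one, map_one]
    refine le_antisymm h1 ?_
    calc (1 : WithZero (Multiplicative ℤ)) = w (algebraMap K L a) * w (algebraMap K L a⁻¹) :=
          h3.symm
      _ ≤ w (algebraMap K L a) * 1 := mul_le_mul_right h2 _
      _ = w (algebraMap K L a) := mul_one _
  have hwπ : w (algebraMap K L π) < 1 := by
    rw [hmapC π hπm, hwdef]
    refine (P.valuation_lt_one_iff_mem (K := L) (algebraMap (Ten.ring v) C ⟨π, hπm⟩)).2 ?_
    rw [hP]
    exact hπQ
  obtain ⟨ϖ, hϖ⟩ := P.valuation_exists_uniformizer L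
  rw [← hwdef] at hϖ
  let W : DVal k L :=
    { ord := fun f => -(WithZero.log (w f))
      ord_mul := by
        intro a b ha hb
        simp only [map_mul]
        rw [WithZero.log_mul (hw a ha) (hw b hb)]
        ring
      ord_add := by
        intro a b ha hb hab
        rcases le_total (w a) (w b) with h | h
        · have h3 : w (a + b) ≤ w b := (w.map_add a b).trans (max_le h le_rfl)
          have := (WithZero.log_le_log (hw _ hab) (hw b hb)).2 h3
          exact (min_le_right _ _).trans (neg_le_neg this)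
        · have h3 : w (a + b) ≤ w a := (w.map_add a b).trans (max_le le_rfl h)
          have := (WithZero.log_le_log (hw _ hab) (hw a ha)).2 h3
          exact (min_le_left _ _).trans (neg_le_neg this)
      ord_algebraMap := by
        intro c hc
        have hc' : algebraMap k K c ≠ 0 := (map_ne_zero_iff _ (algebraMap k K).injective).2 hc
        have h1 := hw0 _ hc' (v.ord_algebraMap c hc)
        rw [← IsScalarTower.algebraMap_apply] at h1
        rw [h1, WithZero.log_one, neg_zero]
      exists_ord_eq_one := by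
        refine ⟨ϖ, ?_, ?_⟩
        · rintro rfl
          rw [map_zero] at hϖ
          exact WithZero.exp_ne_zero hϖ.symm
        · simp only [hϖ, WithZero.log_exp, neg_neg] }
  have hπL : algebraMap K L π ≠ 0 := (map_ne_zero_iff _ (algebraMap K L).injective).2 hπ0
  have hWπ : 0 < W.ord (algebraMap K L π) := by
    show 0 < -(WithZero.log (w (algebraMap K L π)))
    have h1 := (WithZero.log_lt_log (hw _ hπL) one_ne_zero).2 hwπ
    rw [WithZero.log_one] at h1
    omega
  refine ⟨W, (W.ord (algebraMap K L π)).toNat, by omega, fun a ha => ?_⟩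
  obtain ⟨n, hn⟩ : ∃ n, n = v.ord a := ⟨_, rfl⟩
  have hπn : π ^ n ≠ 0 := zpow_ne_zero n hπ0
  have hu0 : a / π ^ n ≠ 0 := div_ne_zero ha hπn
  have hu : v.ord (a / π ^ n) = 0 := by
    rw [Ten.ord_div v _ _ ha hπn, Jac.ord_zpow v π hπ0, hπ, ← hn]
    ring
  have hW : W.ord (algebraMap K L (a / π ^ n)) = 0 := by
    show -(WithZero.log (w (algebraMap K L (a / π ^ n)))) = 0
    rw [hw0 _ hu0 hu, WithZero.log_one, neg_zero]
  have h1 : algebraMap K L a = algebraMap K L (a / π ^ n) * algebraMap K L π ^ n := by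
    rw [← map_zpow₀, ← map_mul, div_mul_cancel₀ _ hπn]
  rw [h1, W.ord_mul _ _ ((map_ne_zero_iff _ (algebraMap K L).injective).2 hu0)
    (zpow_ne_zero n hπL), hW, Jac.ord_zpow W _ hπL, ← hn, Int.toNat_of_nonneg hWπ.le]
  ring

end Pool.Agent.MLD.Cox
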