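import Pool.Agent.Lib.MP_f23696_ag.Z.InA
import Pool.Agent.Lib.MP_f23696_ag.Z.Appr

/-!
Project COX-F, module InB: the fixed field of a generator of the inertia group is unramified.

Proof.  `G = L ≃ₐ[K] L` is finite, `D = decG K w`, `I = inG K w ≤ D`, `n = |I|`; `inert_cyc` gives
`g` and `a₀` with `w.ord a₀ = n`, fixed by `I`.  It is enough to find `a ∈ K`, `a ≠ 0`, with
`w.ord a = n`: then `n = e * v.ord a`, so `e ∣ n ∣ w.ord b` for every `b ≠ 0` with `g b = b`.
(1) For `σ ∈ D` let `σ̄` be the induced automorphism of `Res w`, `c_σ ∈ Res w` the residue of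
`σ a₀ / a₀` (nonzero).  For `τ ∈ I`: `σ τ` and `σ` induce the same automorphism, `c_(στ) = c_σ`.
For `u` integral: `T(u) = ∑_(σ ∈ D) σ (u a₀)`; the residue of `T(u) / a₀` is
`∑_(σ ∈ D) σ̄(ū) c_σ = n * ∑_(σ ∈ D / I) σ̄(ū) c_σ` (sum over representatives).  For `σ, σ'` in
different classes `σ̄ ≠ σ̄'` (if `σ̄ = σ̄'` then `σ⁻¹ σ' ∈ I`); distinct multiplicative maps to a
field are linearly independent (Dedekind, `linearIndependent_monoidHom`), so the sum is not zero
for some `ū`; `n ≠ 0` in `Res w` (characteristic zero).  So `a₁ = T(u)` has `w.ord a₁ = n` and is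
fixed by `D`.  (One may also avoid representatives: group the sum over `σ ∈ D` by the value of `σ̄`:
for each automorphism `θ` of `Res w` in the image the coefficient is
`∑_(σ̄ = θ) c_σ = n c_σ` for any such `σ`.)
(2) For `σ ∈ G` let `w^σ b = w.ord (σ b)`, a valuation `DVal k L`; for `σ ∉ D` it differs from `w`.
`appr` with `w₀ = w`, the family of the `w^σ`, `σ ∉ D`, `b = a₁`: `c` with
`w.ord (c - a₁) > n`, `w.ord (σ c) > n` for all `σ ∉ D`.  Put `c' = |D|⁻¹ ∑_(τ ∈ D) τ c`, fixed by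
`D`: `c' - a₁ = |D|⁻¹ ∑ τ (c - a₁)` is zero or has order `> n`, so `w.ord c' = n`; for `σ ∉ D`,
`σ c' = |D|⁻¹ ∑_(τ ∈ D) (σ τ) c` is zero or has order `> n` (`σ τ ∉ D`).
(3) `T = ∑_(σ ∈ G) σ c' = |D| c' + ∑_(σ ∉ D) σ c'`, fixed by `G`, so in `K` (`IsGalois`), and
`w.ord T = n`, as `|D| ≠ 0` in `k`.
-/

set_option autoImplicit false

namespace Pool.Agent.MLD.Cox

universe u v

open Pool.Agent.MLD.Jac Pool.Agent.MLD.Ten

private theorem InB_one {k : Type u} {K L : Type v} [Field k] [CharZero k] [Field K] [Field L]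
    [Algebra k K] [Algebra k L] [Algebra K L] [FiniteDimensional K L]
    (w : DVal k L) (a₀ : L) (ha₀ : a₀ ≠ 0) (hinv : ∀ σ ∈ inG K w, σ a₀ = a₀) :
    ∃ a : L, a ≠ 0 ∧ w.ord a = w.ord a₀ ∧ ∀ σ ∈ decG K w, σ a = a := by
  classical
  have hfin : Fintype (decG K w) := Fintype.ofFinite _
  have hint : ∀ (σ : decG K w) (u : ring w), w.Integral ((σ : L ≃ₐ[K] L) (u : L)) := by
    intro σ u h0
    have h1 : w.ord ((σ : L ≃ₐ[K] L) (u : L)) = w.ord (u : L) := σ.2 _
    rw [h1]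
    refine u.2 fun h2 => h0 ?_
    rw [h2, map_zero]
  have hne : ∀ σ : decG K w, (σ : L ≃ₐ[K] L) a₀ ≠ 0 := fun σ h =>
    ha₀ ((map_eq_zero_iff _ (σ : L ≃ₐ[K] L).injective).1 h)
  have hc0 : ∀ σ : decG K w, w.Integral ((σ : L ≃ₐ[K] L) a₀ / a₀) := by
    intro σ _
    have h1 : w.ord ((σ : L ≃ₐ[K] L) a₀) = w.ord a₀ := σ.2 _
    rw [ord_div w _ _ (hne σ) ha₀, h1, sub_self]
  let φ : decG K w → (ring w →* Res w) := fun σ =>
    { toFun := fun u => res w ⟨(σ : L ≃ₐ[K] L) (u : L), hint σ u⟩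
      map_one' := by
        rw [← map_one (res w)]
        congr 1
        exact Subtype.ext (map_one _)
      map_mul' := by
        intro x y
        rw [← map_mul]
        congr 1
        exact Subtype.ext (map_mul _ _ _) }
  have hφ : ∀ (σ : decG K w) (u : ring w),
      φ σ u = res w ⟨(σ : L ≃ₐ[K] L) (u : L), hint σ u⟩ := fun σ u => rfl
  let c : decG K w → Res w := fun σ => res w ⟨(σ : L ≃ₐ[K] L) a₀ / a₀, hc0 σ⟩
  have hc : ∀ σ : decG K w, c σ = res w ⟨(σ : L ≃ₐ[K] L) a₀ / a₀, hc0 σ⟩ := fun σ => rfl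
  have hchar : CharZero (Res w) :=
    charZero_of_injective_algebraMap (algebraMap k (Res w)).injective
  -- a good `u`
  obtain ⟨u, hu⟩ : ∃ u : ring w, ∑ σ, c σ * φ σ u ≠ 0 := by
    by_contra hcon
    push Not at hcon
    have hli := linearIndependent_iff'.1 (linearIndependent_monoidHom (ring w) (Res w))
      (Finset.univ.image φ)
      (fun θ => ∑ σ ∈ Finset.univ.filter (fun σ => φ σ = θ), c σ) (by
        funext u
        rw [Finset.sum_apply, Pi.zero_apply, ← hcon u,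
          ← Finset.sum_fiberwise_of_maps_to (s := Finset.univ) (t := Finset.univ.image φ)
            (g := φ) (fun σ _ => Finset.mem_image_of_mem _ (Finset.mem_univ _))
            (fun σ => c σ * φ σ u)]
        refine Finset.sum_congr rfl fun θ _ => ?_
        rw [Pi.smul_apply, smul_eq_mul, Finset.sum_mul]
        refine Finset.sum_congr rfl fun σ hσ => ?_
        rw [(Finset.mem_filter.1 hσ).2])
      (φ 1) (Finset.mem_image_of_mem _ (Finset.mem_univ _))
    have h1 : ∑ σ ∈ Finset.univ.filter (fun σ => φ σ = φ 1), c σ =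
        ((Finset.univ.filter (fun σ => φ σ = φ 1)).card : Res w) := by
      rw [Finset.cast_card]
      refine Finset.sum_congr rfl fun σ hσ => ?_
      have h2 := (Finset.mem_filter.1 hσ).2
      have h3 : (σ : L ≃ₐ[K] L) ∈ inG K w := by
        refine ⟨σ.2, fun b hb => ?_⟩
        have h4 := DFunLike.congr_fun h2 (⟨b, hb⟩ : ring w)
        rw [hφ, hφ, ← sub_eq_zero, ← map_sub, res_eq_zero] at h4
        exact h4
      have h5 := hinv _ h3
      rw [hc, ← map_one (res w)]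
      congr 1
      refine Subtype.ext ?_
      show (σ : L ≃ₐ[K] L) a₀ / a₀ = 1
      rw [h5, div_self ha₀]
    rw [h1] at hli
    have h2 : (Finset.univ.filter (fun σ => φ σ = φ 1)).card = 0 := by exact_mod_cast hli
    rw [Finset.card_eq_zero] at h2
    have h3 : (1 : decG K w) ∈ Finset.univ.filter (fun σ => φ σ = φ 1) :=
      Finset.mem_filter.2 ⟨Finset.mem_univ _, rfl⟩
    rw [h2] at h3
    exact absurd h3 (Finset.notMem_empty _)
  let x : ring w := ∑ σ : decG K w,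
    (⟨(σ : L ≃ₐ[K] L) a₀ / a₀, hc0 σ⟩ : ring w) * ⟨(σ : L ≃ₐ[K] L) (u : L), hint σ u⟩
  have hx : res w x = ∑ σ, c σ * φ σ u := by
    show res w (∑ σ : decG K w, _) = _
    rw [map_sum]
    refine Finset.sum_congr rfl fun σ _ => ?_
    rw [map_mul, hc, hφ]
  have hxs : ¬ w.Small (x : L) := by
    rw [← res_eq_zero, hx]
    exact hu
  obtain ⟨hx0, hxo⟩ := ord_eq_zero_of w x.2 hxs
  have hxT : (x : L) * a₀ = ∑ σ : decG K w, (σ : L ≃ₐ[K] L) ((u : L) * a₀) := by
    have h1 : (x : L) = ∑ σ : decG K w,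
        ((σ : L ≃ₐ[K] L) a₀ / a₀) * (σ : L ≃ₐ[K] L) (u : L) := by
      show ((∑ σ : decG K w, (⟨(σ : L ≃ₐ[K] L) a₀ / a₀, hc0 σ⟩ : ring w) *
        ⟨(σ : L ≃ₐ[K] L) (u : L), hint σ u⟩ : ring w) : L) = _
      rw [AddSubmonoidClass.coe_finsetSum]
      rfl
    rw [h1, Finset.sum_mul]
    refine Finset.sum_congr rfl fun σ _ => ?_
    rw [map_mul]
    field_simp
  refine ⟨(x : L) * a₀, mul_ne_zero hx0 ha₀, ?_, ?_⟩
  · rw [w.ord_mul _ _ hx0 ha₀, hxo, zero_add]
  · intro τ hτ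
    rw [hxT, map_sum]
    exact Fintype.sum_equiv (Equiv.mulLeft (⟨τ, hτ⟩ : decG K w)) _ _ fun σ => rfl

private def InB_conj {k : Type u} {K L : Type v} [Field k] [Field K] [Field L] [Algebra k K]
    [Algebra k L] [Algebra K L] [IsScalarTower k K L] (w : DVal k L) (σ : L ≃ₐ[K] L) :
    DVal k L where
  ord b := w.ord (σ b)
  ord_mul := by
    intro a b ha hb
    rw [map_mul, w.ord_mul]
    · exact fun h => ha ((map_eq_zero_iff _ σ.injective).1 h)
    · exact fun h => hb ((map_eq_zero_iff _ σ.injective).1 h)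
  ord_add := by
    intro a b ha hb hab
    rw [map_add]
    refine w.ord_add _ _ (fun h => ha ((map_eq_zero_iff _ σ.injective).1 h))
      (fun h => hb ((map_eq_zero_iff _ σ.injective).1 h)) (fun h => hab ?_)
    rw [← map_add] at h
    exact (map_eq_zero_iff _ σ.injective).1 h
  ord_algebraMap := by
    intro c hc
    rw [IsScalarTower.algebraMap_apply k K L, AlgEquiv.commutes,
      ← IsScalarTower.algebraMap_apply k K L]
    exact w.ord_algebraMap c hc
  exists_ord_eq_one := by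
    obtain ⟨a, ha, h⟩ := w.exists_ord_eq_one
    refine ⟨σ.symm a, fun h0 => ha ?_, ?_⟩
    · exact (map_eq_zero_iff _ σ.symm.injective).1 h0
    · rw [AlgEquiv.apply_symm_apply]
      exact h

private theorem InB_two {k : Type u} {K L : Type v} [Field k] [CharZero k] [Field K] [Field L]
    [Algebra k K] [Algebra k L] [Algebra K L] [IsScalarTower k K L] [FiniteDimensional K L]
    [IsGalois K L] (w : DVal k L) (a₁ : L) (ha₁ : a₁ ≠ 0)
    (hinv : ∀ σ ∈ decG K w, σ a₁ = a₁) :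
    ∃ a : K, a ≠ 0 ∧ w.ord (algebraMap K L a) = w.ord a₁ := by
  classical
  obtain ⟨c, hc0, hc1, hc2, hc3⟩ := appr w
    (fun σ : {σ : L ≃ₐ[K] L // σ ∉ decG K w} => InB_conj w σ.1) (by
      intro σ
      by_contra hcon
      push Not at hcon
      apply σ.2
      intro b
      by_cases hb : b = 0
      · rw [hb, map_zero]
      · exact (hcon b hb).symm) a₁ ha₁ (w.ord a₁)
  have hT := trace_eq_sum_automorphisms (K := K) (L := L) c
  obtain ⟨s, hs⟩ : ∃ s : Finset (L ≃ₐ[K] L), s = Finset.univ.filter (· ∈ decG K w) := ⟨_, rfl⟩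
  have hs1 : (1 : L ≃ₐ[K] L) ∈ s := by
    rw [hs]
    exact Finset.mem_filter.2 ⟨Finset.mem_univ _, (decG K w).one_mem⟩
  have hsD : ∀ σ ∈ s, σ ∈ decG K w := fun σ h => by
    rw [hs] at h
    exact (Finset.mem_filter.1 h).2
  have h1 : ∑ σ : L ≃ₐ[K] L, σ c = (s.card : L) * a₁ +
      (∑ σ ∈ s, σ (c - a₁) + ∑ σ ∈ Finset.univ.filter (fun σ => σ ∉ decG K w), σ c) := by
    rw [← Finset.sum_filter_add_sum_filter_not Finset.univ (· ∈ decG K w), ← hs, ← add_assoc]
    congr 1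
    rw [← nsmul_eq_mul, ← Finset.sum_const, ← Finset.sum_add_distrib]
    refine Finset.sum_congr rfl fun σ hσ => ?_
    rw [map_sub, hinv σ (hsD σ hσ)]
    ring
  have hcard : (s.card : k) ≠ 0 := by
    rw [Nat.cast_ne_zero]
    exact Finset.card_ne_zero_of_mem hs1
  have hcL : ((s.card : ℕ) : L) = algebraMap k L (s.card : k) := by
    rw [map_natCast]
  have hcL0 : ((s.card : ℕ) : L) ≠ 0 := by
    rw [hcL]
    exact fun h => hcard ((map_eq_zero _).1 h)
  have h2 : w.ord ((s.card : L) * a₁) = w.ord a₁ := by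
    rw [w.ord_mul _ _ hcL0 ha₁, hcL, w.ord_algebraMap _ hcard, zero_add]
  have h3 : LB w (w.ord ((s.card : L) * a₁) + 1)
      (∑ σ ∈ s, σ (c - a₁) + ∑ σ ∈ Finset.univ.filter (fun σ => σ ∉ decG K w), σ c) := by
    rw [h2]
    refine LB.add (LB.sum _ _ ?_) (LB.sum _ _ ?_)
    · intro σ hσ _
      have h4 : w.ord (σ (c - a₁)) = w.ord (c - a₁) := hsD σ hσ _
      rw [h4]
      omega
    · intro σ hσ _
      have h4 : w.ord a₁ < w.ord (σ c) := hc3 ⟨σ, (Finset.mem_filter.1 hσ).2⟩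
      omega
  obtain ⟨h4, h5⟩ := ord_add_eq w (mul_ne_zero hcL0 ha₁) h3
  rw [← h1, ← hT] at h4 h5
  refine ⟨Algebra.trace K L c, fun h6 => h4 ?_, ?_⟩
  · rw [h6, map_zero]
  · rw [h5, h2]

theorem inert {k : Type u} {K L : Type v} [Field k] [CharZero k] [Field K] [Field L]
    [Algebra k K] [Algebra k L] [Algebra K L] [IsScalarTower k K L] [FiniteDimensional K L]
    [IsGalois K L] (w : DVal k L) (e : ℕ) (he : 1 ≤ e) (v : DVal k K)
    (hv : ∀ a : K, a ≠ 0 → w.ord (algebraMap K L a) = e * v.ord a) :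
    ∃ g : L ≃ₐ[K] L, ∀ b : L, b ≠ 0 → g b = b → (e : ℤ) ∣ w.ord b := by
  obtain ⟨g, -, hfix, a₀, ha₀, hord, hinv⟩ := inert_cyc (K := K) w
  obtain ⟨a₁, ha₁, hord₁, hinv₁⟩ := InB_one (K := K) w a₀ ha₀ hinv
  obtain ⟨a, ha, horda⟩ := InB_two (K := K) w a₁ ha₁ hinv₁
  refine ⟨g, fun b hb hgb => dvd_trans ?_ (hfix b hb hgb)⟩
  exact ⟨v.ord a, by rw [← hv a ha, horda, hord₁, hord]⟩

end Pool.Agent.MLD.Cox
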