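import Pool.Agent.Lib.MP_f23696_ag.Z.Cov
import Pool.Agent.Lib.MP_f23696_ag.Z.InB
import Pool.Agent.Lib.MP_f23696_ag.Z.ExtV
import Pool.Agent.Lib.MP_f23696_ag.Y.CoxMain

/-!
Project COX-F, module Gal: the inequality for quotients by finite groups.

Notation: `M g = IntermediateField.fixedField (Subgroup.zpowers g)`, a field between `K` and `L`.

`hurM`: let `P₁` be of height one in `intCl A (M g)` and `w₁` a valuation of `M g` with centre `P₁`.
`extV` (`L` is finite over `M g`): `w` on `L`, `e ≥ 1`, `w a = e w₁ a` for `a ∈ M g`.  `w` is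
integral
on `A`; `exists_center` for `intCl A M` and `L`: the centre of `w` on
`intCl (intCl A M) L = intCl A L` (`intCl_trans`) is a prime `P` whose contraction to `intCl A M` is
`P₁`, so `P` is of height one (`of_ctr` for `intCl A M`), and `hur` gives `b ∈ K` with `w b = 1`, so
`e w₁ b = 1`, `w₁ b = 1`.  (Transport along the equality of subalgebras: generalize, `subst`, or
restate for `P` as an ideal of `intCl A L` given by membership.)

`galIneq`: let `δ`, `x`, `γ`, `q`, `d` be as in `MldIneq A D`, and `l ∈ logDiscsP A D δ q`,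
`l = 1 + j₀ - v.val γ'`, `γ'` a local equation at `q`; `v.val γ' = v.val γ` (`indep_gen`,
T/Ind.lean).
`extV`: `w` on `L`, `e ≥ 1`, `w a = e v a` on `K`.  `inert`: `g` with `e ∣ w b` for all `b ≠ 0`
fixed
by `g`, i.e. for all nonzero `b ∈ M g`; so `v₁ b = w b / e` is a discrete valuation of `M g` with
`v₁ a = v a` on `K` (`exists_ord_eq_one` from `K`).  `ram_der` gives `D'` on `M g`; `hX g D'` and
`cover` (with `L := M g`, `hurM`): `mld A D δ x ≤ l + d`, and `mld A D δ x = ⊥` if `l < 0`.  If some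
`l ∈ logDiscsP` is negative, `mld = ⊥`.  Otherwise `mldP = ⨅ l` and `mld - d ≤ l` for all `l`, so
`mld ≤ mldP + d` (see the proof of `fin`, Y/Fin.lean).

`galMain`: `MldIneq (intCl A (M g)) D'` for every `D'` dual to `algebraMap ∘ y`: from `coxMain` with
the data of `HasCIRing` (`intCl_good` gives finite generation, the fraction field and normality;
`ram_der` the transcendence basis): for `d` with `ringKrullDim ≤ d` and the dimension `d'` of
`coxMain`: `d' ≤ d`.  Then `galIneq`, and the existence of the dimension `d` of `A ⧸ q` as in the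
proof of `coxMain`.
-/

set_option autoImplicit false

namespace Pool.Agent.MLD.Cox

open MvPolynomial

universe u v

/-- `Spec A` has Weil divisors `E_1, …, E_h` such that the ring of sections
`⊕_(β ∈ ℤ^h) H^0(Spec A, O(∑ β_l E_l)) s^β` is a complete intersection of dimension `n + h`: it is
generated by homogeneous elements `ξ_i s^(χ_i)`, `i < N`, `ξ_i ≠ 0`, and the ideal of the relations
between them is generated by `c` homogeneous polynomials, `N = n + h + c`. -/
def HasCIRing {k : Type u} {K : Type v} [Field k] [Field K] [Algebra k K] (A : Subalgebra k K)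
    (n : ℕ) : Prop :=
  ∃ (h N c : ℕ) (E : Fin h → Ideal A →₀ ℤ) (ξ : Fin N → K) (χ : Fin N → Fin h → ℤ)
    (f : Fin c → MvPolynomial (Fin N) k), N = n + h + c ∧ (∀ i, ξ i ≠ 0) ∧
    (∀ j, ∃ ψ : Fin h → ℤ, IsWeightedHomogeneous χ (f j) ψ) ∧
    (∀ (β : Fin h → ℤ) (b : K), IsSec A E β b ↔
      ∃ P : MvPolynomial (Fin N) k, IsWeightedHomogeneous χ P β ∧ b = aeval ξ P) ∧
    ∀ (β : Fin h → ℤ) (P : MvPolynomial (Fin N) k), IsWeightedHomogeneous χ P β →
      (aeval ξ P = 0 ↔ P ∈ Ideal.span (Set.range f))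

private theorem Gal_fr {k : Type u} {K : Type v} [Field k] [Field K] [Algebra k K]
    (A : Subalgebra k K) (hA : Ten.IsGood A) : IsFractionRing A K :=
  IsFractionRing.of_field A K fun z => by
    obtain ⟨a, b, _, h⟩ := hA.frac z
    exact ⟨a, b, h⟩

private theorem Gal_cl {k : Type u} {K : Type v} [Field k] [Field K] [Algebra k K]
    (A : Subalgebra k K) (hA : Ten.IsGood A) : IsIntegrallyClosed A := by
  have := Gal_fr A hA
  rw [isIntegrallyClosed_iff K]
  intro x hx
  exact ⟨⟨x, hA.norm x hx⟩, rfl⟩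

private theorem Gal_dim {k : Type u} {K : Type v} [Field k] [Field K] [Algebra k K]
    (A : Subalgebra k K) (hfg : A.FG) (q : Ideal A) (hq : q.IsPrime) :
    ∃ d : ℕ, ringKrullDim (A ⧸ q) = d := by
  have h0 : Algebra.FiniteType k A := (Subalgebra.fg_iff_finiteType A).1 hfg
  obtain ⟨n, f, hf⟩ := Algebra.FiniteType.iff_quotient_mvPolynomial''.1 h0
  have h1 : ringKrullDim (A ⧸ q) ≤ (n : ℕ) := by
    refine (ringKrullDim_quotient_le q).trans ?_
    refine (ringKrullDim_le_of_surjective f.toRingHom hf).trans ?_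
    rw [MvPolynomial.ringKrullDim_of_isNoetherianRing, ringKrullDim_eq_zero_of_field, zero_add,
      Nat.card_eq_fintype_card, Fintype.card_fin]
  have h2 : Nontrivial (A ⧸ q) := Ideal.Quotient.nontrivial_iff.2 hq.ne_top
  have h3 : 0 ≤ ringKrullDim (A ⧸ q) := ringKrullDim_nonneg_of_nontrivial
  obtain ⟨e, he⟩ : ∃ e : WithBot ℕ∞, e = ringKrullDim (A ⧸ q) := ⟨_, rfl⟩
  rw [← he] at h1 h3 ⊢
  induction e using WithBot.recBotCoe with
  | bot => exact absurd h3 (by simp)
  | coe e =>
    have h4 : e ≤ (n : ℕ∞) := by exact_mod_cast h1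
    have h5 : e ≠ ⊤ := ne_top_of_le_ne_top (ENat.natCast_ne_top n) h4
    obtain ⟨d, hd⟩ := ENat.ne_top_iff_exists.1 h5
    refine ⟨d, ?_⟩
    rw [← hd]
    rfl

private theorem Gal_tow {k : Type u} {K L : Type v} [Field k] [Field K] [Field L] [Algebra k K]
    [Algebra k L] [Algebra K L] [IsScalarTower k K L] (M : IntermediateField K L) :
    IsScalarTower k M L :=
  IsScalarTower.of_algebraMap_eq fun c => by
    rw [IsScalarTower.algebraMap_apply k K L, IsScalarTower.algebraMap_apply k K M]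
    rfl

/-- the valuation `w / e` of a subfield on which `w` is divisible by `e` -/
private def Gal_div {k : Type u} {L : Type v} [Field k] [Field L] [Algebra k L]
    {M : Type v} [Field M] [Algebra k M] [Algebra M L] [IsScalarTower k M L]
    (w : DVal k L) (e : ℕ)
    (he : 1 ≤ e) (hdvd : ∀ b : M, b ≠ 0 → (e : ℤ) ∣ w.ord (algebraMap M L b))
    (hone : ∃ b : M, b ≠ 0 ∧ w.ord (algebraMap M L b) = e) : DVal k M where
  ord b := w.ord (algebraMap M L b) / e
  ord_mul := by
    intro a b ha hb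
    rw [map_mul, w.ord_mul _ _ ((map_ne_zero _).2 ha) ((map_ne_zero _).2 hb)]
    exact Int.add_ediv_of_dvd_left (hdvd a ha)
  ord_add := by
    intro a b ha hb hab
    have he0 : (0 : ℤ) < e := by exact_mod_cast he
    rw [map_add]
    have h := w.ord_add _ _ ((map_ne_zero (algebraMap M L)).2 ha)
      ((map_ne_zero (algebraMap M L)).2 hb) (by
        rw [← map_add]
        exact (map_ne_zero _).2 hab)
    rcases le_total (w.ord (algebraMap M L a)) (w.ord (algebraMap M L b)) with h1 | h1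
    · rw [min_eq_left h1] at h
      exact (min_le_left _ _).trans (Int.ediv_le_ediv he0 h)
    · rw [min_eq_right h1] at h
      exact (min_le_right _ _).trans (Int.ediv_le_ediv he0 h)
  ord_algebraMap := by
    intro c hc
    rw [← IsScalarTower.algebraMap_apply k M L, w.ord_algebraMap c hc, Int.zero_ediv]
  exists_ord_eq_one := by
    obtain ⟨b, hb, h⟩ := hone
    have he0 : (e : ℤ) ≠ 0 := by
      have : e ≠ 0 := by omega
      exact_mod_cast this
    refine ⟨b, hb, ?_⟩
    rw [h, Int.ediv_self he0]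

variable {k : Type u} {K L : Type v} [Field k] [CharZero k] [Field K] [Field L] [Algebra k K]
  [Algebra k L] [Algebra K L] [IsScalarTower k K L] [FiniteDimensional K L]
  (A : Subalgebra k K) (hA : Ten.IsGood A)
  (hur : ∀ P : Ideal (intCl A L), IsHeightOne P → ∀ w : DVal k L,
    w.HasCenter (intCl A L) P → ∃ b : K, b ≠ 0 ∧ w.ord (algebraMap K L b) = 1)

include hA hur

theorem hurM (M : IntermediateField K L) (P₁ : Ideal (intCl A M)) (hP : IsHeightOne P₁)
    (w₁ : DVal k M) (hw : w₁.HasCenter (intCl A M) P₁) :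
    ∃ b : K, b ≠ 0 ∧ w₁.ord (algebraMap K M b) = 1 := by
  have := Gal_tow (k := k) M
  obtain ⟨w, e, he, hwe⟩ := extV (K := M) (L := L) w₁
  have he0 : (0 : ℤ) < e := by exact_mod_cast he
  obtain ⟨q₁, hq₁, hc₁, hctr₁⟩ := exists_center (intCl A M) w (by
    intro a h0
    have ha : (a : M) ≠ 0 := (map_ne_zero (algebraMap M L)).1 h0
    rw [hwe _ ha]
    exact mul_nonneg he0.le (hw.1 a ha))
  have hcq : ctr (intCl A M) q₁ = P₁ := by
    ext a
    rw [hctr₁, hw.2]
    constructor
    · intro h2 ha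
      have h3 := h2 ((map_ne_zero (algebraMap M L)).2 ha)
      rw [hwe _ ha] at h3
      exact (mul_pos_iff_of_pos_left he0).1 h3
    · intro h2 ha
      have ha' : (a : M) ≠ 0 := (map_ne_zero (algebraMap M L)).1 ha
      rw [hwe _ ha']
      exact mul_pos he0 (h2 ha')
  have hh : IsHeightOne q₁ := of_ctr (intCl A M) q₁ hq₁ (by rw [hcq]; exact hP)
  have htr : ∀ B : Subalgebra k L, B = intCl A L → ∀ P : Ideal B, IsHeightOne P →
      w.HasCenter B P → ∃ b : K, b ≠ 0 ∧ w.ord (algebraMap K L b) = 1 := by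
    rintro _ rfl P h1 h2
    exact hur P h1 w h2
  obtain ⟨b, hb, hb1⟩ := htr _ (intCl_trans A (L := L) M) q₁ hh hc₁
  refine ⟨b, hb, ?_⟩
  have h1 : algebraMap K L b = algebraMap M L (algebraMap K M b) :=
    IsScalarTower.algebraMap_apply K M L b
  rw [h1, hwe _ ((map_ne_zero _).2 hb)] at hb1
  have h2 : w₁.ord (algebraMap K M b) ∣ 1 := ⟨e, by rw [mul_comm]; exact hb1.symm⟩
  rcases Int.isUnit_iff.1 (isUnit_of_dvd_one h2) with h3 | h3
  · exact h3
  · rw [h3] at hb1
    omega

theorem galIneq [IsGalois K L] {m : ℕ} (y : Fin (m + 1) → K) (hy : IsTranscendenceBasis k y)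
    (D : Fin (m + 1) → Derivation k K K) (hD : ∀ i j, D i (y j) = if i = j then 1 else 0)
    (hX : ∀ (g : L ≃ₐ[K] L) (D' : Fin (m + 1) → Derivation k
        (IntermediateField.fixedField (Subgroup.zpowers g))
        (IntermediateField.fixedField (Subgroup.zpowers g))),
      (∀ i j, D' i (algebraMap K _ (y j)) = if i = j then 1 else 0) →
        MldIneq (intCl A (IntermediateField.fixedField (Subgroup.zpowers g))) D') :
    MldIneq A D := by
  intro δ hδ x hRC q hq hqx d hd
  obtain ⟨γ, hγ⟩ := hRC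
  have hjac : ∃ c, jac D c ≠ 0 := by
    refine ⟨y, ?_⟩
    rw [Ten.jac_dual D y hD]
    exact one_ne_zero
  have hγq : IsLocalEq A D δ q γ := fun p hp => hγ p (hp.trans hqx)
  have main : ∀ l ∈ logDiscsP A D δ q, mld A D δ x ≤ ((l + d : ℝ) : EReal) ∧
      (l < 0 → mld A D δ x = ⊥) := by
    rintro l ⟨v, hvd, hvc, j, hj, γ', hγ', rfl⟩
    have h1 := Ten.indep_gen A hA D hjac δ q hq γ' γ hγ' hγq v hvc
    rw [h1]
    obtain ⟨w, e, he, hwe⟩ := extV (K := K) (L := L) v
    have he0 : (e : ℤ) ≠ 0 := by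
      have : e ≠ 0 := by omega
      exact_mod_cast this
    obtain ⟨g, hg⟩ := inert w e he v hwe
    obtain ⟨M, hM⟩ : ∃ M : IntermediateField K L,
      M = IntermediateField.fixedField (Subgroup.zpowers g) := ⟨_, rfl⟩
    have hX' := hX g
    rw [← hM] at hX'
    have := Gal_tow (k := k) M
    have hfix : ∀ b : M, g (b : L) = b := by
      rintro ⟨b, hb⟩
      rw [hM] at hb
      exact (IntermediateField.mem_fixedField_iff _ _).1 hb g (Subgroup.mem_zpowers g)
    obtain ⟨v₁, hv₁⟩ : ∃ v₁ : DVal k M, ∀ a : K, a ≠ 0 →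
        v₁.ord (algebraMap K M a) = v.ord a := by
      refine ⟨Gal_div (M := M) w e he (fun b hb => hg _ ((map_ne_zero _).2 hb) (hfix b)) ?_, ?_⟩
      · obtain ⟨a, ha, ha1⟩ := v.exists_ord_eq_one
        refine ⟨algebraMap K M a, (map_ne_zero _).2 ha, ?_⟩
        rw [← IsScalarTower.algebraMap_apply K M L, hwe a ha, ha1, mul_one]
      · intro a ha
        change w.ord (algebraMap M L (algebraMap K M a)) / (e : ℤ) = v.ord a
        rw [← IsScalarTower.algebraMap_apply K M L, hwe a ha, Int.mul_ediv_cancel_left _ he0]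
    obtain ⟨-, D', hD'⟩ := ram_der (L := M) y hy
    exact cover A hA (hurM A hA hur M) y hy D hD D' hD' (hX' D' hD') δ hδ x γ hγ q hq hqx d hd
      v hvd hvc j hj v₁ hv₁
  by_cases hneg : ∃ l ∈ logDiscsP A D δ q, l < 0
  · obtain ⟨l, hl, hl0⟩ := hneg
    rw [(main l hl).2 hl0]
    exact bot_le
  · have h4 : mldP A D δ q = ⨅ l ∈ logDiscsP A D δ q, (l : EReal) := by
      unfold mldP
      rw [if_neg hneg]
    have h5 : mld A D δ x - (d : EReal) ≤ mldP A D δ q := by
      rw [h4]
      refine le_iInf₂ fun l hl => ?_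
      rw [EReal.sub_le_iff_le_add (Or.inl (EReal.natCast_ne_bot d))
        (Or.inl (EReal.natCast_ne_top d))]
      have h6 := (main l hl).1
      rw [EReal.coe_add] at h6
      exact h6
    rwa [EReal.sub_le_iff_le_add (Or.inl (EReal.natCast_ne_bot d))
      (Or.inl (EReal.natCast_ne_top d))] at h5

theorem galMain [IsAlgClosed k] [IsGalois K L] {m : ℕ} (y : Fin (m + 1) → K)
    (hy : IsTranscendenceBasis k y)
    (D : Fin (m + 1) → Derivation k K K) (hD : ∀ i j, D i (y j) = if i = j then 1 else 0)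
    (hci : ∀ g : L ≃ₐ[K] L,
      HasCIRing (intCl A (IntermediateField.fixedField (Subgroup.zpowers g))) (m + 1))
    (δ : Ideal A →₀ ℝ) (hδ : ∀ p, 0 ≤ δ p) (x : MaximalSpectrum A)
    (hRC : ∃ γ : Kˣ →₀ ℝ, IsLocalEq A D δ x.asIdeal γ) (q : Ideal A) (hq : q.IsPrime)
    (hqx : q ≤ x.asIdeal) :
    ∃ d : ℕ, ringKrullDim (A ⧸ q) = d ∧ mld A D δ x ≤ mldP A D δ q + (d : EReal) := by
  obtain ⟨d, hd⟩ := Gal_dim A hA.fg q hq
  refine ⟨d, hd, ?_⟩
  refine galIneq A hA hur y hy D hD ?_ δ hδ x hRC q hq hqx d hd.le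
  intro g D' hD' δ₁ hδ₁ x₁ hRC₁ q₁ hq₁ hqx₁ d₁ hd₁
  have hgood : Ten.IsGood (intCl A (IntermediateField.fixedField (Subgroup.zpowers g))) :=
    intCl_good A hA
  have := Gal_fr _ hgood
  have := Gal_cl _ hgood
  obtain ⟨h, N, c, E, ξ, χ, f, hN, hξ, hf, hgen, hrel⟩ := hci g
  obtain ⟨d', hd', hle⟩ := coxMain _ (ram_der y hy).1 D' hD' _ hgood.fg E ξ hξ χ f hN hf hgen hrel
    δ₁ hδ₁ x₁ hRC₁ q₁ hq₁ hqx₁
  refine hle.trans (add_le_add le_rfl ?_)
  rw [hd'] at hd₁
  have h1 : d' ≤ d₁ := by exact_mod_cast hd₁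
  exact_mod_cast h1

end Pool.Agent.MLD.Cox
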