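import Pool.Agent.Lib.MP_f23696_ag.T.Ctx

/-!
Project COX-L: the standing hypotheses on a normal affine variety.
-/

set_option autoImplicit false

namespace Pool.Agent.MLD.Cox

universe u v

theorem goodOf {k : Type u} {K : Type v} [Field k] [Field K] [Algebra k K]
    (A : Subalgebra k K) (hfg : A.FG) [IsFractionRing A K] [IsIntegrallyClosed A] :
    Ten.IsGood A where
  fg := hfg
  frac := by
    intro f
    obtain ⟨a, b, hb, hab⟩ := IsFractionRing.div_surjective (A := A) f
    refine ⟨a, b, ?_, hab.symm⟩
    exact (map_ne_zero_iff (algebraMap A K) (IsFractionRing.injective A K)).2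
      (nonZeroDivisors.ne_zero hb)
  norm := by
    intro f hf
    obtain ⟨y, hy⟩ := (IsIntegrallyClosed.isIntegral_iff (R := A) (K := K)).1 hf
    rw [← hy]
    exact y.2

end Pool.Agent.MLD.Cox
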