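import Pool.Agent.Lib.MP_f23696_ag.T.Val

/-!
Project COX-F, module InA: the inertia group of a discrete valuation with residue field of
characteristic zero is cyclic.

`decG w` is the decomposition group, `inG w` the inertia group.

Proof of `inert_cyc`.  Let `π` have `w.ord π = 1`.  For `σ ∈ inG w` and `w.ord u = 0`: `σ u - u` is
small, so `σ u / u - 1` is small.  Let `χ σ` be the residue of `σ π / π` in `Res w` (an element of
order `0`); `χ (σ τ) = χ σ * χ τ`: `σ τ π / π = (σ π / π) * σ (τ π / π)`, and `σ` acts trivially on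
residues.  For `b = π^k u ≠ 0`, `k = w.ord b`, the residue of `σ b / b` is `(χ σ)^k`.
(1) `χ` is injective: let `χ σ = 1`.  Then all powers `σ^t` have `χ = 1`, and for `b ≠ 0` and
`τ = σ^t`: `τ b / b - 1` is small, i.e. `τ b - b = 0` or `w.ord (τ b - b) > w.ord b`.  Suppose
`σ b ≠ b`; put `β = σ b - b`.  With `N = orderOf σ`: `0 = σ^N b - b = ∑_(t < N) σ^t β =
N β + ∑_(t < N) (σ^t β - β)`, where `w.ord (N β) = w.ord β` (characteristic zero: `N ≠ 0` in `k`)
and the other terms have larger order or vanish: contradiction.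
(2) So the finite group `inG w` embeds in the units of the field `Res w` and is cyclic
(`isCyclic_of_subgroup_isDomain`, for the monoid homomorphism `χ` to `Res w`); let `g` be a
generator, `n = |inG w|`.  `χ g` has order exactly `n`.
(3) If `g b = b`, `b ≠ 0`, `k = w.ord b`: `1 = ` residue of `g b / b` `= (χ g)^k`, so `n ∣ k`.
(4) `a₀ = ∏_(σ ∈ inG w) σ π` has order `n` (each factor has order `1`) and is fixed by `inG w`.
-/

set_option autoImplicit false

namespace Pool.Agent.MLD.Cox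

universe u v

variable {k : Type u} {K L : Type v} [Field k] [Field K] [Field L] [Algebra k K] [Algebra k L]
  [Algebra K L] [IsScalarTower k K L]

/-- the decomposition group -/
def decG (K : Type v) [Field K] [Algebra K L] (w : DVal k L) : Subgroup (L ≃ₐ[K] L) where
  carrier := {σ | ∀ b : L, w.ord (σ b) = w.ord b}
  mul_mem' := by
    intro σ τ hσ hτ b
    rw [AlgEquiv.mul_apply, hσ, hτ]
  one_mem' := fun b => rfl
  inv_mem' := by
    intro σ hσ b
    have h := hσ (σ⁻¹ b)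
    rw [← h]
    congr 1
    exact (σ.apply_symm_apply b)

/-- `σ` is in the inertia group -/
def IsInert (K : Type v) [Field K] [Algebra K L] (w : DVal k L) (σ : L ≃ₐ[K] L) : Prop :=
  (∀ b : L, w.ord (σ b) = w.ord b) ∧ ∀ b : L, w.Integral b → w.Small (σ b - b)

open Pool.Agent.MLD.Jac Pool.Agent.MLD.Ten

omit [Algebra k K] [IsScalarTower k K L] in
private theorem InA_LB {w : DVal k L} {σ : L ≃ₐ[K] L} (hσ : ∀ b : L, w.ord (σ b) = w.ord b)
    {N : ℤ} {b : L} (h : LB w N b) : LB w N (σ b) := by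
  intro h0
  rw [hσ]
  refine h ?_
  rintro rfl
  exact h0 (map_zero σ)

/-- the inertia group -/
def inG (K : Type v) [Field K] [Algebra K L] (w : DVal k L) : Subgroup (L ≃ₐ[K] L) where
  carrier := {σ | IsInert K w σ}
  mul_mem' := by
    intro σ τ hσ hτ
    refine ⟨fun b => by rw [AlgEquiv.mul_apply, hσ.1, hτ.1], fun b hb => ?_⟩
    have h1 : LB w 1 (σ (τ b) - τ b) := hσ.2 (τ b) (InA_LB hτ.1 hb)
    have h2 : LB w 1 (τ b - b) := hτ.2 b hb
    have e : (σ * τ) b - b = (σ (τ b) - τ b) + (τ b - b) := by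
      rw [AlgEquiv.mul_apply]
      ring
    rw [e]
    exact h1.add h2
  one_mem' := by
    refine ⟨fun b => rfl, fun b _ h0 => ?_⟩
    exact absurd (sub_self b) h0
  inv_mem' := by
    intro σ hσ
    have h0 : ∀ b : L, σ (σ⁻¹ b) = b := fun b => σ.apply_symm_apply b
    have h1 : ∀ b : L, w.ord (σ⁻¹ b) = w.ord b := by
      intro b
      have h := hσ.1 (σ⁻¹ b)
      rw [h0] at h
      exact h.symm
    refine ⟨h1, fun b hb => ?_⟩
    have h2 : LB w 1 (σ (σ⁻¹ b) - σ⁻¹ b) := hσ.2 (σ⁻¹ b) (InA_LB h1 hb)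
    rw [h0] at h2
    have h3 := LB_neg w h2
    rw [neg_sub] at h3
    exact h3

omit [Algebra k K] [IsScalarTower k K L] in
/-- the residue of `σ b / b` -/
private theorem InA_pow {w : DVal k L} {σ : L ≃ₐ[K] L} (hσ : IsInert K w σ) {π : L}
    (hπ : π ≠ 0) (hπ1 : w.ord π = 1) {b : L} (hb : b ≠ 0) {n : ℕ} (hn : w.ord b = n) :
    LB w 1 (σ b / b - (σ π / π) ^ n) := by
  have hσπ : σ π ≠ 0 := (map_ne_zero_iff σ σ.injective).2 hπ
  have hpn : π ^ n ≠ 0 := pow_ne_zero _ hπ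
  obtain ⟨u, hu⟩ : ∃ u, u = b / π ^ n := ⟨_, rfl⟩
  have hu0 : u ≠ 0 := by
    rw [hu]
    exact div_ne_zero hb hpn
  have hub : b = u * π ^ n := by rw [hu, div_mul_cancel₀ _ hpn]
  have huo : w.ord u = 0 := by
    rw [hu, ord_div w _ _ hb hpn, ord_pow w _ hπ, hπ1, hn]
    ring
  have h1 : LB w 1 (σ u - u) := hσ.2 u (fun _ => by rw [huo])
  have h2 : LB w 0 u⁻¹ := fun _ => by
    rw [ord_inv w u hu0, huo]
    simp
  have h3 : LB w 0 ((σ π / π) ^ n) := fun _ => by
    rw [ord_pow w _ (div_ne_zero hσπ hπ), ord_div w _ _ hσπ hπ, hσ.1, sub_self, mul_zero]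
  have e : σ b / b - (σ π / π) ^ n = ((σ u - u) * u⁻¹) * (σ π / π) ^ n := by
    rw [hub, map_mul, map_pow, div_pow]
    field_simp
  rw [e]
  have h4 := (h1.mul h2).mul h3
  rwa [add_zero, add_zero] at h4

private theorem InA_res {w : DVal k L} {x y : Ten.ring w} :
    Ten.res w x = Ten.res w y ↔ LB w 1 ((x : L) - (y : L)) := by
  rw [← sub_eq_zero, ← map_sub, res_eq_zero]
  rfl

omit [Algebra k K] [IsScalarTower k K L] in
private theorem InA_mem {w : DVal k L} {σ : L ≃ₐ[K] L} (hσ : IsInert K w σ) {π : L}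
    (hπ : π ≠ 0) : σ π / π ∈ Ten.ring w := by
  have hσπ : σ π ≠ 0 := (map_ne_zero_iff σ σ.injective).2 hπ
  intro _
  rw [ord_div w _ _ hσπ hπ, hσ.1, sub_self]

/-- the character of the inertia group -/
private noncomputable def InA_chi (w : DVal k L) {π : L} (hπ : π ≠ 0) :
    inG K w →* Ten.Res w where
  toFun σ := Ten.res w ⟨σ.1 π / π, InA_mem σ.2 hπ⟩
  map_one' := by
    rw [← map_one (Ten.res w), InA_res]
    have e : ((1 : inG K w) : L ≃ₐ[K] L) π / π - 1 = 0 := by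
      rw [Subgroup.coe_one, AlgEquiv.one_apply, div_self hπ, sub_self]
    show LB w 1 (((1 : inG K w) : L ≃ₐ[K] L) π / π - 1)
    rw [e]
    exact LB.zero w 1
  map_mul' := by
    intro σ τ
    rw [← map_mul, InA_res]
    show LB w 1 (((σ * τ : inG K w) : L ≃ₐ[K] L) π / π - (σ.1 π / π) * (τ.1 π / π))
    have hσπ : σ.1 π ≠ 0 := (map_ne_zero_iff σ.1 σ.1.injective).2 hπ
    have e : ((σ * τ : inG K w) : L ≃ₐ[K] L) π / π - (σ.1 π / π) * (τ.1 π / π) =
        (σ.1 π / π) * (σ.1 (τ.1 π / π) - τ.1 π / π) := by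
      rw [Subgroup.coe_mul, AlgEquiv.mul_apply, map_div₀]
      field_simp
    rw [e]
    have h1 : LB w 0 (σ.1 π / π) := InA_mem σ.2 hπ
    have h2 : LB w 1 (σ.1 (τ.1 π / π) - τ.1 π / π) := σ.2.2 _ (InA_mem τ.2 hπ)
    have h3 := h1.mul h2
    rwa [zero_add] at h3

omit [Algebra k K] [IsScalarTower k K L] in
private theorem InA_chi_pow {w : DVal k L} {π : L} (hπ : π ≠ 0) (σ : inG K w) (m : ℕ) :
    InA_chi w hπ σ ^ m = 1 ↔ LB w 1 ((σ.1 π / π) ^ m - 1) := by
  have h1 : InA_chi w hπ σ ^ m = Ten.res w (⟨σ.1 π / π, InA_mem σ.2 hπ⟩ ^ m) := by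
    rw [map_pow]
    rfl
  rw [h1, ← map_one (Ten.res w), InA_res]
  rfl

omit [Algebra k K] [IsScalarTower k K L] in
private theorem InA_inj [CharZero k] [FiniteDimensional K L] {w : DVal k L} {π : L}
    (hπ : π ≠ 0) (hπ1 : w.ord π = 1) (σ : inG K w) (h : InA_chi w hπ σ = 1) : σ = 1 := by
  have key : ∀ b : L, b ≠ 0 → 0 ≤ w.ord b → σ.1 b = b := by
    intro b hb hb0
    by_contra hne
    obtain ⟨β, hβ⟩ : ∃ β, β = σ.1 b - b := ⟨_, rfl⟩
    have hβ0 : β ≠ 0 := by
      rw [hβ]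
      exact sub_ne_zero.2 hne
    have hβi : 0 ≤ w.ord β := by
      have h1 : LB w 0 b := fun _ => hb0
      have h2 : LB w 0 (σ.1 b - b) := LB_sub w (InA_LB σ.2.1 h1) h1
      rw [← hβ] at h2
      exact h2 hβ0
    obtain ⟨m, hm⟩ := Int.eq_ofNat_of_zero_le hβi
    have h1 : ∀ t : ℕ, LB w (w.ord β + 1) ((σ.1 ^ t) β - β) := by
      intro t
      have ht : IsInert K w (σ.1 ^ t) := (inG K w).pow_mem σ.2 t
      have h2 := InA_pow ht hπ hπ1 hβ0 hm
      have h3 : InA_chi w hπ (σ ^ t) ^ m = 1 := by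
        rw [map_pow, h, one_pow, one_pow]
      have h4 : LB w 1 (((σ.1 ^ t) π / π) ^ m - 1) := (InA_chi_pow hπ (σ ^ t) m).1 h3
      have h6 := h2.add h4
      rw [sub_add_sub_cancel] at h6
      have h7 := h6.mul (LB_self w β)
      have e : ((σ.1 ^ t) β / β - 1) * β = (σ.1 ^ t) β - β := by
        rw [sub_mul, div_mul_cancel₀ _ hβ0, one_mul]
      rw [e, add_comm] at h7
      exact h7
    obtain ⟨N, hN0, hN⟩ : ∃ N : ℕ, N ≠ 0 ∧ σ.1 ^ N = 1 :=
      ⟨orderOf σ.1, (orderOf_pos _).ne', pow_orderOf_eq_one _⟩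
    have h8 : ∑ t ∈ Finset.range N, (σ.1 ^ t) β = 0 := by
      have h9 : ∀ t : ℕ, (σ.1 ^ t) β = (σ.1 ^ (t + 1)) b - (σ.1 ^ t) b := by
        intro t
        rw [hβ, map_sub, pow_succ, AlgEquiv.mul_apply]
      simp only [h9]
      rw [Finset.sum_range_sub (fun t => (σ.1 ^ t) b), hN, pow_zero, sub_self]
    have h9 : (N : L) * β = -∑ t ∈ Finset.range N, ((σ.1 ^ t) β - β) := by
      rw [Finset.sum_sub_distrib, h8, Finset.sum_const, Finset.card_range, nsmul_eq_mul]
      ring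
    have h10 : LB w (w.ord β + 1) ((N : L) * β) := by
      rw [h9]
      exact LB_neg w (LB.sum _ _ fun t _ => h1 t)
    have hNL : (N : L) = algebraMap k L (N : k) := by simp
    have hNk : (N : k) ≠ 0 := Nat.cast_ne_zero.2 hN0
    have hNL0 : (N : L) ≠ 0 := by
      rw [hNL]
      exact (map_ne_zero_iff _ (algebraMap k L).injective).2 hNk
    have h11 : w.ord ((N : L) * β) = w.ord β := by
      rw [w.ord_mul _ _ hNL0 hβ0, hNL, w.ord_algebraMap _ hNk, zero_add]
    have h12 := h10 (mul_ne_zero hNL0 hβ0)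
    omega
  apply Subtype.ext
  apply AlgEquiv.ext
  intro b
  rw [Subgroup.coe_one, AlgEquiv.one_apply]
  rcases eq_or_ne b 0 with rfl | hb
  · exact map_zero _
  · rcases le_total 0 (w.ord b) with h0 | h0
    · exact key b hb h0
    · have h1 := key b⁻¹ (inv_ne_zero hb) (by rw [ord_inv w b hb]; omega)
      rw [map_inv₀] at h1
      exact inv_injective h1

theorem inert_cyc [CharZero k] [FiniteDimensional K L] (w : DVal k L) :
    ∃ g ∈ inG K w, (∀ b : L, b ≠ 0 → g b = b → (Nat.card (inG K w) : ℤ) ∣ w.ord b) ∧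
      ∃ a : L, a ≠ 0 ∧ w.ord a = Nat.card (inG K w) ∧ ∀ σ ∈ inG K w, σ a = a := by
  obtain ⟨π, hπ, hπ1⟩ := w.exists_ord_eq_one
  have hinj : Function.Injective (InA_chi (K := K) w hπ) :=
    (injective_iff_map_eq_one _).2 fun σ h => InA_inj hπ hπ1 σ h
  have hcyc : IsCyclic (inG K w) := isCyclic_of_injective_ringHom (InA_chi (K := K) w hπ) hinj
  obtain ⟨g, hg⟩ := IsCyclic.exists_generator (α := inG K w)
  have hgo : orderOf g = Nat.card (inG K w) := orderOf_eq_card_of_forall_mem_zpowers hg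
  have hχo : orderOf (InA_chi w hπ g) = Nat.card (inG K w) := by
    rw [orderOf_injective _ hinj, hgo]
  have hdiv : ∀ b : L, b ≠ 0 → g.1 b = b → 0 ≤ w.ord b →
      (Nat.card (inG K w) : ℤ) ∣ w.ord b := by
    intro b hb hgb h0
    obtain ⟨m, hm⟩ := Int.eq_ofNat_of_zero_le h0
    have h1 := InA_pow g.2 hπ hπ1 hb hm
    rw [hgb, div_self hb] at h1
    have h2 : InA_chi w hπ g ^ m = 1 := by
      rw [InA_chi_pow]
      have h3 := LB_neg w h1
      rwa [neg_sub] at h3
    have h3 := orderOf_dvd_of_pow_eq_one h2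
    rw [hχo] at h3
    rw [hm]
    exact Int.natCast_dvd_natCast.2 h3
  refine ⟨g.1, g.2, ?_, ?_⟩
  · intro b hb hgb
    rcases le_total 0 (w.ord b) with h0 | h0
    · exact hdiv b hb hgb h0
    · have h1 := hdiv b⁻¹ (inv_ne_zero hb) (by rw [map_inv₀, hgb])
        (by rw [ord_inv w b hb]; omega)
      rw [ord_inv w b hb] at h1
      exact (dvd_neg).1 h1
  · have : Fintype (inG K w) := Fintype.ofFinite _
    have h0 : ∀ σ : inG K w, σ.1 π ≠ 0 := fun σ => (map_ne_zero_iff σ.1 σ.1.injective).2 hπ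
    refine ⟨∏ σ : inG K w, σ.1 π, Finset.prod_ne_zero_iff.2 fun σ _ => h0 σ, ?_, ?_⟩
    · rw [ord_prod w _ _ fun σ _ => h0 σ,
        Finset.sum_congr rfl fun σ _ => (σ.2.1 π).trans hπ1, Finset.sum_const,
        Finset.card_univ, Nat.card_eq_fintype_card]
      simp
    · intro τ hτ
      rw [map_prod]
      exact Fintype.prod_equiv (Equiv.mulLeft (⟨τ, hτ⟩ : inG K w)) _ _ fun σ => rfl

end Pool.Agent.MLD.Cox
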