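import Pool.Agent.Lib.MP_f23696_ag.Y.MldP

/-!
Project COX-F: the inequality between minimal log discrepancies, as a property of a variety.
-/

namespace Pool.Agent.MLD.Cox

universe u v

variable {k : Type u} {K : Type v} [Field k] [Field K] [Algebra k K]

/-- `mld(x) ≤ mld(η_W) + dim W` on `Spec A` for all effective boundaries -/
def MldIneq (A : Subalgebra k K) {m : ℕ} (D : Fin (m + 1) → Derivation k K K) : Prop :=
  ∀ δ : Ideal A →₀ ℝ, (∀ p, 0 ≤ δ p) → ∀ x : MaximalSpectrum A,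
    (∃ γ : Kˣ →₀ ℝ, IsLocalEq A D δ x.asIdeal γ) → ∀ q : Ideal A, q.IsPrime →
      q ≤ x.asIdeal → ∀ d : ℕ, ringKrullDim (A ⧸ q) ≤ d →
        mld A D δ x ≤ mldP A D δ q + (d : EReal)

end Pool.Agent.MLD.Cox
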