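import Pool.Agent.Lib.MP_f23696_ag.T.Ind
import Pool.Agent.Lib.MP_f23696_ag.T.Pri
import Pool.Agent.Lib.MP_f23696_ag.Dvr
import Pool.Agent.Lib.MP_f23696_ag.Z.CDefs

/-!
Project COX-F, module IntC: the integral closure in a finite extension.

`intCl A L` is the integral closure of `A` in `L`, as a `k`-subalgebra; `toCl A L : A → intCl A L`;
`ctr P` is the contraction of the ideal `P` of `intCl A L` to `A`.

Proofs.  Make `intCl A L` an algebra over `A` by `toCl`; it is integral over `A`, and `toCl` is
injective.
* `intCl_good`: finite generation: `L/K` is finite separable (characteristic zero), `A` is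
  Noetherian
  and integrally closed with fraction field `K`, so the integral closure of `A` in `L` is a finite
  `A`-module (`IsIntegralClosure.finite`, `IsIntegralClosure.isNoetherian`), so a finitely generated
  `k`-algebra.  `frac`: every element of `L` is algebraic over `K`, so a quotient `c / a` with `c`
  integral, `a ∈ A` (`IsIntegralClosure.isFractionRing_of_algebraic`,
  `exists_integral_multiple`).  `norm`: an element integral over `intCl A L` is integral over `A`
  (`isIntegral_trans`, `RingHom.IsIntegralElem` of compositions).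
* `mem_intCl_algebraMap`: `A` is integrally closed.
* `ctr_max`: `Ideal.isMaximal_comap_of_isIntegral_of_isMaximal`.
* `goUp`: `Ideal.exists_ideal_over_prime_of_isIntegral` (going up), the prime over a maximal ideal
  is maximal (`Ideal.isMaximal_of_isIntegral_of_isMaximal_comap`).
* `intCl_trans`: integrality is transitive.
* `val_intCl`: valuation rings are integrally closed: if `w.ord z < 0` the leading term of an
  integral equation dominates.
* `exists_center`: `{z | w.Small z}` is a prime ideal of `intCl A L`.
-/

set_option autoImplicit false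

namespace Pool.Agent.MLD.Cox

universe u v

variable {k : Type u} {K : Type v} [Field k] [Field K] [Algebra k K] (A : Subalgebra k K)
  (L : Type v) [Field L] [Algebra k L] [Algebra K L] [IsScalarTower k K L]

/-- the inclusion of `A` in its integral closure -/
def toCl : A →ₐ[k] intCl A L :=
  AlgHom.codRestrict ((IsScalarTower.toAlgHom k K L).comp A.val) (intCl A L) (fun a => by
    change ((algebraMap K L).comp (algebraMap A K)).IsIntegralElem
      (((algebraMap K L).comp (algebraMap A K)) a)
    exact RingHom.isIntegralElem_map _)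

variable {L}

/-- the contraction of an ideal to `A` -/
def ctr (P : Ideal (intCl A L)) : Ideal A := P.comap (toCl A L)

theorem mem_ctr (P : Ideal (intCl A L)) (a : A) : a ∈ ctr A P ↔ toCl A L a ∈ P := Iff.rfl

theorem toCl_coe (a : A) : (toCl A L a : L) = algebraMap K L a := rfl

/-- `intCl A L` as an algebra over `A` -/
@[reducible] private def IntC_alg : Algebra A (intCl A L) := (toCl A L).toRingHom.toAlgebra

private theorem IntC_tow :
    letI := IntC_alg A (L := L)
    IsScalarTower A (intCl A L) L := by
  letI := IntC_alg A (L := L)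
  exact IsScalarTower.of_algebraMap_eq fun a => rfl

private theorem IntC_mem (z : L) : z ∈ intCl A L ↔ IsIntegral A z := by
  change ((algebraMap K L).comp (algebraMap A K)).IsIntegralElem z ↔
    (algebraMap A L).IsIntegralElem z
  rw [IsScalarTower.algebraMap_eq A K L]

private theorem IntC_icl :
    letI := IntC_alg A (L := L)
    IsIntegralClosure (intCl A L) A L := by
  letI := IntC_alg A (L := L)
  refine ⟨Subtype.coe_injective, ?_⟩
  intro x
  constructor
  · intro hx
    exact ⟨⟨x, (IntC_mem A x).2 hx⟩, rfl⟩
  · rintro ⟨y, rfl⟩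
    exact (IntC_mem A _).1 y.2

private theorem IntC_int :
    letI := IntC_alg A (L := L)
    Algebra.IsIntegral A (intCl A L) := by
  letI := IntC_alg A (L := L)
  have := IntC_tow A (L := L)
  refine ⟨fun z => ?_⟩
  have h1 : IsIntegral A (algebraMap (intCl A L) L z) := (IntC_mem A _).1 z.2
  exact (isIntegral_algebraMap_iff Subtype.coe_injective).1 h1

private theorem IntC_fr (hA : Ten.IsGood A) : IsFractionRing A K :=
  IsFractionRing.of_field A K fun z => by
    obtain ⟨a, b, _, h⟩ := hA.frac z
    exact ⟨a, b, h⟩

private theorem IntC_cl (hA : Ten.IsGood A) : IsIntegrallyClosed A := by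
  have := IntC_fr A hA
  rw [isIntegrallyClosed_iff K]
  intro x hx
  exact ⟨⟨x, hA.norm x hx⟩, rfl⟩

variable [CharZero k] [FiniteDimensional K L] (hA : Ten.IsGood A)

include hA

theorem intCl_good : Ten.IsGood (intCl A L) := by
  letI := IntC_alg A (L := L)
  have := IntC_tow A (L := L)
  have := IntC_icl A (L := L)
  have := IntC_int A (L := L)
  have := IntC_fr A hA
  have := IntC_cl A hA
  have := Ten.Ind.noeth A hA.fg
  have : CharZero K := charZero_of_injective_algebraMap (algebraMap k K).injective
  have hfin : Module.Finite A (intCl A L) := IsIntegralClosure.finite A K L (intCl A L)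
  have hfr : IsFractionRing (intCl A L) L :=
    IsIntegralClosure.isFractionRing_of_finite_extension A K L (intCl A L)
  refine ⟨?_, ?_, ?_⟩
  · have : IsScalarTower k A (intCl A L) := IsScalarTower.of_algebraMap_eq fun c =>
      ((toCl A L).commutes c).symm
    have h0 : Algebra.FiniteType k A := (Subalgebra.fg_iff_finiteType A).1 hA.fg
    have h1 : Algebra.FiniteType k (intCl A L) := Algebra.FiniteType.trans h0 inferInstance
    exact (Subalgebra.fg_iff_finiteType _).2 h1
  · intro f
    obtain ⟨a, b, hb, hab⟩ := IsFractionRing.div_surjective (A := intCl A L) f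
    refine ⟨a, b, ?_, hab.symm⟩
    exact (map_ne_zero_iff (algebraMap (intCl A L) L) (IsFractionRing.injective _ L)).2
      (nonZeroDivisors.ne_zero hb)
  · intro f hf
    rw [IntC_mem]
    exact isIntegral_trans f hf

theorem mem_intCl_algebraMap (b : K) : algebraMap K L b ∈ intCl A L ↔ b ∈ A := by
  have := IntC_fr A hA
  have := IntC_cl A hA
  rw [IntC_mem]
  constructor
  · intro h
    exact hA.norm b ((isIntegral_algebraMap_iff (algebraMap K L).injective).1 h)
  · intro h
    have h1 : IsIntegral A (algebraMap A L ⟨b, h⟩) := isIntegral_algebraMap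
    exact h1

omit [CharZero k] [FiniteDimensional K L] hA

theorem ctr_prime (P : Ideal (intCl A L)) (hP : P.IsPrime) : (ctr A P).IsPrime :=
  Ideal.comap_isPrime _ _

theorem ctr_max (P : Ideal (intCl A L)) (hP : P.IsMaximal) : (ctr A P).IsMaximal := by
  letI := IntC_alg A (L := L)
  have := IntC_int A (L := L)
  exact Ideal.isMaximal_comap_of_isIntegral_of_isMaximal (R := A) P

theorem goUp (q₁ : Ideal (intCl A L)) (hq : q₁.IsPrime) (x : Ideal A) (hx : x.IsMaximal)
    (h : ctr A q₁ ≤ x) : ∃ x₁ : Ideal (intCl A L), x₁.IsMaximal ∧ q₁ ≤ x₁ ∧ ctr A x₁ = x := by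
  letI := IntC_alg A (L := L)
  have := IntC_int A (L := L)
  have := hx.isPrime
  obtain ⟨Q, hQ, hQp, hQx⟩ := Ideal.exists_ideal_over_prime_of_isIntegral x q₁ h
  have := hQp
  refine ⟨Q, ?_, hQ, hQx⟩
  apply Ideal.isMaximal_of_isIntegral_of_isMaximal_comap (R := A)
  rw [hQx]
  exact hx

theorem intCl_trans (M : Type v) [Field M] [Algebra k M] [Algebra K M] [IsScalarTower k K M]
    [Algebra M L] [IsScalarTower k M L] [IsScalarTower K M L] :
    intCl (intCl A M) L = intCl A L := by
  letI := IntC_alg A (L := M)
  have := IntC_tow A (L := M)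
  have := IntC_int A (L := M)
  have : IsScalarTower A (intCl A M) L := IsScalarTower.of_algebraMap_eq fun a => by
    change algebraMap K L (a : K) = algebraMap M L (algebraMap K M (a : K))
    exact IsScalarTower.algebraMap_apply K M L _
  ext z
  rw [IntC_mem, IntC_mem]
  constructor
  · intro h
    exact isIntegral_trans z h
  · intro h
    exact h.tower_top

theorem val_intCl (w : DVal k L) (hw : ∀ a : A, w.Integral (algebraMap K L a)) (z : intCl A L) :
    w.Integral (z : L) := by
  intro hz0
  by_contra hneg
  push Not at hneg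
  obtain ⟨p, hp, hpz⟩ := z.2
  have h1 : (z : L) ^ p.natDegree = -∑ i ∈ Finset.range p.natDegree,
      ((algebraMap K L).comp (algebraMap A K)) (p.coeff i) * (z : L) ^ i := by
    rw [Polynomial.eval₂_eq_sum_range, Finset.sum_range_succ] at hpz
    have h2 : p.coeff p.natDegree = 1 := hp
    rw [h2, map_one, one_mul] at hpz
    linear_combination hpz
  have h2 : Jac.LB w (((p.natDegree : ℤ) - 1) * w.ord (z : L)) ((z : L) ^ p.natDegree) := by
    rw [h1]
    apply Ten.LB_neg
    refine Jac.LB.sum _ _ fun i hi => ?_
    have h3 : Jac.LB w 0 (((algebraMap K L).comp (algebraMap A K)) (p.coeff i)) := hw _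
    have h4 : Jac.LB w ((i : ℤ) * w.ord (z : L)) ((z : L) ^ i) := fun _ => by
      rw [Jac.ord_pow w _ hz0]
    have h5 := h3.mul h4
    rw [zero_add] at h5
    refine h5.mono ?_
    have h6 : (i : ℤ) ≤ (p.natDegree : ℤ) - 1 := by
      have := Finset.mem_range.1 hi
      omega
    nlinarith
  have h3 := h2 (pow_ne_zero _ hz0)
  rw [Jac.ord_pow w _ hz0] at h3
  linarith

theorem exists_center (w : DVal k L) (hw : ∀ a : A, w.Integral (algebraMap K L a)) :
    ∃ q₁ : Ideal (intCl A L), q₁.IsPrime ∧ w.HasCenter (intCl A L) q₁ ∧
      ∀ a : A, a ∈ ctr A q₁ ↔ w.Small (algebraMap K L a) := by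
  have h0 : ∀ z : intCl A L, (z : L) ∈ Ten.ring w := fun z => val_intCl A w hw z
  refine ⟨(Ten.maxI w).comap (Subalgebra.inclusion (fun z hz => h0 ⟨z, hz⟩)), ?_, ?_, ?_⟩
  · exact Ideal.comap_isPrime _ _
  · exact ⟨fun a => val_intCl A w hw a, fun a => Iff.rfl⟩
  · exact fun a => Iff.rfl

end Pool.Agent.MLD.Cox
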