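import Pool.Agent.Lib.MP_f23696_ag.Z.IntC

/-!
Project COX-F, module IntD: primes of height one and dimension in the integral closure.

Proofs.  Make `intCl A L` an algebra over `A` by `toCl`; it is integral over `A`, and `toCl` is
injective.
* `of_ctr`: if `ctr P` has height one: `P ≠ ⊥`; if `Q` is a prime, `Q ≠ ⊥`, `Q ≤ P`, then
  `ctr Q ≠ ⊥` (a nonzero integral element has a nonzero constant term in an integral equation of
  least degree: `Ideal.comap_ne_bot_of_integral_mem` or similar), so `ctr Q = ctr P`, and `Q = P` by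
  incomparability (`Ideal.IsIntegral.comap_lt_comap` or
  `Ideal.comap_lt_comap_of_integral_mem_sdiff`).
* `ctr_one`: let `P` be of height one and `p = ctr P ≠ ⊥`.  Let `p' ≤ p` be a nonzero prime of `A`.
  Going down for `A ⊆ intCl A L` (`A` integrally closed, the extension a domain; Mathlib may have it
  as `Algebra.HasGoingDown` or `Ideal.exists_ideal_le_liesOver_of_le`) gives `P' ≤ P` over `p'`,
  `P' ≠ ⊥`, so `P' = P`, `p' = p`.  If going down is not available: pass to a Galois extension
  `L' / K` containing `L`, where the group acts transitively on the primes over a prime of `A`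
  (`Ideal.exists_smul_eq_of_comap_eq` / `IsGalois` results), or compare transcendence degrees:
  `intCl A L / P` has transcendence degree `trdeg L - 1` over `k` (Krull's theorem for the finitely
  generated domain; `intCl A L` has a valuation with centre `P` whose residue field is algebraic
  over the fraction field of `intCl A L / P`) and so has `A / p`, while for a prime
  `⊥ < p' < p` it would be at most `trdeg K - 2`.
* `dim_le`: a chain of primes of `intCl A L ⧸ q₁` contracts to a chain of primes of
  `A ⧸ ctr q₁` of the same length (incomparability); `ringKrullDim_le_of_...` or `Order.krullDim`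
  with a strictly monotone map.
-/

set_option autoImplicit false

namespace Pool.Agent.MLD.Cox

universe u v

variable {k : Type u} {K : Type v} [Field k] [Field K] [Algebra k K] (A : Subalgebra k K)
  {L : Type v} [Field L] [Algebra k L] [Algebra K L] [IsScalarTower k K L]

/-- `intCl A L` as an algebra over `A` -/
@[reducible] private def IntD_alg : Algebra A (intCl A L) := (toCl A L).toRingHom.toAlgebra

private theorem IntD_inj : Function.Injective (toCl A L) := by
  intro a b h
  have h1 : algebraMap K L a = algebraMap K L b := congrArg (fun z : intCl A L => (z : L)) h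
  exact Subtype.ext ((algebraMap K L).injective h1)

private theorem IntD_intHom : (toCl A L).toRingHom.IsIntegral := by
  intro z
  obtain ⟨p, hp, hpz⟩ := z.2
  refine ⟨p, hp, ?_⟩
  have h1 := Polynomial.hom_eval₂ p (toCl A L).toRingHom (intCl A L).val.toRingHom z
  have h2 : (intCl A L).val.toRingHom.comp (toCl A L).toRingHom
      = (algebraMap K L).comp (algebraMap A K) := RingHom.ext fun a => rfl
  rw [h2] at h1
  have h3 : (intCl A L).val.toRingHom (Polynomial.eval₂ (toCl A L).toRingHom z p) = 0 :=
    h1.trans hpz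
  exact Subtype.ext h3

private theorem IntD_int :
    letI := IntD_alg A (L := L)
    Algebra.IsIntegral A (intCl A L) := by
  letI := IntD_alg A (L := L)
  exact ⟨IntD_intHom A⟩

private theorem IntD_bot : ctr A (⊥ : Ideal (intCl A L)) = ⊥ := by
  rw [eq_bot_iff]
  intro a ha
  rw [mem_ctr, Ideal.mem_bot] at ha
  rw [Ideal.mem_bot]
  exact IntD_inj A (L := L) (by rw [ha, map_zero])

private theorem IntD_fr (hA : Ten.IsGood A) : IsFractionRing A K :=
  IsFractionRing.of_field A K fun z => by
    obtain ⟨a, b, _, h⟩ := hA.frac z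
    exact ⟨a, b, h⟩

private theorem IntD_cl (hA : Ten.IsGood A) : IsIntegrallyClosed A := by
  have := IntD_fr A hA
  rw [isIntegrallyClosed_iff K]
  intro x hx
  exact ⟨⟨x, hA.norm x hx⟩, rfl⟩

private theorem IntD_ne (Q : Ideal (intCl A L)) (h : Q ≠ ⊥) : ctr A Q ≠ ⊥ := by
  letI := IntD_alg A (L := L)
  have := IntD_int A (L := L)
  exact Ideal.IsIntegral.comap_ne_bot A h

theorem of_ctr (P : Ideal (intCl A L)) (hP : P.IsPrime) (h : IsHeightOne (ctr A P)) :
    IsHeightOne P := by
  letI := IntD_alg A (L := L)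
  have := IntD_int A (L := L)
  obtain ⟨h1, h2, h3⟩ := h
  refine ⟨hP, ?_, ?_⟩
  · rintro rfl
    exact h2 (IntD_bot A)
  · intro Q hQ hQ0 hQP
    have h4 : ctr A Q = ctr A P :=
      h3 (ctr A Q) (ctr_prime A Q hQ) (IntD_ne A Q hQ0) (Ideal.comap_mono hQP)
    by_contra hne
    have := hQ
    have h5 : Q < P := lt_of_le_of_ne hQP hne
    have h6 : ctr A Q < ctr A P := Ideal.IsIntegral.comap_lt_comap (R := A) h5
    exact h6.ne h4

theorem ctr_one [CharZero k] [FiniteDimensional K L] (hA : Ten.IsGood A) (P : Ideal (intCl A L))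
    (hP : IsHeightOne P) : IsHeightOne (ctr A P) := by
  letI := IntD_alg A (L := L)
  have := IntD_int A (L := L)
  have := IntD_cl A hA
  have : FaithfulSMul A (intCl A L) :=
    (faithfulSMul_iff_algebraMap_injective A (intCl A L)).2 (IntD_inj A)
  obtain ⟨h1, h2, h3⟩ := hP
  have := h1
  have hpr : (ctr A P).IsPrime := ctr_prime A P h1
  refine ⟨hpr, IntD_ne A P h2, ?_⟩
  intro p' hp' hp0 hle
  have := hp'
  have hlo : P.LiesOver (ctr A P) := ⟨rfl⟩
  obtain ⟨P', hP', hP'p, hP'o⟩ := Ideal.exists_ideal_le_liesOver_of_le (p := p') (q := ctr A P) P hle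
  have h4 : p' = ctr A P' := hP'o.over
  have h5 : P' = P := by
    refine h3 P' hP'p ?_ hP'
    rintro rfl
    exact hp0 (h4.trans (IntD_bot A))
  rw [h4, h5]

theorem dim_le (q₁ : Ideal (intCl A L)) (hq : q₁.IsPrime) :
    ringKrullDim (intCl A L ⧸ q₁) ≤ ringKrullDim (A ⧸ ctr A q₁) := by
  have h1 : ((Ideal.Quotient.mk q₁).comp (toCl A L).toRingHom).IsIntegral :=
    RingHom.IsIntegral.trans _ _ (IntD_intHom A)
      ((Ideal.Quotient.mk q₁).isIntegral_of_surjective Ideal.Quotient.mk_surjective)
  obtain ⟨f, hf⟩ : ∃ f : A ⧸ ctr A q₁ →+* intCl A L ⧸ q₁,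
      f.comp (Ideal.Quotient.mk (ctr A q₁)) = (Ideal.Quotient.mk q₁).comp (toCl A L).toRingHom :=
    ⟨Ideal.quotientMap q₁ (toCl A L).toRingHom le_rfl, Ideal.quotientMap_comp_mk le_rfl⟩
  have h2 : f.IsIntegral := by
    refine RingHom.IsIntegral.tower_top (Ideal.Quotient.mk (ctr A q₁)) f ?_
    rw [hf]
    exact h1
  letI := f.toAlgebra
  have : Algebra.IsIntegral (A ⧸ ctr A q₁) (intCl A L ⧸ q₁) := ⟨h2⟩
  refine Order.krullDim_le_of_strictMono (PrimeSpectrum.comap f) ?_
  intro I J hIJ
  exact Ideal.IsIntegral.comap_lt_comap (R := A ⧸ ctr A q₁) (I := I.asIdeal) (J := J.asIdeal) hIJ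

end Pool.Agent.MLD.Cox
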