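import Mathlib

/-!
Project COX-L, module LciA: selection of local generators.

`sel`: let `I = (F_1, …, F_r)` be an ideal of `R`, `P` a prime ideal, and suppose that the ideal
`I R_P` is generated by `c` elements (`g ∉ P`, `g I ⊆ (f_1, …, f_c) ⊆ I`).  Then `c` elements of
`{0, F_1, …, F_r}` generate `I R_P`.

Proof 1 (Nakayama).  Let `κ` be the residue field of `P`.  The `κ`-vector space
`V = κ ⊗ (I R_P)` is spanned by the images of the `f_j`, so `dim V ≤ c`, and by the images of the
`F_i`, so a basis of `V` can be chosen among the images of the `F_i`, with at most `c` elements.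
By the lemma of Nakayama the corresponding `F_i` generate the finitely generated module `I R_P`.
So for every `i` there is `s_i ∉ P` with `s_i F_i ∈ span (range f')`; `g' = ∏ s_i`.

Proof 2 (elementary exchange).  Claim, by induction on `t ≤ c`: there are `s_t ∉ P` and
`e_1, …, e_c` with `s_t I ⊆ (e_1, …, e_c)`, `e_j ∈ I`, such that at least `t` of the `e_j` are in
`{0, F_1, …, F_r}`.  Let `e_j` be one of the others; `s e_j = ∑_i b_i F_i`... write
`s F_i = ∑_l a_(i l) e_l` and `e_j = ∑_i b_i F_i`.  Then `s e_j = ∑_l (∑_i b_i a_(i l)) e_l`.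
If some `a_(i j) ∉ P`, then `e_j` can be replaced by `F_i`: `a_(i j) e_j ∈ (F_i, e_l, l ≠ j)`.
Otherwise `∑_i b_i a_(i j) ∈ P`, `u = s - ∑_i b_i a_(i j) ∉ P` and `u e_j ∈ (e_l, l ≠ j)`, so `e_j`
can be replaced by `0`.
-/

set_option autoImplicit false

namespace Pool.Agent.MLD.Cox

private theorem LciA_upd {R : Type*} [CommRing R] {c : ℕ} (e : Fin c → R) (j : Fin c) (y v : R)
    (h : v * e j ∈ Ideal.span (Set.range (Function.update e j y))) {x : R}
    (hx : x ∈ Ideal.span (Set.range e)) :
    v * x ∈ Ideal.span (Set.range (Function.update e j y)) := by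
  rw [Ideal.mem_span_range_iff_exists_fun] at hx
  obtain ⟨a, rfl⟩ := hx
  rw [Finset.mul_sum]
  refine Ideal.sum_mem _ fun l _ => ?_
  by_cases hl : l = j
  · subst hl
    have h1 : v * (a l * e l) = a l * (v * e l) := by ring
    rw [h1]
    exact Ideal.mul_mem_left _ _ h
  · have h1 : v * (a l * e l) = (v * a l) * Function.update e j y l := by
      rw [Function.update_of_ne hl]
      ring
    rw [h1]
    exact Ideal.mul_mem_left _ _ (Ideal.subset_span ⟨l, rfl⟩)

private theorem LciA_rest {R : Type*} [CommRing R] {c : ℕ} (e : Fin c → R) (j : Fin c) (y : R)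
    (a : Fin c → R) : ∑ l ∈ Finset.univ.erase j, a l * e l ∈
      Ideal.span (Set.range (Function.update e j y)) := by
  refine Ideal.sum_mem _ fun l hl => ?_
  have h1 : a l * e l = a l * Function.update e j y l := by
    rw [Function.update_of_ne (Finset.ne_of_mem_erase hl)]
  rw [h1]
  exact Ideal.mul_mem_left _ _ (Ideal.subset_span ⟨l, rfl⟩)

theorem sel {R : Type*} [CommRing R] (I P : Ideal R) (hP : P.IsPrime) {r c : ℕ} (F : Fin r → R)
    (hF : I = Ideal.span (Set.range F)) (g : R) (hg : g ∉ P) (f : Fin c → R)
    (hf : ∀ j, f j ∈ I) (hgf : ∀ a ∈ I, g * a ∈ Ideal.span (Set.range f)) :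
    ∃ (f' : Fin c → R) (g' : R), g' ∉ P ∧ (∀ j, f' j = 0 ∨ ∃ i, f' j = F i) ∧
      ∀ a ∈ I, g' * a ∈ Ideal.span (Set.range f') := by
  have key : ∀ t : ℕ, ∃ (e : Fin c → R) (s : R), s ∉ P ∧ (∀ j, e j ∈ I) ∧
      (∀ j : Fin c, j.val < t → e j = 0 ∨ ∃ i, e j = F i) ∧
      ∀ a ∈ I, s * a ∈ Ideal.span (Set.range e) := by
    intro t
    induction t with
    | zero => exact ⟨f, g, hg, hf, fun j hj => absurd hj (Nat.not_lt_zero _), hgf⟩
    | succ t ih =>
      obtain ⟨e, s, hs, he, hsel, hgen⟩ := ih
      by_cases ht : t < c
      · obtain ⟨j, hj⟩ : ∃ j : Fin c, j.val = t := ⟨⟨t, ht⟩, rfl⟩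
        have hFI : ∀ i, F i ∈ I := fun i => by
          rw [hF]
          exact Ideal.subset_span ⟨i, rfl⟩
        have hFi : ∀ i, ∃ a : Fin c → R, ∑ l, a l * e l = s * F i := fun i =>
          Ideal.mem_span_range_iff_exists_fun.1 (hgen (F i) (hFI i))
        choose a ha using hFi
        obtain ⟨b, hb⟩ : ∃ b : Fin r → R, ∑ i, b i * F i = e j := by
          have h1 := he j
          rw [hF] at h1
          exact Ideal.mem_span_range_iff_exists_fun.1 h1
        have main : ∀ y v : R, y ∈ I → (y = 0 ∨ ∃ i, y = F i) → v ∉ P →
            v * e j ∈ Ideal.span (Set.range (Function.update e j y)) →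
            ∃ (e : Fin c → R) (s : R), s ∉ P ∧ (∀ j, e j ∈ I) ∧
              (∀ j : Fin c, j.val < t + 1 → e j = 0 ∨ ∃ i, e j = F i) ∧
              ∀ a ∈ I, s * a ∈ Ideal.span (Set.range e) := by
          intro y v hyI hy hv hve
          refine ⟨Function.update e j y, v * s, fun h1 => ?_, fun l => ?_, fun l hl => ?_,
            fun x hx => ?_⟩
          · rcases hP.mem_or_mem h1 with h2 | h2
            · exact hv h2
            · exact hs h2
          · by_cases h1 : l = j
            · subst h1
              rw [Function.update_self]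
              exact hyI
            · rw [Function.update_of_ne h1]
              exact he l
          · by_cases h1 : l = j
            · subst h1
              rw [Function.update_self]
              exact hy
            · rw [Function.update_of_ne h1]
              refine hsel l ?_
              have h2 : l.val ≠ j.val := fun h3 => h1 (Fin.ext h3)
              omega
          · rw [mul_assoc]
            exact LciA_upd e j y v hve (hgen x hx)
        by_cases hP' : ∃ i, a i j ∉ P
        · obtain ⟨i, hi⟩ := hP'
          refine main (F i) (a i j) (hFI i) (Or.inr ⟨i, rfl⟩) hi ?_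
          have h1 : a i j * e j = s * F i - ∑ l ∈ Finset.univ.erase j, a i l * e l := by
            rw [← ha i, ← Finset.add_sum_erase Finset.univ (fun l => a i l * e l)
              (Finset.mem_univ j)]
            ring
          rw [h1]
          refine Ideal.sub_mem _ ?_ (LciA_rest e j (F i) (a i))
          exact Ideal.mul_mem_left _ _ (Ideal.subset_span ⟨j, Function.update_self j (F i) e⟩)
        · have hP2 : ∀ i, a i j ∈ P := fun i => by
            by_contra h1
            exact hP' ⟨i, h1⟩
          refine main 0 (s - ∑ i, b i * a i j) (Ideal.zero_mem _) (Or.inl rfl) ?_ ?_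
          · intro h1
            refine hs ?_
            have h2 : ∑ i, b i * a i j ∈ P :=
              Ideal.sum_mem _ fun i _ => Ideal.mul_mem_left _ _ (hP2 i)
            have h3 := Ideal.add_mem _ h1 h2
            rwa [sub_add_cancel] at h3
          · have h1 : s * e j = ∑ l, (∑ i, b i * a i l) * e l := by
              have h2 : s * e j = ∑ i, b i * (s * F i) := by
                rw [← hb, Finset.mul_sum]
                exact Finset.sum_congr rfl fun i _ => by ring
              rw [h2]
              simp_rw [← ha, Finset.mul_sum, Finset.sum_mul]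
              rw [Finset.sum_comm]
              exact Finset.sum_congr rfl fun l _ => Finset.sum_congr rfl fun i _ => by ring
            have h2 : (s - ∑ i, b i * a i j) * e j =
                ∑ l ∈ Finset.univ.erase j, (∑ i, b i * a i l) * e l := by
              rw [sub_mul, h1, ← Finset.add_sum_erase Finset.univ
                (fun l => (∑ i, b i * a i l) * e l) (Finset.mem_univ j)]
              ring
            rw [h2]
            exact LciA_rest e j 0 fun l => ∑ i, b i * a i l
      · exact ⟨e, s, hs, he, fun j hj => hsel j (by omega), hgen⟩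
  obtain ⟨e, s, hs, -, hsel, hgen⟩ := key c
  exact ⟨e, s, hs, fun j => hsel j j.isLt, hgen⟩

end Pool.Agent.MLD.Cox
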