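import Mathlib

/-!
Project COX-L, module LciG: a graded partition of unity.

`gradJ`: `R` is a ring graded by an abelian group, `M₀ ≠ R` a homogeneous ideal, `𝒥` a set of
homogeneous ideals such that every prime ideal `P ⊇ M₀` does not contain some `J ∈ 𝒥`.

Proof.  By Zorn's lemma there is a maximal element `M` of the set of the homogeneous ideals `≠ R`
which contain `M₀` (the union of a nonempty chain of homogeneous proper ideals is one;
`zorn_le_nonempty₀`).  Let `P ⊇ M` be a maximal ideal and `J ∈ 𝒥` with `¬ J ≤ P`.  Then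
`J ⊔ M` is homogeneous (`Ideal.IsHomogeneous.sup`), `≥ M`, and `≠ M` (else `J ≤ M ≤ P`), so
`J ⊔ M = ⊤` and `1 = j + m`, `j ∈ J`, `m ∈ M`.  The components of degree `0`: `1 = j_0 + m_0`,
`j_0 ∈ J`, `m_0 ∈ M` (homogeneous ideals; `1` is of degree `0`).

`colonHom`: the ideal `{a | ∀ b ∈ I, a b ∈ S}` is homogeneous if `I` and `S` are: it is enough to
consider homogeneous `b ∈ I` (`I` is generated by homogeneous elements, in fact every `b ∈ I` is the
sum of its components, which are in `I`); for `b` homogeneous of degree `β` the component of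
degree `α + β` of `a b` is `a_α b`.
-/

set_option autoImplicit false

namespace Pool.Agent.MLD.Cox

universe u v w

/-- the ideal of the `a` with `a I ⊆ S` -/
def colonI {R : Type u} [CommRing R] (S I : Ideal R) : Ideal R where
  carrier := {a | ∀ b ∈ I, a * b ∈ S}
  add_mem' := by
    intro a a' ha ha' b hb
    rw [add_mul]
    exact S.add_mem (ha b hb) (ha' b hb)
  zero_mem' := by
    intro b _
    rw [zero_mul]
    exact S.zero_mem
  smul_mem' := by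
    intro r a ha b hb
    rw [smul_eq_mul, mul_assoc]
    exact S.mul_mem_left r (ha b hb)

theorem mem_colonI {R : Type u} [CommRing R] (S I : Ideal R) (a : R) :
    a ∈ colonI S I ↔ ∀ b ∈ I, a * b ∈ S := Iff.rfl

variable {k : Type w} {R : Type u} [CommRing R] [CommRing k] [Algebra k R] {ι : Type v}
  [DecidableEq ι] [AddCommGroup ι] (𝒜 : ι → Submodule k R) [GradedAlgebra 𝒜]

theorem colonHom (S I : Ideal R) (hS : S.IsHomogeneous 𝒜) (hI : I.IsHomogeneous 𝒜) :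
    (colonI S I).IsHomogeneous 𝒜 := by
  classical
  intro α a ha b hb
  rw [← DirectSum.sum_support_decompose 𝒜 b, Finset.mul_sum]
  refine S.sum_mem fun β _ => ?_
  have h1 : ((DirectSum.decompose 𝒜 b β : 𝒜 β) : R) ∈ I := hI β hb
  have h2 := hS (α + β) (ha _ h1)
  have h3 := DirectSum.coe_decompose_mul_add_of_right_mem 𝒜 (i := α) (j := β) (a := a)
    (DirectSum.decompose 𝒜 b β : 𝒜 β).2
  rw [h3] at h2
  exact h2

theorem gradJ (M₀ : Ideal R) (h0 : M₀.IsHomogeneous 𝒜) (h1 : M₀ ≠ ⊤) (𝒥 : Set (Ideal R))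
    (hJ : ∀ J ∈ 𝒥, J.IsHomogeneous 𝒜)
    (hP : ∀ P : Ideal R, P.IsPrime → M₀ ≤ P → ∃ J ∈ 𝒥, ¬ J ≤ P) :
    ∃ J ∈ 𝒥, ∃ M : Ideal R, M₀ ≤ M ∧ M ≠ ⊤ ∧ ∃ j ∈ J, ∃ n ∈ M, j ∈ 𝒜 0 ∧ n ∈ 𝒜 0 ∧
      j + n = 1 := by
  have hz := zorn_le_nonempty₀ {M : Ideal R | M.IsHomogeneous 𝒜 ∧ M ≠ ⊤} ?_ M₀ ⟨h0, h1⟩
  · obtain ⟨M, hM, hmax⟩ := hz
    obtain ⟨hMh, hMt⟩ := hmax.prop
    obtain ⟨P, hPm, hMP⟩ := Ideal.exists_le_maximal M hMt
    obtain ⟨J, hJm, hJP⟩ := hP P hPm.isPrime (hM.trans hMP)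
    have ht : J ⊔ M = ⊤ := by
      by_contra hne
      have h2 : J ⊔ M ∈ {M : Ideal R | M.IsHomogeneous 𝒜 ∧ M ≠ ⊤} :=
        ⟨(hJ J hJm).sup hMh, hne⟩
      have h3 : J ⊔ M ≤ M := hmax.le_of_ge h2 le_sup_right
      exact hJP ((le_sup_left.trans h3).trans hMP)
    have h4 : (1 : R) ∈ J ⊔ M := by rw [ht]; trivial
    obtain ⟨j, hj, n, hn, hjn⟩ := Submodule.mem_sup.mp h4
    refine ⟨J, hJm, M, hM, hMt, (DirectSum.decompose 𝒜 j 0 : 𝒜 0), hJ J hJm 0 hj,
      (DirectSum.decompose 𝒜 n 0 : 𝒜 0), hMh 0 hn, (DirectSum.decompose 𝒜 j 0 : 𝒜 0).2,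
      (DirectSum.decompose 𝒜 n 0 : 𝒜 0).2, ?_⟩
    have h5 : ((DirectSum.decompose 𝒜 (j + n) 0 : 𝒜 0) : R) = 1 := by
      rw [hjn]
      exact DirectSum.decompose_of_mem_same 𝒜 SetLike.GradedOne.one_mem
    rw [DirectSum.decompose_add] at h5
    simpa using h5
  · intro c hc hch y hy
    refine ⟨sSup c, ⟨Ideal.IsHomogeneous.sSup fun I hI => (hc hI).1, ?_⟩,
      fun z hz => le_sSup hz⟩
    intro htop
    have h2 : (1 : R) ∈ sSup c := by rw [htop]; trivial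
    obtain ⟨I, hI, h3⟩ := (Submodule.mem_sSup_of_directed ⟨y, hy⟩ hch.directedOn).mp h2
    exact (hc hI).2 ((Ideal.eq_top_iff_one I).mpr h3)

end Pool.Agent.MLD.Cox
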