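import Pool.Agent.Lib.MP_f23696_ag.Z.LciA
import Pool.Agent.Lib.MP_f23696_ag.Z.LciG
import Pool.Agent.Lib.MP_f23696_ag.Y.CoxB
import Pool.Agent.Lib.MP_f23696_ag.Z.CDefs

/-!
Project COX-L, module LciB: the relations between the generators of the ring of sections over a
neighbourhood of a point.

`relI k ξ χ` is the ideal of the relations between the `ξ_i s^(χ_i)`.

* `rel_ker`: `relI ≤ ker (aeval ξ)` (generators).
* `rel_hom`: `relI` is homogeneous for the grading `weightedHomogeneousSubmodule k χ`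
  (`lciGr`): it is generated by homogeneous elements
  (`Ideal.homogeneous_span`).
* `rel_fin`: the polynomial ring is Noetherian, so finitely many of the generators generate
  `relI` (`Submodule.fg_span_iff_fg_span_finset_subset` or the like); number them by `Fin r`.
* `goodPt`.  Let `Z = {P | IsWeightedHomogeneous χ P 0 ∧ ∃ a ∈ x, aeval ξ P = a}`,
  `M₀ = relI ⊔ span Z`, homogeneous.  `M₀ ≠ ⊤`: the elements of `M₀` are finite sums of elements
  `a z`, `z ∈ Z`, and `a r`, `r` homogeneous of degree `β` with `aeval ξ r = 0`; the component of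
  degree `0` of `a z` is `a_0 z`, with `aeval ξ (a_0 z) = aeval ξ a_0 * aeval ξ z ∈ x`
  (`aeval ξ a_0 ∈ A` by `hgen` and `sec_zero_iff`), and the component of degree `0` of `a r` is
  `a_(-β) r`, which `aeval ξ` maps to `0`.  So `aeval ξ` of the component of degree `0` of every
  element of `M₀` is in `x`, but it is `1` for `1`.
  `𝒥` = the set of the ideals `colonI (span (range f)) relI`, `f : Fin c → _` with
  `∀ j, ∃ ψ, f j` homogeneous of degree `ψ` and `aeval ξ (f j) = 0`; they are homogeneous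
  (`colonHom`).  For a prime `P ≥ M₀`: `hloc` gives `g ∉ P` and `f`, `sel` with the generators of
  `rel_fin` gives `f'`, `g' ∉ P` (`f' j = 0` or one of the generators, so homogeneous and killed
  by `aeval ξ`), and `g' ∈ colonI (span (range f')) relI`.  `gradJ`: `j₀ + n = 1` with `j₀`, `n` of
  degree `0`, `j₀ ∈ J`, `n ∈ M ≥ M₀`, `M ≠ ⊤`.  `aeval ξ j₀ = a ∈ A` (`hgen`, `sec_zero_iff`);
  if `a ∈ x` then `j₀ ∈ Z ⊆ M`, so `1 ∈ M`.
-/

set_option autoImplicit false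

namespace Pool.Agent.MLD.Cox

open MvPolynomial

universe u v

variable {k : Type u} {K : Type v} [Field k] [Field K] [Algebra k K] (A : Subalgebra k K)
  {h N : ℕ} (E : Fin h → Ideal A →₀ ℤ) (ξ : Fin N → K) (χ : Fin N → Fin h → ℤ)

/-- the grading -/
@[reducible] noncomputable def lciGr : GradedAlgebra (weightedHomogeneousSubmodule k χ) :=
  weightedGradedAlgebra k χ

attribute [local instance] lciGr

theorem rel_ker (P : MvPolynomial (Fin N) k) (hP : P ∈ relI k ξ χ) : aeval ξ P = 0 := by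
  have h1 : relI k ξ χ ≤ RingHom.ker (aeval ξ : MvPolynomial (Fin N) k →ₐ[k] K) := by
    unfold relI
    rw [Ideal.span_le]
    rintro Q ⟨β, _, hQ⟩
    exact RingHom.mem_ker.2 hQ
  exact RingHom.mem_ker.1 (h1 hP)

theorem rel_hom : (relI k ξ χ).IsHomogeneous (weightedHomogeneousSubmodule k χ) := by
  unfold relI
  refine Ideal.homogeneous_span _ _ ?_
  rintro Q ⟨β, hQ, _⟩
  exact ⟨β, (mem_weightedHomogeneousSubmodule k χ β Q).2 hQ⟩

theorem rel_fin : ∃ (r : ℕ) (F : Fin r → MvPolynomial (Fin N) k),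
    (∀ i, ∃ β : Fin h → ℤ, IsWeightedHomogeneous χ (F i) β ∧ aeval ξ (F i) = 0) ∧
      relI k ξ χ = Ideal.span (Set.range F) := by
  have h1 : (relI k ξ χ).FG := IsNoetherian.noetherian _
  unfold relI at h1 ⊢
  obtain ⟨s, hs, hsp⟩ := (Submodule.fg_span_iff_fg_span_finset_subset _).1 h1
  refine ⟨s.card, fun i => (s.equivFin.symm i : MvPolynomial (Fin N) k), ?_, ?_⟩
  · intro i
    exact hs (s.equivFin.symm i).2
  · have h2 : Set.range (fun i => (s.equivFin.symm i : MvPolynomial (Fin N) k)) =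
        (s : Set (MvPolynomial (Fin N) k)) := by
      ext P
      constructor
      · rintro ⟨i, rfl⟩
        exact (s.equivFin.symm i).2
      · intro hP
        exact ⟨s.equivFin ⟨P, hP⟩, by simp⟩
    rw [h2]
    exact hsp

theorem goodPt (hA : Ten.IsGood A) (hgen : SecGen A E ξ χ) (c : ℕ) (x : Ideal A)
    (hx : x ≠ ⊤)
    (hloc : ∀ Q : Ideal (MvPolynomial (Fin N) k), Q.IsPrime → relI k ξ χ ≤ Q →
      (∀ P : MvPolynomial (Fin N) k, IsWeightedHomogeneous χ P 0 →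
        (∃ a ∈ x, aeval ξ P = (a : K)) → P ∈ Q) →
      ∃ g ∉ Q, ∃ f : Fin c → MvPolynomial (Fin N) k, (∀ j, f j ∈ relI k ξ χ) ∧
        ∀ P ∈ relI k ξ χ, g * P ∈ Ideal.span (Set.range f)) :
    ∃ (f : Fin c → MvPolynomial (Fin N) k) (j₀ : MvPolynomial (Fin N) k) (a : A),
      (∀ j, ∃ ψ : Fin h → ℤ, IsWeightedHomogeneous χ (f j) ψ ∧ aeval ξ (f j) = 0) ∧
      IsWeightedHomogeneous χ j₀ 0 ∧ aeval ξ j₀ = (a : K) ∧ a ∉ x ∧
      ∀ P ∈ relI k ξ χ, j₀ * P ∈ Ideal.span (Set.range f) := by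
  classical
  have hAz : ∀ P : MvPolynomial (Fin N) k, IsWeightedHomogeneous χ P 0 →
      ∃ a : A, aeval ξ P = (a : K) := by
    intro P hP
    have h1 : IsSec A E 0 (aeval ξ P) := (hgen 0 _).2 ⟨P, hP, rfl⟩
    exact ⟨⟨aeval ξ P, (sec_zero_iff A E hA _).1 h1⟩, rfl⟩
  let 𝒜 : (Fin h → ℤ) → Submodule k (MvPolynomial (Fin N) k) :=
    weightedHomogeneousSubmodule k χ
  have hmem : ∀ (β : Fin h → ℤ) (P : MvPolynomial (Fin N) k),
      P ∈ 𝒜 β ↔ IsWeightedHomogeneous χ P β := fun β P =>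
    mem_weightedHomogeneousSubmodule k χ β P
  let Rel : Set (MvPolynomial (Fin N) k) :=
    {P | ∃ β : Fin h → ℤ, IsWeightedHomogeneous χ P β ∧ aeval ξ P = 0}
  let Z : Set (MvPolynomial (Fin N) k) :=
    {P | IsWeightedHomogeneous χ P 0 ∧ ∃ a ∈ x, aeval ξ P = (a : K)}
  let M₀ : Ideal (MvPolynomial (Fin N) k) := Ideal.span (Rel ∪ Z)
  have hrelM : relI k ξ χ ≤ M₀ := Ideal.span_mono Set.subset_union_left
  have hZM : ∀ P ∈ Z, P ∈ M₀ := fun P hP => Ideal.subset_span (Or.inr hP)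
  have h0 : M₀.IsHomogeneous 𝒜 := by
    refine Ideal.homogeneous_span _ _ ?_
    rintro Q (⟨β, hQ, _⟩ | ⟨hQ, _⟩)
    · exact ⟨β, (hmem β Q).2 hQ⟩
    · exact ⟨0, (hmem 0 Q).2 hQ⟩
  have hkey : ∀ P ∈ M₀, ∀ a : MvPolynomial (Fin N) k, ∃ c ∈ x,
      aeval ξ ((DirectSum.decompose 𝒜 (a * P) 0 : 𝒜 0) : MvPolynomial (Fin N) k) =
        ((c : A) : K) := by
    intro P hP
    refine Submodule.span_induction
      (p := fun P _ => ∀ a : MvPolynomial (Fin N) k, ∃ c ∈ x,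
        aeval ξ ((DirectSum.decompose 𝒜 (a * P) 0 : 𝒜 0) : MvPolynomial (Fin N) k) =
          ((c : A) : K)) ?_ ?_ ?_ ?_ hP
    · rintro Q (⟨β, hQ, hQ0⟩ | ⟨hQ, b, hb, hQb⟩) a
      · refine ⟨0, x.zero_mem, ?_⟩
        have h1 := DirectSum.coe_decompose_mul_add_of_right_mem 𝒜 (i := -β) (a := a)
          ((hmem β Q).2 hQ)
        rw [neg_add_cancel] at h1
        rw [h1, map_mul, hQ0, mul_zero]
        rfl
      · have h1 := DirectSum.coe_decompose_mul_add_of_right_mem 𝒜 (i := 0) (a := a)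
          ((hmem 0 Q).2 hQ)
        rw [add_zero] at h1
        obtain ⟨d, hd⟩ := hAz _ ((hmem 0 _).1 (DirectSum.decompose 𝒜 a 0).2)
        refine ⟨d * b, x.mul_mem_left d hb, ?_⟩
        rw [h1, map_mul, hd, hQb]
        rfl
    · intro a
      refine ⟨0, x.zero_mem, ?_⟩
      rw [mul_zero, DirectSum.decompose_zero, DirectSum.zero_apply]
      simp
    · intro P Q _ _ h1 h2 a
      obtain ⟨c1, hc1, e1⟩ := h1 a
      obtain ⟨c2, hc2, e2⟩ := h2 a
      refine ⟨c1 + c2, x.add_mem hc1 hc2, ?_⟩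
      rw [mul_add, DirectSum.decompose_add, DirectSum.add_apply, Submodule.coe_add, map_add,
        e1, e2]
      rfl
    · intro r P _ h1 a
      obtain ⟨c1, hc1, e1⟩ := h1 (a * r)
      refine ⟨c1, hc1, ?_⟩
      rw [smul_eq_mul, ← mul_assoc]
      exact e1
  have hone : (1 : MvPolynomial (Fin N) k) ∈ 𝒜 0 := (hmem 0 _).2 (isWeightedHomogeneous_one k χ)
  have h1 : M₀ ≠ ⊤ := by
    intro htop
    obtain ⟨c, hc, hce⟩ := hkey 1 (htop ▸ Submodule.mem_top) 1
    rw [mul_one, DirectSum.decompose_of_mem_same 𝒜 hone, map_one] at hce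
    apply hx
    rw [Ideal.eq_top_iff_one]
    have h2 : c = 1 := Subtype.ext hce.symm
    exact h2 ▸ hc
  have hHom : ∀ f : Fin c → MvPolynomial (Fin N) k,
      (∀ j, ∃ ψ : Fin h → ℤ, IsWeightedHomogeneous χ (f j) ψ ∧ aeval ξ (f j) = 0) →
      (colonI (Ideal.span (Set.range f)) (relI k ξ χ)).IsHomogeneous 𝒜 := by
    intro f hf
    refine colonHom 𝒜 _ _ ?_ (rel_hom ξ χ)
    refine Ideal.homogeneous_span _ _ ?_
    rintro _ ⟨j, rfl⟩
    obtain ⟨ψ, hψ, _⟩ := hf j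
    exact ⟨ψ, (hmem ψ _).2 hψ⟩
  obtain ⟨r, F, hF, hFI⟩ := rel_fin (k := k) ξ χ
  obtain ⟨J, hJ, M, hM0, hMt, j₀, hj₀, n, hn, hj0, hn0, hjn⟩ :=
    gradJ 𝒜 M₀ h0 h1
      {J | ∃ f : Fin c → MvPolynomial (Fin N) k,
        (∀ j, ∃ ψ : Fin h → ℤ, IsWeightedHomogeneous χ (f j) ψ ∧ aeval ξ (f j) = 0) ∧
        J = colonI (Ideal.span (Set.range f)) (relI k ξ χ)}
      (by
        rintro J ⟨f, hf, rfl⟩
        exact hHom f hf)
      (by
        intro P hP hM
        obtain ⟨g, hg, f, hf, hgf⟩ := hloc P hP (hrelM.trans hM) (fun Q hQ hQa =>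
          hM (hZM Q ⟨hQ, hQa⟩))
        obtain ⟨f', g', hg', hf', hgf'⟩ := sel (relI k ξ χ) P hP F hFI g hg f hf hgf
        refine ⟨_, ⟨f', fun j => ?_, rfl⟩, fun hle => hg' (hle ?_)⟩
        · rcases hf' j with h2 | ⟨i, h2⟩
          · exact ⟨0, h2 ▸ isWeightedHomogeneous_zero k χ 0, by rw [h2, map_zero]⟩
          · rw [h2]
            exact hF i
        · exact (mem_colonI _ _ _).2 hgf')
  obtain ⟨f, hf, rfl⟩ := hJ
  obtain ⟨a, ha⟩ := hAz j₀ ((hmem 0 _).1 hj0)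
  refine ⟨f, j₀, a, hf, (hmem 0 _).1 hj0, ha, ?_, (mem_colonI _ _ _).1 hj₀⟩
  intro hax
  apply hMt
  rw [Ideal.eq_top_iff_one, ← hjn]
  exact M.add_mem (hM0 (hZM j₀ ⟨(hmem 0 _).1 hj0, a, hax, ha⟩)) hn

end Pool.Agent.MLD.Cox
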