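import Mathlib

/-!
Project COX-L, module LciP: relations after the inversion of an element of degree `0`.

The variable `X_0` stands for `1/g`, `g = j(ξ)`; `ren = rename Fin.succ`.
* `ren_hom`: `rename Fin.succ` preserves the degrees for `Fin.cons 0 χ` (`Fin.cons 0 χ ∘ succ = χ`;
  `IsWeightedHomogeneous` and `rename`: coefficients of `rename` for an injective map, or
  induction on the monomials).
* `ren_eval`: `aeval_rename`, `Fin.cons_succ`.
* `dec`: a polynomial `P` in `X_0, …, X_N`, homogeneous of degree `β` for the weights `Fin.cons 0 χ`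
  is `∑_(n < M) X_0^n ren(P_n)` with `P_n` homogeneous of degree `β` (`P` is a sum of monomials
  `c X_0^(d 0) X^(d ∘ succ)` of degree `β`; group them by `d 0`).
* `relG`: `→`: let `P = ∑_(n < M) X_0^n ren(P_n)` with `P(1/g, ξ) = 0`; `Q = ∑_(n < M) j^(M-n) P_n`
  is homogeneous of degree `β` and `Q(ξ) = ∑ g^(M-n) P_n(ξ) = g^M P(1/g, ξ) = 0`, so
  `j Q ∈ span (range f)` (`hj`), so `ren(j Q) ∈ S`, `S` the ideal of the right hand side.  Modulo
  `S`: `X_0 ren(j) = 1`, `P = X_0^M ren(j)^M P = X_0^M ren(Q) = X_0^(M+1) ren(j Q) = 0`.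
  `←`: the generators are killed by `aeval (Fin.cons (aeval ξ j)⁻¹ ξ)`.
-/

set_option autoImplicit false

namespace Pool.Agent.MLD.Cox

open MvPolynomial

universe u v

variable {k : Type u} {K : Type v} [Field k] [Field K] [Algebra k K] {h N : ℕ}
  (χ : Fin N → Fin h → ℤ)

theorem ren_hom (P : MvPolynomial (Fin N) k) (β : Fin h → ℤ) (hP : IsWeightedHomogeneous χ P β) :
    IsWeightedHomogeneous (Fin.cons (0 : Fin h → ℤ) χ : Fin (N + 1) → Fin h → ℤ)
      (rename Fin.succ P) β := by
  classical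
  intro d hd
  obtain ⟨u, hu, hc⟩ := coeff_rename_ne_zero _ _ _ hd
  rw [← hu, ← hP hc, Finsupp.weight_apply, Finsupp.weight_apply,
    Finsupp.sum_mapDomain_index (by simp) (by intro b m n; simp [add_smul])]
  simp

theorem ren_eval (ξ : Fin N → K) (w : K) (P : MvPolynomial (Fin N) k) :
    aeval (Fin.cons w ξ : Fin (N + 1) → K) (rename Fin.succ P) = aeval ξ P := by
  rw [aeval_rename]
  congr 1

theorem dec (P : MvPolynomial (Fin (N + 1)) k) (β : Fin h → ℤ)
    (hP : IsWeightedHomogeneous (Fin.cons (0 : Fin h → ℤ) χ : Fin (N + 1) → Fin h → ℤ) P β) :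
    ∃ (M : ℕ) (p : ℕ → MvPolynomial (Fin N) k), (∀ n, IsWeightedHomogeneous χ (p n) β) ∧
      P = ∑ n ∈ Finset.range M, X 0 ^ n * rename Fin.succ (p n) := by
  classical
  have hw : ∀ d : Fin (N + 1) →₀ ℕ,
      Finsupp.weight (Fin.cons (0 : Fin h → ℤ) χ : Fin (N + 1) → Fin h → ℤ) d
        = Finsupp.weight χ (Finsupp.tail d) := by
    intro d
    rw [Finsupp.weight_apply, Finsupp.weight_apply, Finsupp.sum_fintype _ _ (by simp),
      Finsupp.sum_fintype _ _ (by simp), Fin.sum_univ_succ]
    simp [Finsupp.tail_apply]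
  have hm : ∀ (d : Fin (N + 1) →₀ ℕ) (a : k),
      monomial d a = X 0 ^ (d 0) * rename Fin.succ (monomial (Finsupp.tail d) a) := by
    intro d a
    have h1 : Finsupp.single 0 (d 0) + Finsupp.mapDomain Fin.succ (Finsupp.tail d) = d := by
      ext i
      refine Fin.cases ?_ (fun i => ?_) i
      · rw [Finsupp.add_apply, Finsupp.single_eq_same, Finsupp.mapDomain_of_notMem_range, add_zero]
        rintro ⟨a, ha⟩
        exact Fin.succ_ne_zero a ha
      · rw [Finsupp.add_apply, Finsupp.mapDomain_apply (Fin.succ_injective N),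
          Finsupp.single_eq_of_ne (by simp), zero_add, Finsupp.tail_apply]
    rw [rename_monomial, X_pow_eq_monomial, monomial_mul, one_mul, h1]
  refine ⟨P.support.sup (fun d => d 0) + 1,
    fun n => ∑ d ∈ P.support.filter (fun d => d 0 = n), monomial (Finsupp.tail d) (coeff d P),
    fun n => ?_, ?_⟩
  · refine (mem_weightedHomogeneousSubmodule k χ β _).1 (Submodule.sum_mem _ fun d hd => ?_)
    rw [mem_weightedHomogeneousSubmodule]
    refine isWeightedHomogeneous_monomial _ _ _ ?_
    rw [← hw]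
    exact hP (mem_support_iff.1 (Finset.mem_filter.1 hd).1)
  · conv_lhs => rw [← support_sum_monomial_coeff P]
    rw [← Finset.sum_fiberwise_of_maps_to (t := Finset.range (P.support.sup (fun d => d 0) + 1))
      (g := fun d => d 0) (fun d hd => Finset.mem_range.2
        (Nat.lt_succ_of_le (Finset.le_sup (f := fun d : Fin (N + 1) →₀ ℕ => d 0) hd)))]
    refine Finset.sum_congr rfl fun n _ => ?_
    rw [map_sum, Finset.mul_sum]
    refine Finset.sum_congr rfl fun d hd => ?_
    rw [hm d, (Finset.mem_filter.1 hd).2]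

theorem relG {c : ℕ} (ξ : Fin N → K) (f : Fin c → MvPolynomial (Fin N) k)
    (hf : ∀ j, aeval ξ (f j) = 0) (j : MvPolynomial (Fin N) k) (hj0 : IsWeightedHomogeneous χ j 0)
    (hj1 : aeval ξ j ≠ 0)
    (hj : ∀ (β : Fin h → ℤ) (P : MvPolynomial (Fin N) k), IsWeightedHomogeneous χ P β →
      aeval ξ P = 0 → j * P ∈ Ideal.span (Set.range f)) (β : Fin h → ℤ)
    (P : MvPolynomial (Fin (N + 1)) k)
    (hP : IsWeightedHomogeneous (Fin.cons (0 : Fin h → ℤ) χ : Fin (N + 1) → Fin h → ℤ) P β) :
    aeval (Fin.cons (aeval ξ j)⁻¹ ξ : Fin (N + 1) → K) P = 0 ↔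
      P ∈ Ideal.span (Set.range (Fin.cons (X 0 * rename Fin.succ j - 1)
        (fun i => rename Fin.succ (f i)) : Fin (c + 1) → MvPolynomial (Fin (N + 1)) k)) := by
  classical
  set S : Ideal (MvPolynomial (Fin (N + 1)) k) :=
    Ideal.span (Set.range (Fin.cons (X 0 * rename Fin.succ j - 1)
        (fun i => rename Fin.succ (f i)) : Fin (c + 1) → MvPolynomial (Fin (N + 1)) k)) with hS
  have hS0 : X 0 * rename Fin.succ j - 1 ∈ S := Ideal.subset_span ⟨0, by simp⟩
  have hS1 : ∀ i, rename Fin.succ (f i) ∈ S := fun i => Ideal.subset_span ⟨i.succ, by simp⟩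
  constructor
  · intro h0
    obtain ⟨M, p, hp, hPe⟩ := dec χ P β hP
    set Q : MvPolynomial (Fin N) k := ∑ n ∈ Finset.range M, j ^ (M - n) * p n with hQ
    have hQh : IsWeightedHomogeneous χ Q β := by
      refine (mem_weightedHomogeneousSubmodule k χ β _).1 (Submodule.sum_mem _ fun n _ => ?_)
      rw [mem_weightedHomogeneousSubmodule]
      have h1 := (hj0.pow (M - n)).mul (hp n)
      rwa [smul_zero, zero_add] at h1
    have hQ0 : aeval ξ Q = 0 := by
      have h2 : aeval ξ Q = (aeval ξ j) ^ M *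
          aeval (Fin.cons (aeval ξ j)⁻¹ ξ : Fin (N + 1) → K) P := by
        rw [hPe, hQ, map_sum, map_sum, Finset.mul_sum]
        refine Finset.sum_congr rfl fun n hn => ?_
        have hn' : n ≤ M := (Finset.mem_range.1 hn).le
        rw [map_mul, map_mul, map_pow, map_pow, aeval_X, ren_eval, Fin.cons_zero, ← mul_assoc]
        congr 1
        rw [inv_pow, ← div_eq_mul_inv, eq_div_iff (pow_ne_zero _ hj1), ← pow_add,
          Nat.sub_add_cancel hn']
      rw [h2, h0, mul_zero]
    have h3 := hj β Q hQh hQ0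
    have h4 : rename Fin.succ (j * Q) ∈ S := by
      have h5 : Ideal.span (Set.range f) ≤ Ideal.comap (rename Fin.succ).toRingHom S := by
        rw [Ideal.span_le]
        rintro _ ⟨i, rfl⟩
        exact hS1 i
      exact h5 h3
    have h6 : Ideal.Quotient.mk S (X 0) * Ideal.Quotient.mk S (rename Fin.succ j) = 1 := by
      rw [← map_mul, ← map_one (Ideal.Quotient.mk S)]
      exact Ideal.Quotient.eq.2 hS0
    have h7 : Ideal.Quotient.mk S (rename Fin.succ j) *
        Ideal.Quotient.mk S (rename Fin.succ Q) = 0 := by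
      rw [← map_mul, ← map_mul]
      exact Ideal.Quotient.eq_zero_iff_mem.2 h4
    have h8 : Ideal.Quotient.mk S (rename Fin.succ Q) = 0 := by
      calc Ideal.Quotient.mk S (rename Fin.succ Q)
          = (Ideal.Quotient.mk S (X 0) * Ideal.Quotient.mk S (rename Fin.succ j)) *
            Ideal.Quotient.mk S (rename Fin.succ Q) := by rw [h6, one_mul]
        _ = Ideal.Quotient.mk S (X 0) * (Ideal.Quotient.mk S (rename Fin.succ j) *
            Ideal.Quotient.mk S (rename Fin.succ Q)) := by rw [mul_assoc]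
        _ = 0 := by rw [h7, mul_zero]
    have h9 : Ideal.Quotient.mk S P = Ideal.Quotient.mk S (X 0) ^ M *
        Ideal.Quotient.mk S (rename Fin.succ Q) := by
      rw [hPe, hQ, map_sum, map_sum, map_sum, Finset.mul_sum]
      refine Finset.sum_congr rfl fun n hn => ?_
      have hn' : n ≤ M := (Finset.mem_range.1 hn).le
      rw [map_mul, map_mul, map_mul, map_pow, map_pow, map_pow, ← mul_assoc]
      congr 1
      have h10 : M = n + (M - n) := by omega
      calc Ideal.Quotient.mk S (X 0) ^ n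
          = Ideal.Quotient.mk S (X 0) ^ n * (Ideal.Quotient.mk S (X 0) *
            Ideal.Quotient.mk S (rename Fin.succ j)) ^ (M - n) := by rw [h6, one_pow, mul_one]
        _ = Ideal.Quotient.mk S (X 0) ^ (n + (M - n)) *
            Ideal.Quotient.mk S (rename Fin.succ j) ^ (M - n) := by
            rw [mul_pow, ← mul_assoc, ← pow_add]
        _ = Ideal.Quotient.mk S (X 0) ^ M *
            Ideal.Quotient.mk S (rename Fin.succ j) ^ (M - n) := by rw [← h10]
    rw [h8, mul_zero] at h9
    exact Ideal.Quotient.eq_zero_iff_mem.1 h9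
  · intro hPS
    have h11 : S ≤ RingHom.ker (aeval (Fin.cons (aeval ξ j)⁻¹ ξ : Fin (N + 1) → K) :
        MvPolynomial (Fin (N + 1)) k →ₐ[k] K) := by
      rw [hS, Ideal.span_le]
      rintro _ ⟨i, rfl⟩
      refine Fin.cases ?_ (fun i => ?_) i
      · rw [Fin.cons_zero, SetLike.mem_coe, RingHom.mem_ker, map_sub, map_mul, map_one, aeval_X,
          ren_eval, Fin.cons_zero, inv_mul_cancel₀ hj1, sub_self]
      · rw [Fin.cons_succ, SetLike.mem_coe, RingHom.mem_ker, ren_eval, hf]
    exact RingHom.mem_ker.1 (h11 hPS)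

end Pool.Agent.MLD.Cox
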