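import Pool.Agent.Lib.MP_f23696_ag.Z.LocB
import Pool.Agent.Lib.MP_f23696_ag.Y.CoxA

/-!
Project COX-L, module LocS: sections over the open subset `g ≠ 0`.

`locSec`.  `←`: let `b g^n` be a section over `Spec A` of `∑ β_l E_l`; let `P` be of height one in
`locA A g`, `v` with centre `P`, `b ≠ 0`: `dn P` is of height one, `v` has centre `dn P` on `A`,
`g ∉ dn P` (`g_not_mem`), so `v g = 0`, and `0 ≤ v (b g^n) + ∑ β_l E_l(dn P) = v b + ∑ β_l E'_l(P)`.
`→`: if `b = 0` take `n = 0`.  Let `b ≠ 0` be a section over `Spec A[1/g]`.  For `p` of height one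
let `v_p` be the valuation with centre `p` (`dvr`; it is the only one, `dvr_unique`).  If `g ∉ p`
there is `P` with `dn P = p` (`locUp`), of height one, so `v_p b + ∑ β_l E_l(p) ≥ 0`.  There are
only
finitely many `p` of height one with `g ∈ p` (`finite_heightOne`), and for them `v_p g ≥ 1`, so for
`n` large (larger than all `|v_p b + ∑ β_l E_l(p)|`) `v_p (b g^n) + ∑ β_l E_l(p) ≥ 0` for all `p`
(`v_p g ≥ 0` always).
-/

set_option autoImplicit false

namespace Pool.Agent.MLD.Cox

universe u v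

variable {k : Type u} {K : Type v} [Field k] [Field K] [Algebra k K] (A : Subalgebra k K) (g : A)
  (hg : g ≠ 0)

theorem locSec (hA : Ten.IsGood A) {h : ℕ} (E : Fin h → Ideal A →₀ ℤ) (β : Fin h → ℤ) (b : K) :
    IsSec (locA A g) (fun l => locD A g hg (E l)) β b ↔
      ∃ n : ℕ, IsSec A E β (b * (g : K) ^ n) := by
  have hg' : (g : K) ≠ 0 := fun h0 => hg (Subtype.ext h0)
  have hN := Ten.Ind.noeth A hA.fg
  have hpow : ∀ n : ℕ, (g : K) ^ n ≠ 0 := fun n => pow_ne_zero n hg'
  have hord : ∀ (w : DVal k K) (n : ℕ), b ≠ 0 →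
      w.ord (b * (g : K) ^ n) = w.ord b + (n : ℤ) * w.ord (g : K) := by
    intro w n hb0
    rw [w.ord_mul _ _ hb0 (hpow n), Jac.ord_pow w _ hg' n]
  have hsum : ∀ P : Ideal (locA A g),
      ∑ l, β l * locD A g hg (E l) P = ∑ l, β l * E l (dn A g P) := fun P =>
    Finset.sum_congr rfl fun l _ => by rw [locD_apply A g hg (E l) P]
  constructor
  · intro hb
    by_cases hb0 : b = 0
    · refine ⟨0, ?_⟩
      rw [hb0, zero_mul]
      exact IsSec.zero A E β
    have hF : {q : Ideal A | IsHeightOne q ∧ g ∈ q}.Finite := finite_heightOne A hN g hg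
    have hn : ∀ p : Ideal A, ∃ n : ℕ, IsHeightOne p → ∀ w : DVal k K, w.HasCenter A p →
        0 ≤ w.ord b + ∑ l, β l * E l p + n := by
      intro p
      by_cases hp : IsHeightOne p
      · obtain ⟨w, hw, -⟩ := dvr A hN hA.frac hA.norm p hp
        refine ⟨(-(w.ord b + ∑ l, β l * E l p)).toNat, fun _ w' hw' => ?_⟩
        rw [dvr_unique A hN hA.frac hA.norm p hp w' w hw' hw b hb0]
        have := Int.self_le_toNat (-(w.ord b + ∑ l, β l * E l p))
        omega
      · exact ⟨0, fun h => absurd h hp⟩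
    choose n hn using hn
    refine ⟨hF.toFinset.sup n, ?_⟩
    intro p hp w hw _
    rw [hord w _ hb0]
    by_cases hgp : g ∈ p
    · have h1 : n p ≤ hF.toFinset.sup n :=
        Finset.le_sup (f := n) (hF.mem_toFinset.2 ⟨hp, hgp⟩)
      have h2 : 1 ≤ w.ord (g : K) := ((hw.2 g).1 hgp) hg'
      have h3 := hn p hp w hw
      have h4 : ((hF.toFinset.sup n : ℕ) : ℤ) * 1 ≤
          ((hF.toFinset.sup n : ℕ) : ℤ) * w.ord (g : K) :=
        mul_le_mul_of_nonneg_left h2 (Int.natCast_nonneg _)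
      have h5 : (n p : ℤ) ≤ ((hF.toFinset.sup n : ℕ) : ℤ) := by exact_mod_cast h1
      linarith
    · obtain ⟨P, hP, hPp⟩ := locUp A g hg p hp.1 hgp
      have h1 : IsHeightOne P := (dn_h1 A g hg P).2 (by rw [hPp]; exact hp)
      have h2 : w.HasCenter (locA A g) P := (center_iff A g hg w P hP).2 (by rw [hPp]; exact hw)
      have h3 := hb P h1 w h2 hb0
      have h4 : w.ord (g : K) = 0 := (Ten.Ind.out w hw hgp).2
      have h5 : ∑ l, β l * locD A g hg (E l) P = ∑ l, β l * E l p := by rw [hsum P, hPp]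
      have h6 : 0 ≤ w.ord b + ∑ l, β l * E l p := by
        rw [← h5]
        exact h3
      rw [h4, mul_zero, add_zero]
      exact h6
  · rintro ⟨n, hb⟩ P hP w hw hb0
    have hw' : w.HasCenter A (dn A g P) := (center_iff A g hg w P hP.1).1 hw
    have hgP : g ∉ dn A g P := g_not_mem A g hg P hP.1.ne_top
    have h1 := hb (dn A g P) ((dn_h1 A g hg P).1 hP) w hw' (mul_ne_zero hb0 (hpow n))
    have h2 : w.ord (g : K) = 0 := (Ten.Ind.out w hw' hgP).2
    rw [hord w n hb0, h2, mul_zero, add_zero] at h1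
    have h5 := hsum P
    rw [← h5] at h1
    exact h1

end Pool.Agent.MLD.Cox
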