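import Pool.Agent.Lib.MP_f23696_ag.Z.LciB
import Pool.Agent.Lib.MP_f23696_ag.Z.LciP
import Pool.Agent.Lib.MP_f23696_ag.Z.LocS
import Pool.Agent.Lib.MP_f23696_ag.Z.Gal

/-!
Project COX-L, module LciC: a ring of sections which is locally a complete intersection is a
complete intersection over a neighbourhood of every point.

`lciC`.  Let `g = a`, `a ≠ 0` because `a ∉ x`.  Data for `HasCIRing (locA A a) n`: `h`, `N + 1`,
`c + 1`, `E' l = locD A a ha (E l)`, `Fin.cons a⁻¹ ξ`, `Fin.cons 0 χ`,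
`Fin.cons (X 0 * rename succ j₀ - 1) (fun i => rename succ (f i))`.
* `N + 1 = n + h + (c + 1)`; all `≠ 0`.
* homogeneous: `ren_hom`; `X 0 * rename succ j₀ - 1` is of degree `0` (`X 0` is of degree `0`).
* generators: `→`: by `locSec` `b a^n` is a section over `A`, `= aeval ξ P`, and
  `b = aeval (X 0 ^ n * rename succ P)`.  `←`: `dec`: `b = ∑_n a^(-n) P_n(ξ)`, and
  `a^(-n) P_n(ξ)` is a section by `locSec`; `IsSec.add`, `IsSec.zero`.
* relations: `relG` (`a = aeval ξ j₀`; `hj`: a homogeneous `P` with `aeval ξ P = 0` is in `relI`).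

`ciLoc`: `HasLCIRing` at `x` gives `goodPt`, then `lciC`.
-/

set_option autoImplicit false

namespace Pool.Agent.MLD.Cox

open MvPolynomial

universe u v

variable {k : Type u} {K : Type v} [Field k] [Field K] [Algebra k K] (A : Subalgebra k K)

theorem lciC (hA : Ten.IsGood A) {h N c n : ℕ} (E : Fin h → Ideal A →₀ ℤ) (ξ : Fin N → K)
    (χ : Fin N → Fin h → ℤ) (hN : N = n + h + c) (hξ : ∀ i, ξ i ≠ 0)
    (hgen : SecGen A E ξ χ) (f : Fin c → MvPolynomial (Fin N) k)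
    (hf : ∀ j, ∃ ψ : Fin h → ℤ, IsWeightedHomogeneous χ (f j) ψ ∧ aeval ξ (f j) = 0)
    (j₀ : MvPolynomial (Fin N) k) (hj₀ : IsWeightedHomogeneous χ j₀ 0) (a : A) (ha0 : a ≠ 0)
    (ha : aeval ξ j₀ = (a : K))
    (hrel : ∀ P ∈ relI k ξ χ, j₀ * P ∈ Ideal.span (Set.range f)) :
    HasCIRing (locA A a) n := by
  have haK : (a : K) ≠ 0 := fun h0 => ha0 (Subtype.ext h0)
  have hj1 : aeval ξ j₀ ≠ 0 := by
    rw [ha]
    exact haK
  have hX : ∀ m : ℕ, IsWeightedHomogeneous (Fin.cons (0 : Fin h → ℤ) χ : Fin (N + 1) → Fin h → ℤ)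
      (X 0 ^ m : MvPolynomial (Fin (N + 1)) k) 0 := by
    intro m
    have h1 := (isWeightedHomogeneous_X k
      (Fin.cons (0 : Fin h → ℤ) χ : Fin (N + 1) → Fin h → ℤ) 0).pow m
    rw [Fin.cons_zero, smul_zero] at h1
    exact h1
  refine ⟨h, N + 1, c + 1, fun l => locD A a ha0 (E l), Fin.cons (aeval ξ j₀)⁻¹ ξ,
    Fin.cons 0 χ, Fin.cons (X 0 * rename Fin.succ j₀ - 1) (fun i => rename Fin.succ (f i)),
    by omega, ?_, ?_, ?_, ?_⟩
  · intro i
    refine Fin.cases ?_ (fun i => ?_) i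
    · rw [Fin.cons_zero]
      exact inv_ne_zero hj1
    · rw [Fin.cons_succ]
      exact hξ i
  · intro j
    refine Fin.cases ?_ (fun j => ?_) j
    · refine ⟨0, ?_⟩
      rw [Fin.cons_zero]
      have h1 := (hX 1).mul (ren_hom χ j₀ 0 hj₀)
      rw [pow_one, add_zero] at h1
      have h2 := isWeightedHomogeneous_one k
        (Fin.cons (0 : Fin h → ℤ) χ : Fin (N + 1) → Fin h → ℤ)
      rw [← mem_weightedHomogeneousSubmodule] at h1 h2 ⊢
      exact Submodule.sub_mem _ h1 h2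
    · obtain ⟨ψ, hψ, _⟩ := hf j
      refine ⟨ψ, ?_⟩
      rw [Fin.cons_succ]
      exact ren_hom χ (f j) ψ hψ
  · intro β b
    constructor
    · intro hb
      obtain ⟨m, hm⟩ := (locSec A a ha0 hA E β b).1 hb
      obtain ⟨P, hP, hPe⟩ := (hgen β _).1 hm
      refine ⟨X 0 ^ m * rename Fin.succ P, ?_, ?_⟩
      · have h1 := (hX m).mul (ren_hom χ P β hP)
        rw [zero_add] at h1
        exact h1
      · rw [map_mul, map_pow, aeval_X, ren_eval, Fin.cons_zero, ← hPe, ha, inv_pow]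
        field_simp
    · rintro ⟨P, hP, rfl⟩
      obtain ⟨M, p, hp, rfl⟩ := dec χ P β hP
      rw [map_sum]
      refine Finset.sum_induction _ (fun z => IsSec (locA A a) (fun l => locD A a ha0 (E l)) β z)
        (fun x y hx hy => IsSec.add _ _ hx hy) (IsSec.zero _ _ β) ?_
      intro m _
      refine (locSec A a ha0 hA E β _).2 ⟨m, ?_⟩
      rw [map_mul, map_pow, aeval_X, ren_eval, Fin.cons_zero, ha]
      have h1 : ((a : K)⁻¹) ^ m * aeval ξ (p m) * (a : K) ^ m = aeval ξ (p m) := by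
        rw [inv_pow]
        field_simp
      rw [h1]
      exact (hgen β _).2 ⟨p m, hp m, rfl⟩
  · intro β P hP
    refine relG χ ξ f ?_ j₀ hj₀ hj1 ?_ β P hP
    · intro j
      obtain ⟨_, _, h0⟩ := hf j
      exact h0
    · intro β' Q hQ hQ0
      exact hrel Q (Ideal.subset_span ⟨β', hQ, hQ0⟩)

theorem ciLoc (hA : Ten.IsGood A) {n : ℕ} (hlci : HasLCIRing A n) (x : MaximalSpectrum A) :
    ∃ a : A, a ∉ x.asIdeal ∧ HasCIRing (locA A a) n := by
  obtain ⟨h, N, c, E, ξ, χ, hN, hξ, hgen, hloc⟩ := hlci x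
  obtain ⟨f, j₀, a, hf, hj₀, ha, hax, hrel⟩ :=
    goodPt A E ξ χ hA hgen c x.asIdeal x.isMaximal.ne_top hloc
  refine ⟨a, hax, ?_⟩
  have ha0 : a ≠ 0 := by
    rintro rfl
    exact hax x.asIdeal.zero_mem
  exact lciC A hA E ξ χ hN hξ hgen f hf j₀ hj₀ a ha0 ha hrel

end Pool.Agent.MLD.Cox
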