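import Pool.Agent.Lib.MP_f23696_ag.Z.LciC

/-!
Project COX-L, module LciM: the inequality for quotients of varieties whose rings of sections are
locally complete intersections.

* `ciIneq`: as in the proof of `galMain` (Z/Gal.lean): `coxMain` with the data of `HasCIRing`
  (`IsFractionRing`, `IsIntegrallyClosed` from `hB`), the dimension `d'` it gives is `≤ d`.
* `lciIneq`: `loc_ineq` with `ciLoc`, `loc_good` and `ciIneq`.
* `lciMain`: as `galMain`, with `lciIneq` instead of `ciIneq` (`galIneq`, `intCl_good`).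
-/

set_option autoImplicit false

namespace Pool.Agent.MLD.Cox

open MvPolynomial

universe u v

private theorem LciM_dim {k : Type u} {K : Type v} [Field k] [Field K] [Algebra k K]
    (A : Subalgebra k K) (hfg : A.FG) (q : Ideal A) (hq : q.IsPrime) :
    ∃ d : ℕ, ringKrullDim (A ⧸ q) = d := by
  have h0 : Algebra.FiniteType k A := (Subalgebra.fg_iff_finiteType A).1 hfg
  obtain ⟨n, f, hf⟩ := Algebra.FiniteType.iff_quotient_mvPolynomial''.1 h0
  have h1 : ringKrullDim (A ⧸ q) ≤ (n : ℕ) := by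
    refine (ringKrullDim_quotient_le q).trans ?_
    refine (ringKrullDim_le_of_surjective f.toRingHom hf).trans ?_
    rw [MvPolynomial.ringKrullDim_of_isNoetherianRing, ringKrullDim_eq_zero_of_field, zero_add,
      Nat.card_eq_fintype_card, Fintype.card_fin]
  have h2 : Nontrivial (A ⧸ q) := Ideal.Quotient.nontrivial_iff.2 hq.ne_top
  have h3 : 0 ≤ ringKrullDim (A ⧸ q) := ringKrullDim_nonneg_of_nontrivial
  obtain ⟨e, he⟩ : ∃ e : WithBot ℕ∞, e = ringKrullDim (A ⧸ q) := ⟨_, rfl⟩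
  rw [← he] at h1 h3 ⊢
  induction e using WithBot.recBotCoe with
  | bot => exact absurd h3 (by simp)
  | coe e =>
    have h4 : e ≤ (n : ℕ∞) := by exact_mod_cast h1
    have h5 : e ≠ ⊤ := ne_top_of_le_ne_top (ENat.natCast_ne_top n) h4
    obtain ⟨d, hd⟩ := ENat.ne_top_iff_exists.1 h5
    refine ⟨d, ?_⟩
    rw [← hd]
    rfl

section

variable {k : Type u} {K : Type v} [Field k] [IsAlgClosed k] [CharZero k] [Field K] [Algebra k K]
  (B : Subalgebra k K) (hB : Ten.IsGood B)

include hB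

theorem ciIneq {m : ℕ} (y : Fin (m + 1) → K) (hy : IsTranscendenceBasis k y)
    (D : Fin (m + 1) → Derivation k K K) (hD : ∀ i j, D i (y j) = if i = j then 1 else 0)
    (hci : HasCIRing B (m + 1)) : MldIneq B D := by
  intro δ hδ x hγ q hq hqx d hd
  obtain ⟨h, N, c, E, ξ, χ, f, hN, hξ, hf, hgen, hrel⟩ := hci
  have : IsFractionRing B K := IsFractionRing.of_field B K fun z => by
    obtain ⟨a, b, _, h⟩ := hB.frac z
    exact ⟨a, b, h⟩
  have : IsIntegrallyClosed B := by
    rw [isIntegrallyClosed_iff K]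
    intro x hx
    exact ⟨⟨x, hB.norm x hx⟩, rfl⟩
  obtain ⟨d', hd', h1⟩ := coxMain y hy D hD B hB.fg E ξ hξ χ f hN hf hgen hrel δ hδ x hγ q hq hqx
  rw [hd'] at hd
  have h2 : d' ≤ d := by exact_mod_cast hd
  refine h1.trans (add_le_add le_rfl ?_)
  exact_mod_cast h2

theorem lciIneq {m : ℕ} (y : Fin (m + 1) → K) (hy : IsTranscendenceBasis k y)
    (D : Fin (m + 1) → Derivation k K K) (hD : ∀ i j, D i (y j) = if i = j then 1 else 0)
    (hci : HasLCIRing B (m + 1)) : MldIneq B D := by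
  refine loc_ineq B hB y D hD fun x => ?_
  obtain ⟨a, ha, hci'⟩ := ciLoc B hB hci x
  have ha0 : a ≠ 0 := by
    rintro rfl
    exact ha x.asIdeal.zero_mem
  exact ⟨a, ha, ciIneq (locA B a) (loc_good B a ha0 hB) y hy D hD hci'⟩

end

theorem lciMain {k : Type u} {K L : Type v} [Field k] [IsAlgClosed k] [CharZero k] [Field K]
    [Field L] [Algebra k K] [Algebra k L] [Algebra K L] [IsScalarTower k K L]
    [FiniteDimensional K L] [IsGalois K L] (A : Subalgebra k K) (hA : Ten.IsGood A)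
    (hur : ∀ P : Ideal (intCl A L), IsHeightOne P → ∀ w : DVal k L,
      w.HasCenter (intCl A L) P → ∃ b : K, b ≠ 0 ∧ w.ord (algebraMap K L b) = 1)
    {m : ℕ} (y : Fin (m + 1) → K) (hy : IsTranscendenceBasis k y)
    (D : Fin (m + 1) → Derivation k K K) (hD : ∀ i j, D i (y j) = if i = j then 1 else 0)
    (hci : ∀ g : L ≃ₐ[K] L,
      HasLCIRing (intCl A (IntermediateField.fixedField (Subgroup.zpowers g))) (m + 1))
    (δ : Ideal A →₀ ℝ) (hδ : ∀ p, 0 ≤ δ p) (x : MaximalSpectrum A)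
    (hRC : ∃ γ : Kˣ →₀ ℝ, IsLocalEq A D δ x.asIdeal γ) (q : Ideal A) (hq : q.IsPrime)
    (hqx : q ≤ x.asIdeal) :
    ∃ d : ℕ, ringKrullDim (A ⧸ q) = d ∧ mld A D δ x ≤ mldP A D δ q + (d : EReal) := by
  obtain ⟨d, hd⟩ := LciM_dim A hA.fg q hq
  refine ⟨d, hd, ?_⟩
  have h1 : MldIneq A D := by
    refine galIneq A hA hur y hy D hD fun g D' hD' => ?_
    exact lciIneq _ (intCl_good A hA) _ (ram_der y hy).1 D' hD' (hci g)
  exact h1 δ hδ x hRC q hq hqx d hd.le

end Pool.Agent.MLD.Cox
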