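import Pool.Agent.Lib.MP_f23696_ag.T.Res
import Pool.Agent.Lib.MP_f23696_ag.T.LogB
import Pool.Agent.Lib.MP_f23696_ag.Y.Rnk
import Pool.Agent.Lib.MP_f23696_ag.Y.ChainK
import Pool.Agent.Lib.MP_f23696_ag.T.Hv

/-!
Project COX-F, module Ram: log discrepancies in finite extensions.

* `ram_div`: `→`: let `t` be elements of `K` integral for `v` with residues algebraically
independent; the same elements in `L` are integral, and `F(t)` is small for `v'` iff it is small for
`v`, `F` a polynomial (`e ≥ 1`).  `←`: `restrict_div` (T/Res.lean) with `s = 0` (`L/K` algebraic).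
* `ram_der`: `y` is algebraically independent over `k` in `L` (`algebraMap K L` is injective);
`dual_ex` (Y/Rnk.lean) with `κ = L`, `τ = algebraMap ∘ y`.
* `ram`: the `algebraMap ∘ y` form a transcendence basis of `L/k` (`L/K` algebraic).  By
`ram_div` both valuations are divisorial.  `formOrd_ex`, `logBasis` (T/LogB.lean): let
`FormOrd v D j`
(given) with log basis `b`, `E`: `v.ord (b 0) = 1`, `v.ord (b i.succ) = 0`, residues of the
`b i.succ` independent, `v.ord (jac D b) = -j`.  Choose `π ∈ L`, `v'.ord π = 1` and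
`b' = Fin.cons π (fun i => algebraMap K L (b i.succ))`.  The residues of the `b' i.succ` are
independent.  The proof of `logBasis` (its auxiliary results in T/LogB.lean) shows that any such
tuple `b'` is a log basis: there is `j'` with `v'.FormOrd D' j'`, `v'.ord (jac D' b') = -j'`, and
dual
derivations `E'` (with `E' i (b' l) = δ`, `jac D' a = jac D' b' * jac E' a`) which preserve the
valuation ring (if the statement of `logBasis` does not suffice, copy its proof; it takes a
divisorial `v` with the tuple `u` and an element `t` of order `1`, `b = Fin.cons t u`).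
Let `B = algebraMap ∘ b`.  `D'` extends `D` (both `D' i ∘ algebraMap` and `algebraMap ∘ D i` are
derivations `K → L` which agree on `y`, see `chainK` in Y/ChainK.lean or
`Pool.Agent.MLD.Ten.der_zero`), so `jac D' B = algebraMap (jac D b)` has order `-e j`.  On the other
hand `jac D' B = jac D' b' * jac E' B`, and `B` differs from `b'` only in the entry `0`, so
`jac E' B = E' 0 (B 0)`.  Write `B 0 = π^e u`, `v'.ord u = 0`: `E' 0 (B 0) = e π^(e-1) u +
π^e E' 0 u`, where `E' 0 u` is integral; `v'.ord (E' 0 (B 0)) = e - 1` (characteristic zero).  So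
`-e j = -j' + e - 1`, i.e. `1 + j' = e (1 + j)`.  The second claim is the first one together with
the uniqueness of `j'` (`formOrd_unique`).  For the third claim: `v'.FormOrd D' j'`; there is `j`
with `v.FormOrd D j` (`v` is divisorial: the proof of `logBasis` gives it, or `formOrd_ex` with the
bound `v.ord (jac D a) ≥ v'.ord (..)/e`: for integral `a : Fin (m+1) → K`,
`e * v.ord (jac D a) = v'.ord (jac D' (algebraMap ∘ a)) ≥ -j'`); then apply the second claim.
-/

set_option autoImplicit false

namespace Pool.Agent.MLD.Cox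

open Pool.Agent.MLD.Ten

universe u v

section Aux

open Pool.Agent.MLD.Jac

universe w

section
variable {k : Type u} {L : Type v} [Field k] [Field L] [Algebra k L]

/-- valuation rings are integrally closed -/
private theorem Ram.int {R : Type w} [CommRing R] [Algebra R L] (v : DVal k L)
    (hR : ∀ a : R, v.Integral (algebraMap R L a)) {x : L} (hx : IsIntegral R x) :
    v.Integral x := by
  intro hx0
  by_contra hlt
  push Not at hlt
  obtain ⟨p, hp, hpx⟩ := hx
  rw [← Polynomial.aeval_def, Polynomial.aeval_eq_sum_range, Finset.sum_range_succ,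
    hp.coeff_natDegree, one_smul] at hpx
  have hrest : LB v (v.ord (x ^ p.natDegree) + 1)
      (∑ i ∈ Finset.range p.natDegree, p.coeff i • x ^ i) := by
    refine LB.sum _ _ fun i hi => ?_
    rw [Algebra.smul_def]
    have h1 : LB v (i * v.ord x) (x ^ i) := fun _ => by rw [ord_pow v x hx0]
    have h2 := (show LB v 0 (algebraMap R L (p.coeff i)) from hR _).mul h1
    refine h2.mono ?_
    rw [ord_pow v x hx0]
    have h3 : (i : ℤ) + 1 ≤ p.natDegree := by exact_mod_cast Finset.mem_range.1 hi
    nlinarith
  have h4 := (ord_add_eq v (pow_ne_zero _ hx0) hrest).1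
  rw [add_comm] at hpx
  exact h4 hpx

/-- Horner sums -/
private theorem Ram.coeff_it {R : Type w} [CommRing R] (f : Polynomial R) (j i : ℕ) :
    (Polynomial.divX^[j] f).coeff i = f.coeff (i + j) := by
  induction j generalizing f i with
  | zero => rfl
  | succ j ih =>
    rw [Function.iterate_succ_apply, ih, Polynomial.coeff_divX]
    congr 1

private theorem Ram.step {R : Type w} [CommRing R] [Algebra R L] (f : Polynomial R) (x : L)
    (j : ℕ) : Polynomial.aeval x (Polynomial.divX^[j] f) =
      x * Polynomial.aeval x (Polynomial.divX^[j + 1] f) + algebraMap R L (f.coeff j) := by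
  rw [Function.iterate_succ_apply']
  conv_lhs => rw [← Polynomial.divX_mul_X_add (Polynomial.divX^[j] f)]
  rw [map_add, map_mul, Polynomial.aeval_X, Polynomial.aeval_C, Ram.coeff_it, zero_add, mul_comm]

private theorem Ram.expand {R : Type w} [CommRing R] [Algebra R L] (f : Polynomial R) (x : L)
    (j : ℕ) : Polynomial.aeval x f = ∑ i : Fin j, algebraMap R L (f.coeff i) * x ^ (i : ℕ) +
      Polynomial.aeval x (Polynomial.divX^[j] f) * x ^ j := by
  induction j with
  | zero => simp
  | succ j ih =>
    rw [ih, Fin.sum_univ_castSucc, Ram.step f x j]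
    simp only [Fin.val_castSucc, Fin.val_last]
    ring

private theorem Ram.lead {R : Type w} [CommRing R] [Algebra R L] (f : Polynomial R) (x : L)
    (hf : Polynomial.aeval x f = 0) (j : ℕ)
    (hb : IsIntegral R (Polynomial.aeval x (Polynomial.divX^[j + 1] f))) :
    IsIntegral R (x * Polynomial.aeval x (Polynomial.divX^[j + 1] f)) := by
  set b := Polynomial.aeval x (Polynomial.divX^[j + 1] f) with hbd
  by_cases hb0 : b = 0
  · rw [hb0, mul_zero]
    exact isIntegral_zero
  let C := integralClosure R L
  let b' : C := ⟨b, hb⟩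
  let P : Polynomial C := (∑ i : Fin (j + 1), Polynomial.C (algebraMap R C (f.coeff i)) *
    Polynomial.X ^ (i : ℕ)) + Polynomial.C b' * Polynomial.X ^ (j + 1)
  have hb' : b' ≠ 0 := fun h => hb0 (congrArg Subtype.val h)
  have hP : P.leadingCoeff = b' := by
    have h1 : (∑ i : Fin (j + 1), Polynomial.C (algebraMap R C (f.coeff i)) *
        Polynomial.X ^ (i : ℕ)).degree < (Polynomial.C b' * Polynomial.X ^ (j + 1)).degree := by
      rw [Polynomial.degree_C_mul_X_pow _ hb']
      exact Polynomial.degree_sum_fin_lt _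
    rw [Polynomial.leadingCoeff_add_of_degree_lt h1]
    simp
  have hPx : Polynomial.aeval x P = 0 := by
    have h1 := Ram.expand f x (j + 1)
    rw [hf] at h1
    rw [h1]
    simp only [P, map_add, map_sum, map_mul, map_pow, Polynomial.aeval_X, Polynomial.aeval_C]
    rfl
  have h2 : IsIntegral C (P.leadingCoeff • x) := isIntegral_leadingCoeff_smul P x hPx
  rw [hP] at h2
  have h3 : b' • x = x * b := by
    rw [Algebra.smul_def, mul_comm]
    rfl
  rw [h3] at h2
  exact isIntegral_trans _ h2

/-- all Horner sums are integral -/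
private theorem Ram.horner {R : Type w} [CommRing R] [Algebra R L] (f : Polynomial R) (x : L)
    (hf : Polynomial.aeval x f = 0) (n j : ℕ) (hn : f.natDegree < j + n) :
    IsIntegral R (Polynomial.aeval x (Polynomial.divX^[j] f)) := by
  induction n generalizing j with
  | zero =>
    have h0 : Polynomial.divX^[j] f = 0 := by
      ext i
      rw [Ram.coeff_it, Polynomial.coeff_zero]
      exact Polynomial.coeff_eq_zero_of_natDegree_lt (by omega)
    rw [h0, map_zero]
    exact isIntegral_zero
  | succ n ih =>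
    rw [Ram.step]
    exact (Ram.lead f x hf j (ih (j + 1) (by omega))).add isIntegral_algebraMap

/-- integral elements of the field are quotients of integral elements, with a unit denominator -/
private theorem Ram.quot {R : Type w} [CommRing R] [Algebra R L] (v : DVal k L)
    (f : Polynomial R) (x : L) (hx : v.Integral x) (hf : Polynomial.aeval x f = 0)
    (hs : ∃ i, ¬ v.Small (algebraMap R L (f.coeff i))) :
    ∃ g : Polynomial R, IsIntegral R (Polynomial.aeval x g) ∧
      IsIntegral R (x * Polynomial.aeval x g) ∧ ¬ v.Small (Polynomial.aeval x g) := by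
  obtain ⟨i, hi⟩ := hs
  by_contra hcon
  push Not at hcon
  have hsm : ∀ j, v.Small (Polynomial.aeval x (Polynomial.divX^[j] f)) := by
    intro j
    rcases j with _ | j
    · rw [Function.iterate_zero_apply, hf]
      exact LB.zero v 1
    · have h1 := Ram.horner f x hf (f.natDegree + 1) (j + 1) (by omega)
      exact hcon _ h1 (Ram.lead f x hf j h1)
  apply hi
  have h2 := Ram.step f x i
  have h3 : algebraMap R L (f.coeff i) = Polynomial.aeval x (Polynomial.divX^[i] f) -
      x * Polynomial.aeval x (Polynomial.divX^[i + 1] f) := by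
    rw [h2]
    ring
  rw [h3]
  refine LB_sub v (N := 1) (hsm i) ?_
  have h4 := LB.mul (v := v) (M := 0) (N := 1) hx (hsm (i + 1))
  rwa [zero_add] at h4

/-- a polynomial not divisible by the first variable is not small -/
private theorem Ram.notsmall {m : ℕ} (v : DVal k L) (t : L) (ht1 : 0 < v.ord t)
    (u : Fin m → L) (hu : ∀ i, v.Integral (u i))
    (hF : ∀ F : MvPolynomial (Fin m) k, F ≠ 0 → ¬ v.Small (MvPolynomial.aeval u F))
    (F : MvPolynomial (Fin (m + 1)) k) (hX : ¬ MvPolynomial.X 0 ∣ F) :
    ¬ v.Small (MvPolynomial.aeval (Fin.cons t u : Fin (m + 1) → L) F) := by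
  intro hs
  set q := MvPolynomial.finSuccEquiv k m F with hq
  have hq0 : q.coeff 0 ≠ 0 := by
    intro h
    apply hX
    obtain ⟨r, hr⟩ := Polynomial.X_dvd_iff.2 h
    refine ⟨(MvPolynomial.finSuccEquiv k m).symm r, ?_⟩
    apply (MvPolynomial.finSuccEquiv k m).injective
    rw [map_mul, MvPolynomial.finSuccEquiv_X_zero, AlgEquiv.apply_symm_apply]
    exact hr
  apply hF _ hq0
  rw [LogB.aeval_cons, ← hq] at hs
  rw [← Polynomial.divX_mul_X_add q, Polynomial.eval₂_add, Polynomial.eval₂_mul,
    Polynomial.eval₂_X, Polynomial.eval₂_C] at hs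
  have h1 : Polynomial.eval₂ (MvPolynomial.aeval u : MvPolynomial (Fin m) k →ₐ[k] L).toRingHom t
      q.divX = MvPolynomial.aeval (Fin.cons t u : Fin (m + 1) → L)
        ((MvPolynomial.finSuccEquiv k m).symm q.divX) := by
    rw [LogB.aeval_cons, AlgEquiv.apply_symm_apply]
  have hcu : ∀ l, v.Integral ((Fin.cons t u : Fin (m + 1) → L) l) := by
    intro l
    refine Fin.cases ?_ (fun l => ?_) l
    · intro _
      exact ht1.le
    · exact hu l
  have h2 : LB v 0 (Polynomial.eval₂
      (MvPolynomial.aeval u : MvPolynomial (Fin m) k →ₐ[k] L).toRingHom t q.divX) := by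
    rw [h1]
    exact LogB.aeval_integral v _ hcu _
  have h3 : LB v 1 t := fun _ => by omega
  have h4 := h2.mul h3
  rw [zero_add] at h4
  have h5 := LB_sub v (N := 1) hs h4
  rw [add_sub_cancel_left] at h5
  exact h5

/-- a primitive polynomial -/
private theorem Ram.prim {m : ℕ} (v : DVal k L) (t : L) (ht : t ≠ 0) (ht1 : 0 < v.ord t)
    (u : Fin m → L) (hu : ∀ i, v.Integral (u i))
    (hF : ∀ F : MvPolynomial (Fin m) k, F ≠ 0 → ¬ v.Small (MvPolynomial.aeval u F))
    [Algebra (MvPolynomial (Fin (m + 1)) k) L]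
    (hal : ∀ F, algebraMap (MvPolynomial (Fin (m + 1)) k) L F =
      MvPolynomial.aeval (Fin.cons t u : Fin (m + 1) → L) F)
    (x : L) (hx : IsAlgebraic (MvPolynomial (Fin (m + 1)) k) x) :
    ∃ f : Polynomial (MvPolynomial (Fin (m + 1)) k), Polynomial.aeval x f = 0 ∧
      ∃ i, ¬ v.Small (algebraMap (MvPolynomial (Fin (m + 1)) k) L (f.coeff i)) := by
  obtain ⟨f, hf0, hfx⟩ := hx
  have hX0 : ¬ IsUnit (MvPolynomial.X 0 : MvPolynomial (Fin (m + 1)) k) := by
    intro h
    have h1 := h.map (MvPolynomial.finSuccEquiv k m)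
    rw [MvPolynomial.finSuccEquiv_X_zero] at h1
    exact Polynomial.not_isUnit_X h1
  have hu0 : ¬ IsUnit (Polynomial.C (MvPolynomial.X 0 : MvPolynomial (Fin (m + 1)) k)) := by
    rw [Polynomial.isUnit_C]
    exact hX0
  obtain ⟨n, g, hg, hfg⟩ := WfDvdMonoid.max_power_factor' hf0 hu0
  refine ⟨g, ?_, ?_⟩
  · rw [hfg, map_mul, map_pow, Polynomial.aeval_C, hal, MvPolynomial.aeval_X,
      Fin.cons_zero] at hfx
    exact (mul_eq_zero.1 hfx).resolve_left (pow_ne_zero _ ht)
  · rw [Polynomial.C_dvd_iff_dvd_coeff] at hg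
    push Not at hg
    obtain ⟨i, hi⟩ := hg
    refine ⟨i, ?_⟩
    rw [hal]
    exact Ram.notsmall v t ht1 u hu hF _ hi

end

section
variable {k : Type u} {L : Type v} [Field k] [CharZero k] [Field L] [Algebra k L]

omit [CharZero k] in
private theorem Ram.finLB {ι : Type w} (v : DVal k L) (s : Finset ι) (f : ι → L) :
    ∃ N : ℤ, N ≤ 0 ∧ ∀ i ∈ s, LB v N (f i) := by
  classical
  induction s using Finset.induction_on with
  | empty => exact ⟨0, le_rfl, by simp⟩
  | insert a s _ ih =>
    obtain ⟨N, hN, h⟩ := ih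
    refine ⟨min N (v.ord (f a)), (min_le_left _ _).trans hN, fun i hi => ?_⟩
    rcases Finset.mem_insert.1 hi with rfl | hi
    · exact (LB_self v (f i)).mono (min_le_right _ _)
    · exact (h i hi).mono (min_le_left _ _)

attribute [local instance] FractionRing.liftAlgebra in
/-- derivations with independent dual elements are bounded on a subfield of finite type -/
private theorem Ram.bound {m : ℕ} (v : DVal k L) (y : Fin (m + 1) → L)
    (hy : IsTranscendenceBasis k y) (t : L) (ht : t ≠ 0) (ht1 : 0 < v.ord t) (u : Fin m → L)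
    (hu : ∀ i, v.Integral (u i))
    (hF : ∀ F : MvPolynomial (Fin m) k, F ≠ 0 → ¬ v.Small (MvPolynomial.aeval u F))
    (δ : Derivation k L L) (hδ : ∀ l, v.Integral (δ ((Fin.cons t u : Fin (m + 1) → L) l)))
    (c : L) : ∃ (M : Subfield L) (N : ℤ), c ∈ M ∧
      (∀ F : MvPolynomial (Fin (m + 1)) k,
        (MvPolynomial.aeval (Fin.cons t u : Fin (m + 1) → L) F : L) ∈ M) ∧
      ∀ x ∈ M, v.Integral x → LB v N (δ x) := by
  classical
  set b : Fin (m + 1) → L := Fin.cons t u with hb
  have hind : AlgebraicIndependent k b := indep_cons v t ht ht1 u hu hF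
  have hbt : IsTranscendenceBasis k b := by
    refine hind.isTranscendenceBasis_of_lift_trdeg_le_of_finite ?_
    rw [← hy.lift_cardinalMk_eq_trdeg]
  let R := MvPolynomial (Fin (m + 1)) k
  let _ : Algebra R L := (MvPolynomial.aeval b : R →ₐ[k] L).toRingHom.toAlgebra
  have hal : ∀ F : R, algebraMap R L F = MvPolynomial.aeval b F := fun F => rfl
  have : FaithfulSMul R L := (faithfulSMul_iff_algebraMap_injective R L).2 hind
  have hbint : ∀ l, v.Integral (b l) := by
    intro l
    refine Fin.cases ?_ (fun l => ?_) l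
    · intro _
      exact ht1.le
    · exact hu l
  have hR : ∀ a : R, v.Integral (algebraMap R L a) := fun a =>
    LogB.aeval_integral v b hbint a
  have halg : Algebra.IsAlgebraic R L := by
    refine ⟨fun x => ?_⟩
    obtain ⟨p, hp, hpx⟩ := hbt.isAlgebraic.isAlgebraic x
    let e := hind.aevalEquiv
    have he : (algebraMap R L).comp (e.symm : Algebra.adjoin k (Set.range b) →+* R) =
        algebraMap (Algebra.adjoin k (Set.range b)) L := by
      ext a
      have h2 := hind.algebraMap_aevalEquiv (e.symm a)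
      have h3 : e (e.symm a) = a := e.apply_symm_apply a
      rw [h3] at h2
      exact h2.symm
    refine ⟨p.map (e.symm : Algebra.adjoin k (Set.range b) →+* R), ?_, ?_⟩
    · rw [Ne, Polynomial.map_eq_zero_iff]
      · exact hp
      · exact e.symm.injective
    · rw [Polynomial.aeval_def, Polynomial.eval₂_map, he]
      exact hpx
  let K₀ := FractionRing R
  have : CharZero K₀ := charZero_of_injective_algebraMap (algebraMap k K₀).injective
  have halg' : Algebra.IsAlgebraic K₀ L :=
    (IsFractionRing.comap_isAlgebraic_iff (A := R) (K := K₀) (C := L)).1 halg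
  let M : IntermediateField K₀ L := IntermediateField.adjoin K₀ {c}
  have : FiniteDimensional K₀ M :=
    IntermediateField.adjoin.finiteDimensional (Algebra.IsIntegral.isIntegral c)
  have : IsScalarTower R M L := IsScalarTower.of_algebraMap_eq fun a => rfl
  let C := integralClosure R M
  have hfin : Module.Finite R C := IsIntegralClosure.finite R K₀ M C
  obtain ⟨s, hs⟩ := hfin.fg_top
  obtain ⟨N, hN0, hN⟩ := Ram.finLB v s (fun z : C => δ ((z : M) : L))
  have hC : ∀ z : C, v.Integral ((z : M) : L) := fun z =>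
    Ram.int v hR ((show IsIntegral R (z : M) from z.2).map (IsScalarTower.toAlgHom R M L))
  have hδR : ∀ a : R, LB v 0 (δ (algebraMap R L a)) := by
    intro a
    rw [hal, Jind.der_aeval]
    refine LB.sum _ _ fun l _ => ?_
    have h1 := LB.mul (v := v) (M := 0) (N := 0)
      (LogB.aeval_integral v b hbint (MvPolynomial.pderiv l a)) (hδ l)
    rwa [zero_add] at h1
  have hCb : ∀ z : C, LB v N (δ ((z : M) : L)) := by
    intro z
    have hz : z ∈ Submodule.span R (s : Set C) := hs ▸ Submodule.mem_top
    induction hz using Submodule.span_induction with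
    | mem z hz => exact hN z hz
    | zero =>
      have : (((0 : C) : M) : L) = 0 := rfl
      rw [this, map_zero]
      exact LB.zero v N
    | add z w _ _ hz hw =>
      have : (((z + w : C) : M) : L) = ((z : M) : L) + ((w : M) : L) := rfl
      rw [this, map_add]
      exact hz.add hw
    | smul a z _ hz =>
      have : (((a • z : C) : M) : L) = algebraMap R L a * ((z : M) : L) := by
        rw [← Algebra.smul_def]
        rfl
      rw [this, Derivation.leibniz, smul_eq_mul, smul_eq_mul]
      have h1 := LB.mul (v := v) (M := 0) (hR a) hz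
      have h2 := LB.mul (v := v) (M := 0) (N := 0) (hC z) (hδR a)
      rw [zero_add] at h1 h2
      exact h1.add (h2.mono hN0)
  refine ⟨M.toSubfield, N, IntermediateField.mem_adjoin_simple_self K₀ c, ?_, ?_⟩
  · intro F
    have h1 := M.algebraMap_mem (algebraMap R K₀ F)
    rw [← IsScalarTower.algebraMap_apply R K₀ L] at h1
    exact h1
  · intro x hx hxi
    obtain ⟨f, hfx, hfs⟩ := Ram.prim v t ht ht1 u hu hF hal x (halg.isAlgebraic x)
    obtain ⟨g, hg1, hg2, hg3⟩ := Ram.quot v f x hxi hfx hfs
    let x' : M := ⟨x, hx⟩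
    have hx' : Polynomial.aeval x g = ((Polynomial.aeval x' g : M) : L) :=
      Polynomial.aeval_algebraMap_apply L x' g
    have hinj : Function.Injective (algebraMap M L) := (algebraMap M L).injective
    have h1 : IsIntegral R (Polynomial.aeval x' g) := by
      rw [hx'] at hg1
      exact (isIntegral_algebraMap_iff (A := M) (B := L) hinj).1 hg1
    have h2 : IsIntegral R (x' * Polynomial.aeval x' g) := by
      rw [hx'] at hg2
      exact (isIntegral_algebraMap_iff (A := M) (B := L) hinj).1 hg2
    have h3 := hCb ⟨_, h1⟩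
    have h4 := hCb ⟨_, h2⟩
    set w : L := ((Polynomial.aeval x' g : M) : L) with hw
    have h5 : LB v N (δ (x * w)) := h4
    have h6 : w ≠ 0 ∧ v.ord w = 0 := ord_eq_zero_of v (hC ⟨_, h1⟩) (by rwa [hx'] at hg3)
    rw [Derivation.leibniz, smul_eq_mul, smul_eq_mul] at h5
    have h7 := LB.mul (v := v) (M := 0) hxi h3
    rw [zero_add] at h7
    have h8 := LB_sub v h5 h7
    rw [add_sub_cancel_left] at h8
    intro hne
    have h9 := h8 (mul_ne_zero h6.1 hne)
    rw [v.ord_mul _ _ h6.1 hne, h6.2] at h9
    omega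

/-- derivations with integral values on a log basis preserve the valuation ring -/
private theorem Ram.key {m : ℕ} (v : DVal k L) (y : Fin (m + 1) → L)
    (hy : IsTranscendenceBasis k y) (t : L) (ht : t ≠ 0) (ht1 : v.ord t = 1) (u : Fin m → L)
    (hu : ∀ i, v.Integral (u i))
    (hF : ∀ F : MvPolynomial (Fin m) k, F ≠ 0 → ¬ v.Small (MvPolynomial.aeval u F))
    (δ : Derivation k L L) (hδ : ∀ l, v.Integral (δ ((Fin.cons t u : Fin (m + 1) → L) l)))
    (c : L) (hc : v.Integral c) : v.Integral (δ c) := by
  classical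
  have ht1' : 0 < v.ord t := by omega
  by_contra hcon
  have hn1' : δ c ≠ 0 ∧ v.ord (δ c) < 0 := by
    unfold DVal.Integral at hcon
    push Not at hcon
    exact hcon
  obtain ⟨M, N, hcM, hbM, hbd⟩ := Ram.bound v y hy t ht ht1' u hu hF δ hδ c
  obtain ⟨z, ⟨c', hcM', hc', hcne, hcz⟩, hz⟩ := Int.exists_least_of_bdd
    (P := fun z => ∃ c ∈ M, v.Integral c ∧ δ c ≠ 0 ∧ v.ord (δ c) = z)
    ⟨N, fun z ⟨c, hcM, hc, hne, hz⟩ => hz ▸ hbd c hcM hc hne⟩
    ⟨_, c, hcM, hc, hn1'.1, rfl⟩
  have hz0 : z < 0 := lt_of_le_of_lt (hz _ ⟨c, hcM, hc, hn1'.1, rfl⟩) hn1'.2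
  have hLB : ∀ a ∈ M, v.Integral a → LB v z (δ a) := fun a ha ha' h0 => hz _ ⟨a, ha, ha', h0, rfl⟩
  obtain ⟨F, hFs, hFns⟩ := LogB.exists_poly v y hy t ht ht1' u hu hF c' hc'
  have hcu : ∀ l, v.Integral ((Fin.cons c' u : Fin (m + 1) → L) l) := by
    intro l
    refine Fin.cases ?_ (fun l => ?_) l
    · exact hc'
    · exact hu l
  set s := MvPolynomial.aeval (Fin.cons c' u : Fin (m + 1) → L) F with hs
  have htM : t ∈ M := by
    have h1 := hbM (MvPolynomial.X 0)
    rwa [MvPolynomial.aeval_X, Fin.cons_zero] at h1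
  have hkM : ∀ a : k, algebraMap k L a ∈ M := by
    intro a
    have h1 := hbM (MvPolynomial.C a)
    rwa [MvPolynomial.aeval_C] at h1
  have hcuM : ∀ l, (Fin.cons c' u : Fin (m + 1) → L) l ∈ M := by
    intro l
    refine Fin.cases ?_ (fun l => ?_) l
    · exact hcM'
    · have h1 := hbM (MvPolynomial.X l.succ)
      rwa [MvPolynomial.aeval_X, Fin.cons_succ] at h1
  have hsM : s ∈ M := by
    rw [hs, MvPolynomial.aeval_def, MvPolynomial.eval₂_eq]
    exact sum_mem fun d _ => mul_mem (hkM _) (prod_mem fun i _ => pow_mem (hcuM i) _)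
  -- first estimate
  have hEs : LB v (z + 1) (δ s) := by
    have h1 : v.Integral (s / t) := by
      intro h0
      have hs0 : s ≠ 0 := by
        rintro h
        rw [h, zero_div] at h0
        exact h0 rfl
      rw [ord_div v s t hs0 ht]
      have := hFs hs0
      omega
    have h2 : s = t * (s / t) := by field_simp
    rw [h2, Derivation.leibniz, smul_eq_mul, smul_eq_mul]
    have h3 : LB v (z + 1) (t * δ (s / t)) := by
      have h4 := (LB_self v t).mul (hLB _ (div_mem hsM htM) h1)
      exact h4.mono (by omega)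
    have h5 : LB v (z + 1) (s / t * δ t) := by
      have h6 := LB.mul (v := v) (M := 0) (N := 0) h1 (hδ 0)
      exact h6.mono (by omega)
    exact h3.add h5
  -- second expression
  have hder := Jind.der_aeval δ (Fin.cons c' u : Fin (m + 1) → L) F
  rw [← hs, Fin.sum_univ_succ, Fin.cons_zero] at hder
  have hrest : LB v (z + 1) (∑ l : Fin m,
      MvPolynomial.aeval (Fin.cons c' u : Fin (m + 1) → L) (MvPolynomial.pderiv l.succ F) *
        δ ((Fin.cons c' u : Fin (m + 1) → L) l.succ)) := by
    refine LB.sum _ _ fun l _ => ?_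
    rw [Fin.cons_succ]
    have h6 := hδ l.succ
    rw [Fin.cons_succ] at h6
    have h7 := LB.mul (v := v) (M := 0) (N := 0)
      (LogB.aeval_integral v _ hcu (MvPolynomial.pderiv l.succ F)) h6
    exact h7.mono (by omega)
  have hfin : LB v (z + 1)
      (MvPolynomial.aeval (Fin.cons c' u : Fin (m + 1) → L) (MvPolynomial.pderiv 0 F) *
        δ c') := by
    have h7 := LB_sub v hEs hrest
    rw [hder] at h7
    simpa using h7
  have hunit := ord_eq_zero_of v (LogB.aeval_integral v _ hcu _) hFns
  have h8 := hfin (mul_ne_zero hunit.1 hcne)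
  rw [v.ord_mul _ _ hunit.1 hcne, hunit.2, hcz] at h8
  omega

/-- a uniformizer and elements with independent residues form a log basis -/
private theorem Ram.logB {m : ℕ} (v : DVal k L) (y : Fin (m + 1) → L)
    (hy : IsTranscendenceBasis k y) (D : Fin (m + 1) → Derivation k L L)
    (hD : ∀ i j, D i (y j) = if i = j then 1 else 0) (t : L) (ht : t ≠ 0) (ht1 : v.ord t = 1)
    (u : Fin m → L) (hu : ∀ i, v.Integral (u i))
    (hF : ∀ F : MvPolynomial (Fin m) k, F ≠ 0 → ¬ v.Small (MvPolynomial.aeval u F)) :
    ∃ (j : ℤ) (E : Fin (m + 1) → Derivation k L L),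
      IsLogBasis v D j (Fin.cons t u : Fin (m + 1) → L) E ∧ v.FormOrd D j := by
  classical
  have ht1' : 0 < v.ord t := by omega
  set b : Fin (m + 1) → L := Fin.cons t u with hb
  have hind : AlgebraicIndependent k b := indep_cons v t ht ht1' u hu hF
  have hjac : jac D b ≠ 0 := jac_ne y hy D hD b hind
  obtain ⟨E, hE, hexp, hjE⟩ := dual D b hjac
  have hu0 : ∀ i, u i ≠ 0 ∧ v.ord (u i) = 0 := by
    intro i
    refine ord_eq_zero_of v (hu i) fun hs => ?_
    exact hF (MvPolynomial.X i) (MvPolynomial.X_ne_zero i) (by rwa [MvPolynomial.aeval_X])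
  have hbint : ∀ i, v.Integral (b i) := by
    intro i
    refine Fin.cases ?_ (fun l => ?_) i
    · intro _
      change 0 ≤ v.ord t
      omega
    · exact hu l
  have key : ∀ (i : Fin (m + 1)) (c : L), v.Integral c → v.Integral (E i c) := by
    intro i
    refine Ram.key v y hy t ht ht1 u hu hF (E i) fun l => ?_
    rw [← hb, hE]
    split_ifs
    · intro _
      rw [ord_one]
    · exact LB.zero v 0
  refine ⟨-v.ord (jac D b), E, ⟨?_, ht1, fun i => (hu0 i).2, hF, hE, hjac, ?_, hjE, hexp, key⟩,
    ?_, b, hbint, hjac, ?_⟩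
  · intro i
    refine Fin.cases ?_ (fun l => ?_) i
    · exact ht
    · exact (hu0 l).1
  · rw [neg_neg]
  · intro a ha hane
    rw [neg_neg]
    have h1 := hjE a
    have h2 : v.Integral (jac E a) :=
      det_integral v _ fun r l => by
        rw [Matrix.of_apply]
        exact key r _ (ha l)
    have h3 : jac E a ≠ 0 := by
      intro h
      rw [h, mul_zero] at h1
      exact hane h1
    rw [h1, v.ord_mul _ _ hjac h3]
    have := h2 h3
    omega
  · rw [neg_neg]

end

end Aux

private theorem Ram.up_int {k : Type u} {K L : Type v} [Field k] [Field K] [Field L] [Algebra k K]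
    [Algebra k L] [Algebra K L] (v : DVal k K) (v' : DVal k L) (e : ℕ)
    (hv : ∀ a : K, a ≠ 0 → v'.ord (algebraMap K L a) = e * v.ord a) {a : K} (ha : v.Integral a) :
    v'.Integral (algebraMap K L a) := by
  intro h0
  have ha0 : a ≠ 0 := by
    rintro rfl
    exact h0 (map_zero _)
  rw [hv a ha0]
  exact mul_nonneg (Int.natCast_nonneg e) (ha ha0)

private theorem Ram.down_small {k : Type u} {K L : Type v} [Field k] [Field K] [Field L]
    [Algebra k K] [Algebra k L] [Algebra K L] (v : DVal k K) (v' : DVal k L) (e : ℕ)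
    (hv : ∀ a : K, a ≠ 0 → v'.ord (algebraMap K L a) = e * v.ord a) {a : K}
    (ha : v'.Small (algebraMap K L a)) : v.Small a := by
  intro h0
  have h1 := ha (by simpa using h0)
  rw [hv a h0] at h1
  have he0 : (0 : ℤ) ≤ e := Int.natCast_nonneg e
  by_contra hlt
  push Not at hlt
  nlinarith

private theorem Ram.jac_map {k : Type u} {K L : Type v} [Field k] [CharZero k] [Field K] [Field L]
    [Algebra k K] [Algebra k L] [Algebra K L] [IsScalarTower k K L]
    {m : ℕ} (y : Fin (m + 1) → K) (hy : IsTranscendenceBasis k y)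
    (D : Fin (m + 1) → Derivation k K K) (hD : ∀ i j, D i (y j) = if i = j then 1 else 0)
    (D' : Fin (m + 1) → Derivation k L L)
    (hD' : ∀ i j, D' i (algebraMap K L (y j)) = if i = j then 1 else 0)
    (a : Fin (m + 1) → K) :
    jac D' (fun i => algebraMap K L (a i)) = algebraMap K L (jac D a) := by
  have h1 : ∀ i (c : K), D' i (algebraMap K L c) = algebraMap K L (D i c) := by
    intro i c
    have h2 := chainK y hy D hD (IsScalarTower.toAlgHom k K L) (D' i) c
    change D' i (algebraMap K L c) = _ at h2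
    rw [h2, Finset.sum_eq_single i]
    · change D' i (algebraMap K L (y i)) * algebraMap K L (D i c) = _
      rw [hD', if_pos rfl, one_mul]
    · intro j _ hj
      change D' i (algebraMap K L (y j)) * algebraMap K L (D j c) = _
      rw [hD', if_neg hj.symm, zero_mul]
    · intro h
      exact absurd (Finset.mem_univ i) h
  unfold jac
  rw [RingHom.map_det]
  congr 1
  ext i j
  simp [h1]

variable {k : Type u} {K L : Type v} [Field k] [CharZero k] [Field K] [Field L] [Algebra k K]
  [Algebra k L] [Algebra K L] [IsScalarTower k K L] [Algebra.IsAlgebraic K L]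

theorem ram_div (v : DVal k K) (v' : DVal k L) (e : ℕ) (he : 1 ≤ e)
    (hv : ∀ a : K, a ≠ 0 → v'.ord (algebraMap K L a) = e * v.ord a) (m : ℕ) :
    v.IsDivisorial m ↔ v'.IsDivisorial m := by
  constructor
  · rintro ⟨t, ht, hF⟩
    refine ⟨fun i => algebraMap K L (t i), fun i => Ram.up_int v v' e hv (ht i), ?_⟩
    intro F hF0 hs
    have h1 : MvPolynomial.aeval (fun i => algebraMap K L (t i)) F =
        algebraMap K L (MvPolynomial.aeval t F) :=
      MvPolynomial.aeval_algebraMap_apply L t F
    rw [h1] at hs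
    exact hF F hF0 (Ram.down_small v v' e hv hs)
  · intro h
    refine restrict_div (IsScalarTower.toAlgHom k K L) v' m 0 h Fin.elim0 ?_ e he v hv
    intro f
    obtain ⟨p, hp, hpf⟩ := Algebra.IsAlgebraic.isAlgebraic (R := K) f
    let j : K →+* IntermediateField.adjoin k (Set.range (IsScalarTower.toAlgHom k K L) ∪
        Set.range (Fin.elim0 : Fin 0 → L)) :=
      { toFun := fun x => ⟨algebraMap K L x,
          IntermediateField.subset_adjoin k _ (Or.inl ⟨x, rfl⟩)⟩
        map_one' := Subtype.ext (map_one _)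
        map_mul' := fun _ _ => Subtype.ext (map_mul _ _ _)
        map_zero' := Subtype.ext (map_zero _)
        map_add' := fun _ _ => Subtype.ext (map_add _ _ _) }
    refine ⟨p.map j, (Polynomial.map_ne_zero_iff j.injective).2 hp, ?_⟩
    rw [Polynomial.aeval_def, Polynomial.eval₂_map]
    exact hpf

theorem ram_der {m : ℕ} (y : Fin (m + 1) → K) (hy : IsTranscendenceBasis k y) :
    IsTranscendenceBasis k (fun i => algebraMap K L (y i)) ∧
    ∃ D' : Fin (m + 1) → Derivation k L L,
      ∀ i j, D' i (algebraMap K L (y j)) = if i = j then 1 else 0 := by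
  have h1 : IsTranscendenceBasis k (fun i => algebraMap K L (y i)) :=
    IsTranscendenceBasis.algebraMap_comp (A := L) hy
  exact ⟨h1, dual_ex _ h1.1⟩

theorem ram {m : ℕ} (y : Fin (m + 1) → K) (hy : IsTranscendenceBasis k y)
    (D : Fin (m + 1) → Derivation k K K) (hD : ∀ i j, D i (y j) = if i = j then 1 else 0)
    (D' : Fin (m + 1) → Derivation k L L)
    (hD' : ∀ i j, D' i (algebraMap K L (y j)) = if i = j then 1 else 0)
    (v : DVal k K) (v' : DVal k L) (e : ℕ) (he : 1 ≤ e)
    (hv : ∀ a : K, a ≠ 0 → v'.ord (algebraMap K L a) = e * v.ord a) (hvd : v.IsDivisorial m) :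
    (∀ j, v.FormOrd D j → v'.FormOrd D' (e * (1 + j) - 1)) ∧
      ∀ j', v'.FormOrd D' j' → ∃ j, v.FormOrd D j ∧ 1 + j' = e * (1 + j) := by
  have hy' : IsTranscendenceBasis k (fun i => algebraMap K L (y i)) := (ram_der y hy).1
  have hjm := Ram.jac_map y hy D hD D' hD'
  have he0 : (0 : ℤ) < e := by exact_mod_cast he
  have main : ∀ j, v.FormOrd D j → v'.FormOrd D' (e * (1 + j) - 1) := by
    intro j hj
    obtain ⟨b, E, hb⟩ := logBasis v y hy D hD hvd j hj
    obtain ⟨π, hπ, hπ1⟩ := v'.exists_ord_eq_one
    have hu : ∀ i : Fin m, v'.Integral (algebraMap K L (b i.succ)) := fun i =>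
      Ram.up_int v v' e hv (fun _ => by rw [hb.ord_succ])
    have hF : ∀ F : MvPolynomial (Fin m) k, F ≠ 0 →
        ¬ v'.Small (MvPolynomial.aeval (fun i : Fin m => algebraMap K L (b i.succ)) F) := by
      intro F hF0 hs
      have h1 : MvPolynomial.aeval (fun i : Fin m => algebraMap K L (b i.succ)) F =
          algebraMap K L (MvPolynomial.aeval (fun i : Fin m => b i.succ) F) :=
        MvPolynomial.aeval_algebraMap_apply L (fun i : Fin m => b i.succ) F
      rw [h1] at hs
      exact hb.indep F hF0 (Ram.down_small v v' e hv hs)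
    obtain ⟨j', E', hE', hj'⟩ := Ram.logB v' _ hy' D' hD' π hπ hπ1
      (fun i => algebraMap K L (b i.succ)) hu hF
    set b' : Fin (m + 1) → L := Fin.cons π (fun i => algebraMap K L (b i.succ)) with hb'
    have hB0 : algebraMap K L (b 0) ≠ 0 := by
      simpa using hb.ne_zero 0
    have hB0e : v'.ord (algebraMap K L (b 0)) = e := by
      rw [hv _ (hb.ne_zero 0), hb.ord_zero, mul_one]
    have hBu : (fun i => algebraMap K L (b i)) =
        Function.update b' 0 (algebraMap K L (b 0)) := by
      funext i
      refine Fin.cases ?_ (fun l => ?_) i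
      · rw [Function.update_self]
      · rw [Function.update_of_ne (Fin.succ_ne_zero l), hb', Fin.cons_succ]
    have hJ := hE'.jac_eq (fun i => algebraMap K L (b i))
    rw [hjm b] at hJ
    have hJ2 : jac E' (fun i => algebraMap K L (b i)) = E' 0 (algebraMap K L (b 0)) := by
      rw [hBu]
      exact LogB.jac_update E' b' hE'.dual 0 _
    rw [hJ2] at hJ
    -- the order of the derivative of the old uniformizer
    have hb0 : b' 0 = π := rfl
    have hcast : ((v'.ord (algebraMap K L (b 0)) : ℤ) : L) = algebraMap k L (e : k) := by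
      rw [hB0e, map_natCast, Int.cast_natCast]
    have hek : (e : k) ≠ 0 := by
      exact_mod_cast (show e ≠ 0 by omega)
    have heL : algebraMap k L (e : k) ≠ 0 := (map_ne_zero (algebraMap k L)).2 hek
    have hX : Jac.LB v' ((e : ℤ) + 1)
        (π * E' 0 (algebraMap K L (b 0)) - algebraMap k L (e : k) * algebraMap K L (b 0)) := by
      intro hne
      have h1 := hE'.euler (algebraMap K L (b 0)) hB0
      rw [hcast, hB0e, hb0] at h1
      exact h1 hne
    have hA0 : algebraMap k L (e : k) * algebraMap K L (b 0) ≠ 0 := mul_ne_zero heL hB0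
    have hAe : v'.ord (algebraMap k L (e : k) * algebraMap K L (b 0)) = e := by
      rw [v'.ord_mul _ _ heL hB0, v'.ord_algebraMap _ hek, hB0e, zero_add]
    have hS := ord_add_eq v' hA0 (by rw [hAe]; exact hX)
    rw [add_sub_cancel, hAe] at hS
    have hE0 : E' 0 (algebraMap K L (b 0)) ≠ 0 := right_ne_zero_of_mul hS.1
    have hS2 := hS.2
    rw [v'.ord_mul _ _ hπ hE0, hπ1] at hS2
    have h5 : v'.ord (algebraMap K L (jac D b)) = e * -j := by
      rw [hv _ hb.jac_ne, hb.ord_jac]
    rw [hJ, v'.ord_mul _ _ hE'.jac_ne hE0, hE'.ord_jac] at h5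
    have h6 : (e : ℤ) * (1 + j) - 1 = j' := by
      have h7 : (e : ℤ) * -j = -(e * j) := by ring
      rw [h7] at h5
      rw [mul_add, mul_one]
      omega
    rw [h6]
    exact hj'
  refine ⟨main, fun j' hj' => ?_⟩
  obtain ⟨j, hj, -⟩ := formOrd_ex v D (-|j'|) (by
    intro a ha hne
    have h1 := hj'.1 (fun i => algebraMap K L (a i))
      (fun i => Ram.up_int v v' e hv (ha i)) (by
        rw [hjm a]
        simpa using hne)
    rw [hjm a, hv _ hne] at h1
    by_contra hlt
    push Not at hlt
    have h2 := neg_abs_le j'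
    have h3 := le_abs_self j'
    nlinarith) (Hv.exists_jac v D y hD)
  refine ⟨j, hj, ?_⟩
  have h1 := formOrd_unique v' D' _ _ hj' (main j hj)
  rw [h1]
  ring

end Pool.Agent.MLD.Cox
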