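import Pool.Agent.Lib.MP_f23696_ag.Z.IntD
import Pool.Agent.Lib.MP_f23696_ag.Z.Ineq
import Pool.Agent.Lib.MP_f23696_ag.Z.Ram
import Pool.Agent.Lib.MP_f23696_ag.Y.DivB
import Pool.Agent.Lib.MP_f23696_ag.Hart

/-!
Project COX-F, module Loc: local equations on a cover.

Write `A' = intCl A L` (good by `intCl_good`), `φ = algebraMap K L`.

`res_one`: let `P₁` be of height one in `A'`, `w₁` with centre `P₁`.  `restrict` (T/Res.lean) with a
nonzero element of `ctr A P₁` gives `e ≥ 1` and `v` with `w₁.ord (φ a) = e v.ord a`; by `hur`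
there is
`b` with `w₁.ord (φ b) = 1`, so `e = 1`.  `v.HasCenter A (ctr A P₁)` is clear.

`locEq`: `δ₁ P₁ = δ (ctr A P₁)` if `P₁` is of height one and `0` otherwise; the support is finite:
for
each of the finitely many `p` with `δ p ≠ 0`, the primes `P₁` of height one with `ctr A P₁ = p` are
minimal primes of the ideal generated by `p` (by incomparability; if `p = ⊥` there are none,
`ctr_one`), finitely many; or: they contain a fixed nonzero element of `p`, `finite_heightOne`
(Hart.lean).  `γ₁ = Finsupp.mapDomain (Units.map φ) γ` (`φ` injective): `w.val γ₁ = ∑ γ_g w (φ g)`.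
For `P₁ ≤ x₁` of height one, `w₁` with centre `P₁`, `w₁.FormOrd D' j₁`: `p = ctr A P₁` is of height
one (`ctr_one`), `p ≤ ctr A x₁ = x`; `res_one` gives `v` with centre `p`, `w₁ ∘ φ = v`; `w₁` is
divisorial (the residue field of a height one prime: see `formOrd_heightOne` and its neighbours
or `divB` in Y/DivB.lean: `formOrd` of `w₁` gives the bound for the Jacobians, so `w₁` is
divisorial by `divB`), so `v` is (`ram_div`), and `ram` with `e = 1` gives `j` with `v.FormOrd D j`,
`1 + j₁ = 1 + j`.  So `j₁ + δ₁ P₁ = j + δ p = v.val γ = w₁.val γ₁`.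
-/

set_option autoImplicit false

namespace Pool.Agent.MLD.Cox

open Pool.Agent.MLD.Ten

universe u v

variable {k : Type u} {K L : Type v} [Field k] [CharZero k] [Field K] [Field L] [Algebra k K]
  [Algebra k L] [Algebra K L] [IsScalarTower k K L] [FiniteDimensional K L]
  (A : Subalgebra k K) (hA : Ten.IsGood A)
  (hur : ∀ P₁ : Ideal (intCl A L), IsHeightOne P₁ → ∀ w₁ : DVal k L,
    w₁.HasCenter (intCl A L) P₁ → ∃ b : K, b ≠ 0 ∧ w₁.ord (algebraMap K L b) = 1)

omit [CharZero k] [IsScalarTower k K L] [FiniteDimensional K L] in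
private theorem Loc.val_map (γ : Kˣ →₀ ℝ) (w : DVal k L) (e : ℕ) (v : DVal k K)
    (h : ∀ a : K, a ≠ 0 → w.ord (algebraMap K L a) = e * v.ord a) :
    w.val (γ.mapDomain (Units.map ((algebraMap K L : K →+* L) : K →* L))) = e * v.val γ := by
  unfold DVal.val
  rw [Finsupp.sum_mapDomain_index, Finsupp.mul_sum]
  · refine Finsupp.sum_congr fun g _ => ?_
    have h1 : (((Units.map ((algebraMap K L : K →+* L) : K →* L)) g : Lˣ) : L) =
        algebraMap K L (g : K) := rfl
    rw [h1, h g g.ne_zero]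
    push_cast
    ring
  · intro g
    rw [zero_mul]
  · intro g r s
    rw [add_mul]

include hA hur

theorem res_one (P₁ : Ideal (intCl A L)) (hP : IsHeightOne P₁) (w₁ : DVal k L)
    (hw : w₁.HasCenter (intCl A L) P₁) : ∃ v : DVal k K, v.HasCenter A (ctr A P₁) ∧
      ∀ a : K, a ≠ 0 → w₁.ord (algebraMap K L a) = v.ord a := by
  have _ := hA
  obtain ⟨b, hb, hb1⟩ := hur P₁ hP w₁ hw
  obtain ⟨e, v, -, hv⟩ := restrict (IsScalarTower.toAlgHom k K L) w₁
    ⟨b, hb, by
      have : w₁.ord ((IsScalarTower.toAlgHom k K L) b) = 1 := hb1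
      omega⟩
  have hv' : ∀ a : K, a ≠ 0 → w₁.ord (algebraMap K L a) = e * v.ord a := hv
  have he : (e : ℤ) = 1 := by
    have h1 := hv' b hb
    rw [hb1] at h1
    rcases Int.eq_one_or_neg_one_of_mul_eq_one h1.symm with h | h
    · exact h
    · omega
  have hv1 : ∀ a : K, a ≠ 0 → w₁.ord (algebraMap K L a) = v.ord a := by
    intro a ha
    rw [hv' a ha, he, one_mul]
  refine ⟨v, ⟨?_, ?_⟩, hv1⟩
  · intro a ha
    rw [← hv1 a ha]
    refine hw.1 (toCl A L a) ?_
    rw [toCl_coe]
    simpa using ha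
  · intro a
    rw [mem_ctr, hw.2]
    constructor
    · intro h ha
      rw [← hv1 a ha]
      exact h (by
        rw [toCl_coe]
        simpa using ha)
    · intro h ha
      rw [toCl_coe] at ha ⊢
      have ha' : (a : K) ≠ 0 := by
        rintro h0
        exact ha (by rw [h0, map_zero])
      rw [hv1 a ha']
      exact h ha'

theorem locEq {m : ℕ} (y : Fin (m + 1) → K) (hy : IsTranscendenceBasis k y)
    (D : Fin (m + 1) → Derivation k K K) (hD : ∀ i j, D i (y j) = if i = j then 1 else 0)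
    (D' : Fin (m + 1) → Derivation k L L)
    (hD' : ∀ i j, D' i (algebraMap K L (y j)) = if i = j then 1 else 0)
    (δ : Ideal A →₀ ℝ) (hδ : ∀ p, 0 ≤ δ p) (γ : Kˣ →₀ ℝ) :
    ∃ (δ₁ : Ideal (intCl A L) →₀ ℝ) (γ₁ : Lˣ →₀ ℝ), (∀ p, 0 ≤ δ₁ p) ∧
      (∀ (w : DVal k L) (e : ℕ) (v : DVal k K),
        (∀ a : K, a ≠ 0 → w.ord (algebraMap K L a) = e * v.ord a) → w.val γ₁ = e * v.val γ) ∧
      ∀ x₁ : Ideal (intCl A L), IsLocalEq A D δ (ctr A x₁) γ →
        IsLocalEq (intCl A L) D' δ₁ x₁ γ₁ := by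
  classical
  have hfin : {P₁ : Ideal (intCl A L) | IsHeightOne P₁ ∧ δ (ctr A P₁) ≠ 0}.Finite := by
    refine (Set.Finite.biUnion δ.support.finite_toSet
      (t := fun p => {P₁ : Ideal (intCl A L) | IsHeightOne P₁ ∧ ctr A P₁ = p}) ?_).subset ?_
    · intro p _
      by_cases hp : p = ⊥
      · refine Set.Finite.subset Set.finite_empty ?_
        rintro P₁ ⟨h1, h2⟩
        exact (ctr_one A hA P₁ h1).2.1 (h2.trans hp)
      · obtain ⟨a, hap, ha⟩ := Submodule.exists_mem_ne_zero_of_ne_bot hp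
        have hN : IsNoetherianRing (intCl A L) := by
          have : Algebra.FiniteType k (intCl A L) :=
            (intCl A L).fg_iff_finiteType.1 (intCl_good A hA).fg
          exact Algebra.FiniteType.isNoetherianRing k _
        refine (finite_heightOne (intCl A L) hN (toCl A L a) ?_).subset ?_
        · intro h0
          have h1 : (algebraMap K L a : L) = 0 := by
            rw [← toCl_coe, h0]
            rfl
          apply ha
          have h2 : (a : K) = 0 := by simpa using h1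
          exact_mod_cast h2
        · rintro P₁ ⟨h1, h2⟩
          refine ⟨h1, ?_⟩
          rw [← mem_ctr, h2]
          exact hap
    · rintro P₁ ⟨h1, h2⟩
      simp only [Set.mem_iUnion]
      exact ⟨ctr A P₁, by simpa using h2, h1, rfl⟩
  refine ⟨Finsupp.onFinset hfin.toFinset
    (fun P₁ => if IsHeightOne P₁ then δ (ctr A P₁) else 0) ?_,
    γ.mapDomain (Units.map ((algebraMap K L : K →+* L) : K →* L)), ?_, ?_, ?_⟩
  · intro P₁ h
    rw [Set.Finite.mem_toFinset]
    by_cases h1 : IsHeightOne P₁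
    · rw [if_pos h1] at h
      exact ⟨h1, h⟩
    · rw [if_neg h1] at h
      exact absurd rfl h
  · intro P₁
    rw [Finsupp.onFinset_apply]
    split_ifs
    · exact hδ _
    · exact le_rfl
  · intro w e v hwv
    exact Loc.val_map γ w e v hwv
  · intro x₁ hx q hq hq1 w₁ hw j hj
    have hp1 := ctr_one A hA q hq1
    have hp : ctr A q ≤ ctr A x₁ := Ideal.comap_mono hq
    obtain ⟨v, hv, hv1⟩ := res_one A hA hur q hq1 w₁ hw
    have hv1' : ∀ a : K, a ≠ 0 → w₁.ord (algebraMap K L a) = ((1 : ℕ) : ℤ) * v.ord a := by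
      intro a ha
      rw [hv1 a ha, Nat.cast_one, one_mul]
    have hy' := (ram_der (L := L) y hy).1
    have hdiv : w₁.IsDivisorial m := (divB w₁ (fun i => algebraMap K L (y i)) hy' D' hD' (-j)
      hj.1).1
    have hvd : v.IsDivisorial m := (ram_div v w₁ 1 le_rfl hv1' m).2 hdiv
    obtain ⟨j₀, hj₀, hjj⟩ := (ram y hy D hD D' hD' v w₁ 1 le_rfl hv1' hvd).2 j hj
    have h1 := hx (ctr A q) hp hp1 v hv j₀ hj₀
    have h2 := Loc.val_map γ w₁ 1 v hv1'
    rw [h2, Nat.cast_one, one_mul, ← h1, Finsupp.onFinset_apply, if_pos hq1]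
    have h3 : j = j₀ := by
      rw [Nat.cast_one, one_mul] at hjj
      omega
    rw [h3]

end Pool.Agent.MLD.Cox
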