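import Pool.Agent.Lib.MP_f23696_ag.T.Ind

/-!
Project COX-L, module LocA: the localization `A[1/g]` of `A` as a subalgebra of `K`.

`locA A g = {b | ∃ n, b g^n ∈ A}`, `toLoc A g : A → locA A g`, `dn A g P` is the contraction of an
ideal `P` of `locA A g` to `A`.  Assume `g ≠ 0`.

Proofs.  `g` is a unit of `locA A g` (`g⁻¹ g ∈ A`), so for `b ∈ locA A g`, `b g^n = a ∈ A`:
`b ∈ P ↔ a ∈ dn P`.
* `loc_good`: `fg`: `locA A g` is generated by `g⁻¹` and the generators of `A`
  (`b = a (g⁻¹)^n`); `frac`: as `A ≤ locA A g`; `norm`: if `f` is integral over `locA A g`, then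
  `f g^n` is integral over `A` for `n` large (multiply the integral equation of degree `r` by
  `g^(n r)`; or: `locA A g` is the localization `IsLocalization.Away g`, and
  `IsIntegrallyClosed` is inherited by localizations), so `f g^n ∈ A`.
* `dn_inj`, `dn_le_iff`: by the remark above.  `dn_prime`: contraction.  `g_not_mem`: `g` is a
  unit.
* `locUp`: `P = {b | ∃ n, ∃ a ∈ p, b g^n = a}` is a prime ideal (`g ∉ p`) with `dn P = p`.
* `dn_h1`: the bijection `P ↦ dn P` between the primes of `locA A g` and the primes of `A` not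
  containing `g` preserves inclusions; `dn P = ⊥ ↔ P = ⊥`; `P` is prime if `dn P` is prime.
* `max_of`: if `dn P = x` is maximal and `P ≤ Q` proper, then `x ≤ dn Q ≠ ⊤`, so `dn Q = x = dn P`
  and `Q = P`.
* `center_iff`: `→`: restriction.  `←`: `g ∉ dn P`, so `v g = 0` and `v b = v (b g^n)`.
* `dim_loc`: `locA A g ⧸ P` is a localization of `A ⧸ dn P`: the map `Q ↦ dn Q` from the primes of
  `locA A g` containing `P` to the primes of `A` containing `dn P` is strictly monotone
  (`Order.krullDim_le_of_strictMono`, `Ideal.primeSpectrumQuotientOrderIsoZeroLocus` or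
  `PrimeSpectrum.comap` of the injective map `A ⧸ dn P → locA A g ⧸ P`).
-/

set_option autoImplicit false

namespace Pool.Agent.MLD.Cox

universe u v

variable {k : Type u} {K : Type v} [Field k] [Field K] [Algebra k K] (A : Subalgebra k K) (g : A)

/-- the localization `A[1/g]` -/
def locA : Subalgebra k K where
  carrier := {b | ∃ n : ℕ, b * (g : K) ^ n ∈ A}
  mul_mem' := by
    rintro a b ⟨n, hn⟩ ⟨m, hm⟩
    refine ⟨n + m, ?_⟩
    have h : a * b * (g : K) ^ (n + m) = (a * (g : K) ^ n) * (b * (g : K) ^ m) := by ring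
    rw [h]
    exact A.mul_mem hn hm
  add_mem' := by
    rintro a b ⟨n, hn⟩ ⟨m, hm⟩
    refine ⟨n + m, ?_⟩
    have h : (a + b) * (g : K) ^ (n + m) = (a * (g : K) ^ n) * (g : K) ^ m +
        (b * (g : K) ^ m) * (g : K) ^ n := by ring
    rw [h]
    exact A.add_mem (A.mul_mem hn (A.pow_mem g.2 m)) (A.mul_mem hm (A.pow_mem g.2 n))
  algebraMap_mem' := fun c => ⟨0, by rw [pow_zero, mul_one]; exact A.algebraMap_mem c⟩

theorem mem_locA (b : K) : b ∈ locA A g ↔ ∃ n : ℕ, b * (g : K) ^ n ∈ A := Iff.rfl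

theorem le_locA : A ≤ locA A g := fun b hb => ⟨0, by simpa using hb⟩

/-- the inclusion of `A` in the localization -/
def toLoc : A →ₐ[k] locA A g := Subalgebra.inclusion (le_locA A g)

/-- the contraction of an ideal to `A` -/
def dn (P : Ideal (locA A g)) : Ideal A := P.comap (toLoc A g)

theorem mem_dn (P : Ideal (locA A g)) (a : A) : a ∈ dn A g P ↔ toLoc A g a ∈ P := Iff.rfl

theorem toLoc_coe (a : A) : (toLoc A g a : K) = (a : K) := rfl

theorem dn_prime (P : Ideal (locA A g)) (hP : P.IsPrime) : (dn A g P).IsPrime :=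
  Ideal.comap_isPrime _ _

private theorem coe_ne (hg : g ≠ 0) : (g : K) ≠ 0 := fun h => hg (Subtype.ext h)

private theorem key_eq (b : locA A g) (n : ℕ) (a : A) (h : (b : K) * (g : K) ^ n = a) :
    b * toLoc A g g ^ n = toLoc A g a :=
  Subtype.ext (by
    push_cast
    exact h)

variable (hg : g ≠ 0)

include hg

private theorem inv_mem : (g : K)⁻¹ ∈ locA A g := by
  refine ⟨1, ?_⟩
  rw [pow_one, inv_mul_cancel₀ (coe_ne A g hg)]
  exact A.one_mem

private theorem inv_mul : (⟨(g : K)⁻¹, inv_mem A g hg⟩ : locA A g) * toLoc A g g = 1 :=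
  Subtype.ext (inv_mul_cancel₀ (coe_ne A g hg))

private theorem mem_key (P : Ideal (locA A g)) (b : locA A g) (n : ℕ) (a : A)
    (h : (b : K) * (g : K) ^ n = a) : b ∈ P ↔ a ∈ dn A g P := by
  rw [mem_dn, ← key_eq A g b n a h]
  constructor
  · exact fun hb => P.mul_mem_right _ hb
  · intro hb
    have h1 : b = b * toLoc A g g ^ n * (⟨(g : K)⁻¹, inv_mem A g hg⟩ : locA A g) ^ n := by
      rw [mul_assoc, ← mul_pow, mul_comm (toLoc A g g), inv_mul A g hg, one_pow, mul_one]
    rw [h1]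
    exact P.mul_mem_right _ hb

private theorem isLoc : letI := (toLoc A g).toRingHom.toAlgebra
    IsLocalization (Submonoid.powers g) (locA A g) := by
  letI := (toLoc A g).toRingHom.toAlgebra
  have hmap : ∀ a : A, algebraMap A (locA A g) a = toLoc A g a := fun _ => rfl
  refine ⟨?_, ?_, ?_⟩
  · rintro ⟨_, n, rfl⟩
    show IsUnit (toLoc A g (g ^ n))
    rw [map_pow]
    exact (IsUnit.of_mul_eq_one _ (by rw [mul_comm]; exact inv_mul A g hg)).pow n
  · intro z
    obtain ⟨n, hn⟩ := z.2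
    refine ⟨(⟨(z : K) * (g : K) ^ n, hn⟩, ⟨g ^ n, n, rfl⟩), ?_⟩
    show z * toLoc A g (g ^ n) = toLoc A g ⟨(z : K) * (g : K) ^ n, hn⟩
    rw [map_pow]
    exact key_eq A g z n _ rfl
  · intro x y hxy
    refine ⟨1, ?_⟩
    have h1 : (x : K) = y := congrArg (fun t : locA A g => (t : K)) hxy
    rw [Subtype.ext h1]

theorem loc_good (hA : Ten.IsGood A) : Ten.IsGood (locA A g) := by
  refine ⟨?_, ?_, ?_⟩
  · obtain ⟨s, hs⟩ := hA.fg
    classical
    refine ⟨insert (g : K)⁻¹ s, le_antisymm (Algebra.adjoin_le ?_) ?_⟩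
    · intro x hx
      rw [Finset.coe_insert] at hx
      rcases hx with rfl | hx
      · exact inv_mem A g hg
      · have hx' : x ∈ Algebra.adjoin k (s : Set K) := Algebra.subset_adjoin hx
        rw [hs] at hx'
        exact le_locA A g hx'
    · rintro b ⟨n, hn⟩
      have h1 : ∀ x ∈ A, x ∈ Algebra.adjoin k (↑(insert (g : K)⁻¹ s) : Set K) := by
        intro x hx
        have hx' : x ∈ Algebra.adjoin k (s : Set K) := by
          rw [hs]
          exact hx
        refine Algebra.adjoin_mono ?_ hx'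
        rw [Finset.coe_insert]
        exact Set.subset_insert _ _
      have h2 : (g : K)⁻¹ ∈ Algebra.adjoin k (↑(insert (g : K)⁻¹ s) : Set K) :=
        Algebra.subset_adjoin (by simp)
      have h3 : b = b * (g : K) ^ n * ((g : K)⁻¹) ^ n := by
        rw [mul_assoc, ← mul_pow, mul_inv_cancel₀ (coe_ne A g hg), one_pow, mul_one]
      rw [h3]
      exact Subalgebra.mul_mem _ (h1 _ hn) (Subalgebra.pow_mem _ h2 n)
  · intro f
    obtain ⟨a, b, hb, hf⟩ := hA.frac f
    exact ⟨toLoc A g a, toLoc A g b, hb, hf⟩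
  · intro f hf
    letI := (toLoc A g).toRingHom.toAlgebra
    haveI : IsScalarTower A (locA A g) K := IsScalarTower.of_algebraMap_eq fun _ => rfl
    haveI := isLoc A g hg
    obtain ⟨⟨_, n, rfl⟩, hm⟩ :=
      IsIntegral.exists_multiple_integral_of_isLocalization (Submonoid.powers g) f hf
    have h1 := hA.norm _ hm
    refine ⟨n, ?_⟩
    have h2 : ((⟨g ^ n, n, rfl⟩ : Submonoid.powers g) • f : K) = f * (g : K) ^ n := by
      show ((g ^ n : A) : K) * f = f * (g : K) ^ n
      push_cast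
      ring
    rwa [h2] at h1

theorem inv_mem_locA : (g : K)⁻¹ ∈ locA A g := inv_mem A g hg

theorem dn_le_iff (P Q : Ideal (locA A g)) : dn A g P ≤ dn A g Q ↔ P ≤ Q := by
  constructor
  · intro h b hb
    obtain ⟨n, hn⟩ := b.2
    have h1 := (mem_key A g hg P b n ⟨_, hn⟩ rfl).1 hb
    exact (mem_key A g hg Q b n ⟨_, hn⟩ rfl).2 (h h1)
  · intro h
    exact Ideal.comap_mono h

theorem dn_inj : Function.Injective (dn A g) := fun P Q h =>
  le_antisymm ((dn_le_iff A g hg P Q).1 h.le) ((dn_le_iff A g hg Q P).1 h.ge)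

theorem g_not_mem (P : Ideal (locA A g)) (hP : P ≠ ⊤) : g ∉ dn A g P := by
  intro h
  rw [mem_dn] at h
  refine hP ((Ideal.eq_top_iff_one P).2 ?_)
  rw [← inv_mul A g hg]
  exact P.mul_mem_left _ h

theorem locUp (p : Ideal A) (hp : p.IsPrime) (hgp : g ∉ p) :
    ∃ P : Ideal (locA A g), P.IsPrime ∧ dn A g P = p := by
  letI := (toLoc A g).toRingHom.toAlgebra
  haveI := isLoc A g hg
  have hd : Disjoint ((Submonoid.powers g : Submonoid A) : Set A) (p : Set A) := by
    rw [Set.disjoint_left]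
    rintro _ ⟨n, rfl⟩ hn
    exact hgp (hp.mem_of_pow_mem n hn)
  refine ⟨Ideal.map (algebraMap A (locA A g)) p,
    IsLocalization.isPrime_of_isPrime_disjoint (Submonoid.powers g) (locA A g) p hp hd, ?_⟩
  exact IsLocalization.comap_map_of_isPrime_disjoint (Submonoid.powers g) (locA A g) hp hd

private theorem dn_bot_iff (P : Ideal (locA A g)) : dn A g P = ⊥ ↔ P = ⊥ := by
  have h0 : dn A g (⊥ : Ideal (locA A g)) = ⊥ := by
    rw [eq_bot_iff]
    intro a ha
    rw [mem_dn, Ideal.mem_bot] at ha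
    rw [Ideal.mem_bot]
    exact Subtype.ext (congrArg (fun t : locA A g => (t : K)) ha)
  constructor
  · intro h
    exact dn_inj A g hg (h.trans h0.symm)
  · rintro rfl
    exact h0

private theorem prime_of (P : Ideal (locA A g)) (h : (dn A g P).IsPrime) : P.IsPrime := by
  have hP : P ≠ ⊤ := by
    rintro rfl
    exact h.ne_top (Ideal.comap_top)
  obtain ⟨P', h1, h2⟩ := locUp A g hg (dn A g P) h (g_not_mem A g hg P hP)
  rwa [dn_inj A g hg h2] at h1

theorem dn_h1 (P : Ideal (locA A g)) : IsHeightOne P ↔ IsHeightOne (dn A g P) := by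
  constructor
  · rintro ⟨h1, h2, h3⟩
    refine ⟨dn_prime A g P h1, fun h => h2 ((dn_bot_iff A g hg P).1 h), fun q hq hq0 hle => ?_⟩
    obtain ⟨Q, hQ, rfl⟩ := locUp A g hg q hq fun h => g_not_mem A g hg P h1.ne_top (hle h)
    rw [h3 Q hQ (fun h => hq0 ((dn_bot_iff A g hg Q).2 h)) ((dn_le_iff A g hg Q P).1 hle)]
  · rintro ⟨h1, h2, h3⟩
    refine ⟨prime_of A g hg P h1, fun h => h2 ((dn_bot_iff A g hg P).2 h),
      fun Q hQ hQ0 hle => ?_⟩
    exact dn_inj A g hg (h3 _ (dn_prime A g Q hQ)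
      (fun h => hQ0 ((dn_bot_iff A g hg Q).1 h)) ((dn_le_iff A g hg Q P).2 hle))

theorem max_of (P : Ideal (locA A g)) (hP : P.IsPrime) (h : (dn A g P).IsMaximal) :
    P.IsMaximal := by
  refine ⟨hP.ne_top, fun Q hQ => ?_⟩
  by_contra hne
  have h1 : dn A g Q ≠ ⊤ := by
    intro h2
    refine hne ((Ideal.eq_top_iff_one Q).2 ?_)
    have h3 : (1 : A) ∈ dn A g Q := by
      rw [h2]
      exact Submodule.mem_top
    rw [mem_dn, map_one] at h3
    exact h3
  have h2 := h.eq_of_le h1 ((dn_le_iff A g hg P Q).2 hQ.le)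
  exact hQ.ne (dn_inj A g hg h2)

omit hg in
private theorem ord_pow (v : DVal k K) (a : K) (ha : a ≠ 0) (n : ℕ) :
    v.ord (a ^ n) = n * v.ord a := by
  induction n with
  | zero =>
    have h := v.ord_algebraMap 1 one_ne_zero
    rw [map_one] at h
    simpa using h
  | succ n ih =>
    rw [pow_succ, v.ord_mul _ _ (pow_ne_zero n ha) ha, ih]
    push_cast
    ring

theorem center_iff (v : DVal k K) (P : Ideal (locA A g)) (hP : P.IsPrime) :
    v.HasCenter (locA A g) P ↔ v.HasCenter A (dn A g P) := by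
  constructor
  · rintro ⟨h1, h2⟩
    exact ⟨fun a => h1 (toLoc A g a), fun a => h2 (toLoc A g a)⟩
  · rintro ⟨h1, h2⟩
    have hγ := coe_ne A g hg
    have h3 : v.ord (g : K) = 0 := by
      have h4 : ¬ v.Small (g : K) := fun h => g_not_mem A g hg P hP.ne_top ((h2 g).2 h)
      have h5 : 0 ≤ v.ord (g : K) := h1 g hγ
      by_contra h6
      exact h4 fun _ => lt_of_le_of_ne h5 (Ne.symm h6)
    have h4 : ∀ (b : locA A g) (n : ℕ) (a : A), (b : K) * (g : K) ^ n = a → (b : K) ≠ 0 →
        (a : K) ≠ 0 ∧ v.ord (b : K) = v.ord (a : K) := by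
      intro b n a h hb
      have h5 : (a : K) ≠ 0 := by
        rw [← h]
        exact mul_ne_zero hb (pow_ne_zero n hγ)
      refine ⟨h5, ?_⟩
      rw [← h, v.ord_mul _ _ hb (pow_ne_zero n hγ), ord_pow v _ hγ, h3]
      ring
    refine ⟨fun b hb => ?_, fun b => ?_⟩
    · obtain ⟨n, hn⟩ := b.2
      obtain ⟨h5, h6⟩ := h4 b n ⟨_, hn⟩ rfl hb
      rw [h6]
      exact h1 _ h5
    · obtain ⟨n, hn⟩ := b.2
      rw [mem_key A g hg P b n ⟨_, hn⟩ rfl, h2]
      constructor
      · intro h hb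
        obtain ⟨h5, h6⟩ := h4 b n ⟨_, hn⟩ rfl hb
        rw [h6]
        exact h h5
      · intro h h5
        have hb : (b : K) ≠ 0 := by
          intro hb
          apply h5
          show (b : K) * (g : K) ^ n = 0
          rw [hb, zero_mul]
        obtain ⟨-, h6⟩ := h4 b n ⟨_, hn⟩ rfl hb
        rw [← h6]
        exact h hb

theorem dim_loc (P : Ideal (locA A g)) (hP : P.IsPrime) :
    ringKrullDim (locA A g ⧸ P) ≤ ringKrullDim (A ⧸ dn A g P) := by
  let j : A ⧸ dn A g P →+* locA A g ⧸ P :=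
    Ideal.quotientMap P (toLoc A g).toRingHom le_rfl
  have hj : ∀ a : A, j (Ideal.Quotient.mk _ a) = Ideal.Quotient.mk P (toLoc A g a) :=
    fun a => Ideal.quotientMap_mk
  have key : ∀ Q₁ Q₂ : PrimeSpectrum (locA A g ⧸ P),
      PrimeSpectrum.comap j Q₁ ≤ PrimeSpectrum.comap j Q₂ → Q₁ ≤ Q₂ := by
    intro Q₁ Q₂ h
    have h1 : dn A g (Q₁.asIdeal.comap (Ideal.Quotient.mk P)) ≤
        dn A g (Q₂.asIdeal.comap (Ideal.Quotient.mk P)) := by
      intro a ha
      rw [mem_dn, Ideal.mem_comap, ← hj] at ha ⊢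
      exact h ha
    have h2 := (dn_le_iff A g hg _ _).1 h1
    intro x hx
    obtain ⟨y, rfl⟩ := Ideal.Quotient.mk_surjective x
    exact h2 hx
  refine Order.krullDim_le_of_strictMono (PrimeSpectrum.comap j) fun Q₁ Q₂ h => ?_
  refine lt_of_le_not_ge (fun x hx => h.le hx) fun h' => ?_
  exact not_le_of_gt h (key Q₂ Q₁ h')

end Pool.Agent.MLD.Cox
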