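import Pool.Agent.Lib.MP_f23696_ag.Z.LocA
import Pool.Agent.Lib.MP_f23696_ag.Z.Ineq

/-!
Project COX-L, module LocB: minimal log discrepancies are local.

`locD A g δ` is the restriction of the divisor `δ` to `Spec A[1/g]`: `locD A g δ P = δ (dn P)`.

* `locD_apply`: `Finsupp.comapDomain_apply`.
* `loc_eq`: let `q ≤ P` be of height one in `locA A g` and `v` with centre `q`, `v.FormOrd D j`.
  `dn q` is of height one (`dn_h1`), `dn q ≤ dn P` (`dn_le_iff`), `v` has centre `dn q` on `A`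
  (`center_iff`), so `j + δ (dn q) = v.val γ`.
* `mld_loc`: let `l' ∈ logDiscs (locA A g) D δ' x'`, `l' = 1 + j - v.val γ'`, `v` divisorial with
  centre `x'`, so with centre `x` on `A` (`center_iff`).  `γ` is a local equation at `x` on `A`, so
  (`loc_eq`) at `x'` on `locA A g`; `v.val γ' = v.val γ` by `indep_gen` (T/Ind.lean; `jac D y = 1`
  gives `∃ c, jac D c ≠ 0`, see `Ten.jac_dual`), so `l' ∈ logDiscs A D δ x`.  So
  `logDiscs (locA A g) D δ' x' ⊆ logDiscs A D δ x` and `mld` is antitone.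
* `mldP_loc`: `logDiscsP A D δ q ⊆ logDiscsP (locA A g) D δ' q'` by `center_iff` and `loc_eq` (the
  same `γ`).
* `loc_ineq`: let `δ`, `x`, `γ`, `q`, `d` be as in `MldIneq A D`.  Take `g ∉ x` with
  `MldIneq (locA A g) D`; `g ≠ 0`; `locUp`: primes `x'`, `q'` with `dn x' = x`, `dn q' = q`
  (`g ∉ q ≤ x`); `x'` is maximal (`max_of`), `q' ≤ x'` (`dn_le_iff`), `ringKrullDim` by `dim_loc`.
  So `mld A D δ x ≤ mld (locA A g) D δ' x' ≤ mldP (locA A g) D δ' q' + d ≤ mldP A D δ q + d`.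
-/

set_option autoImplicit false

namespace Pool.Agent.MLD.Cox

universe u v

variable {k : Type u} {K : Type v} [Field k] [Field K] [Algebra k K] (A : Subalgebra k K) (g : A)

/-- the restriction of a divisor to `Spec A[1/g]` -/
noncomputable def locD {R : Type} [Zero R] (hg : g ≠ 0) (δ : Ideal A →₀ R) :
    Ideal (locA A g) →₀ R :=
  Finsupp.comapDomain (dn A g) δ (dn_inj A g hg).injOn

open Classical in
private theorem LocB_mono {S S' : Set ℝ} (h : S' ⊆ S) :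
    (if ∃ l ∈ S, l < 0 then (⊥ : EReal) else ⨅ l ∈ S, (l : EReal)) ≤
      (if ∃ l ∈ S', l < 0 then (⊥ : EReal) else ⨅ l ∈ S', (l : EReal)) := by
  by_cases h1 : ∃ l ∈ S, l < 0
  · rw [if_pos h1]
    exact bot_le
  · rw [if_neg h1, if_neg (fun ⟨l, hl, h0⟩ => h1 ⟨l, h hl, h0⟩)]
    exact biInf_mono h

variable (hg : g ≠ 0)

include hg

theorem locD_apply {R : Type} [Zero R] (δ : Ideal A →₀ R) (P : Ideal (locA A g)) :
    locD A g hg δ P = δ (dn A g P) := by
  exact Finsupp.comapDomain_apply _ _ _ _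

theorem loc_eq {n : ℕ} (D : Fin n → Derivation k K K) (δ : Ideal A →₀ ℝ) (P : Ideal (locA A g))
    (γ : Kˣ →₀ ℝ) (h : IsLocalEq A D δ (dn A g P) γ) :
    IsLocalEq (locA A g) D (locD A g hg δ) P γ := by
  intro q hq hq1 v hv j hj
  rw [locD_apply]
  exact h (dn A g q) ((dn_le_iff A g hg q P).2 hq) ((dn_h1 A g hg q).1 hq1) v
    ((center_iff A g hg v q hq1.1).1 hv) j hj

theorem mld_loc [CharZero k] (hA : Ten.IsGood A) {m : ℕ} (y : Fin (m + 1) → K)
    (D : Fin (m + 1) → Derivation k K K) (hD : ∀ i j, D i (y j) = if i = j then 1 else 0)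
    (δ : Ideal A →₀ ℝ) (x : MaximalSpectrum A) (γ : Kˣ →₀ ℝ) (hγ : IsLocalEq A D δ x.asIdeal γ)
    (x' : MaximalSpectrum (locA A g)) (hx : dn A g x'.asIdeal = x.asIdeal) :
    mld A D δ x ≤ mld (locA A g) D (locD A g hg δ) x' := by
  have hj : ∃ c, jac D c ≠ 0 := by
    refine ⟨y, ?_⟩
    have h1 : (Matrix.of fun i j => D i (y j)) = 1 := by
      ext i j
      rw [Matrix.of_apply, hD, Matrix.one_apply]
    unfold jac
    rw [h1, Matrix.det_one]
    exact one_ne_zero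
  unfold mld
  refine LocB_mono ?_
  rintro l ⟨v, hv, hc, j, hj', γ', hγ', rfl⟩
  refine ⟨v, hv, ?_, j, hj', γ, hγ, ?_⟩
  · rw [← hx]
    exact (center_iff A g hg v x'.asIdeal x'.isMaximal.isPrime).1 hc
  · have h1 : IsLocalEq (locA A g) D (locD A g hg δ) x'.asIdeal γ := by
      refine loc_eq A g hg D δ x'.asIdeal γ ?_
      rw [hx]
      exact hγ
    rw [Ten.indep_gen (locA A g) (loc_good A g hg hA) D hj (locD A g hg δ) x'.asIdeal
      x'.isMaximal.isPrime γ' γ hγ' h1 v hc]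

theorem mldP_loc {m : ℕ} (D : Fin (m + 1) → Derivation k K K) (δ : Ideal A →₀ ℝ) (q : Ideal A)
    (q' : Ideal (locA A g)) (hq' : q'.IsPrime) (hq : dn A g q' = q) :
    mldP (locA A g) D (locD A g hg δ) q' ≤ mldP A D δ q := by
  subst hq
  unfold mldP
  refine LocB_mono ?_
  rintro l ⟨v, hv, hc, j, hj, γ, hγ, rfl⟩
  exact ⟨v, hv, (center_iff A g hg v q' hq').2 hc, j, hj, γ, loc_eq A g hg D δ q' γ hγ, rfl⟩

omit hg

theorem loc_ineq [CharZero k] (hA : Ten.IsGood A) {m : ℕ} (y : Fin (m + 1) → K)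
    (D : Fin (m + 1) → Derivation k K K) (hD : ∀ i j, D i (y j) = if i = j then 1 else 0)
    (h : ∀ x : MaximalSpectrum A, ∃ g : A, g ∉ x.asIdeal ∧ MldIneq (locA A g) D) :
    MldIneq A D := by
  rintro δ hδ x ⟨γ, hγ⟩ q hq hqx d hd
  obtain ⟨g, hgx, hI⟩ := h x
  have hg : g ≠ 0 := by
    rintro rfl
    exact hgx x.asIdeal.zero_mem
  obtain ⟨P, hP, hPx⟩ := locUp A g hg x.asIdeal x.isMaximal.isPrime hgx
  obtain ⟨Q, hQ, hQq⟩ := locUp A g hg q hq (fun h => hgx (hqx h))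
  have hPm : P.IsMaximal := by
    refine max_of A g hg P hP ?_
    rw [hPx]
    exact x.isMaximal
  have hQP : Q ≤ P := by
    refine (dn_le_iff A g hg Q P).1 ?_
    rw [hPx, hQq]
    exact hqx
  have h1 := mld_loc A g hg hA y D hD δ x γ hγ ⟨P, hPm⟩ hPx
  have h2 := hI (locD A g hg δ) (fun p => by rw [locD_apply]; exact hδ _) ⟨P, hPm⟩
    ⟨γ, loc_eq A g hg D δ P γ (by rw [hPx]; exact hγ)⟩ Q hQ hQP d
    ((dim_loc A g hg Q hQ).trans (by rw [hQq]; exact hd))
  have h3 := mldP_loc A g hg D δ q Q hQ hQq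
  exact h1.trans (h2.trans (add_le_add_left h3 _))

end Pool.Agent.MLD.Cox
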